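import Pool.Agent.TH703.Cone.Stm

set_option autoImplicit false

/-!
Existence of minimizers of the relative perimeter at fixed volume (compactness of sets of bounded
relative perimeter, from the translation estimate).
-/

namespace Pool.Agent.TH703.Cone

namespace Exist

open MeasureTheory Set Filter Topology Metric
open scoped ENNReal RealInnerProductSpace

variable {E : Type*} [NormedAddCommGroup E] [InnerProductSpace ℝ E] [FiniteDimensional ℝ E]
  [MeasurableSpace E] [BorelSpace E]

lemma weak_extract [SecondCountableTopology E] (μ : Measure E) [IsFiniteMeasure μ]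
    (f : ℕ → Lp ℝ 2 μ) (C : ℝ) (hf : ∀ k, ‖f k‖ ≤ C) :
    ∃ F : Lp ℝ 2 μ, ∃ φ : ℕ → ℕ, StrictMono φ ∧
      ∀ h : Lp ℝ 2 μ, Tendsto (fun k => ⟪f (φ k), h⟫) atTop (𝓝 (⟪F, h⟫)) := by
  have h1 : ∀ k, StrongDual.toWeakDual (InnerProductSpace.toDual ℝ (Lp ℝ 2 μ) (f k)) ∈
      WeakDual.toStrongDual ⁻¹' closedBall (0 : StrongDual ℝ (Lp ℝ 2 μ)) C := by
    intro k
    simp only [mem_preimage, mem_closedBall, dist_zero_right]
    change ‖InnerProductSpace.toDual ℝ (Lp ℝ 2 μ) (f k)‖ ≤ C
    rw [LinearIsometryEquiv.norm_map]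
    exact hf k
  have : Fact ((2 : ℝ≥0∞) ≠ ∞) := ⟨by norm_num⟩
  have : SecondCountableTopology (Lp ℝ 2 μ) := inferInstance
  obtain ⟨ℓ, -, φ, hφ, hlim⟩ := WeakDual.isSeqCompact_closedBall ℝ (Lp ℝ 2 μ) 0 C h1
  refine ⟨(InnerProductSpace.toDual ℝ (Lp ℝ 2 μ)).symm (WeakDual.toStrongDual ℓ), φ, hφ,
    fun h => ?_⟩
  have h2 := ((WeakDual.eval_continuous h).tendsto ℓ).comp hlim
  rw [InnerProductSpace.toDual_symm_apply]
  exact h2

/-- Bounded measurable functions. -/
def BM (h : E → ℝ) : Prop := Measurable h ∧ ∃ C : ℝ, ∀ x, |h x| ≤ C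

lemma BM.memLp {h : E → ℝ} (hh : BM h) (μ : Measure E) [IsFiniteMeasure μ] : MemLp h 2 μ := by
  obtain ⟨hm, C, hC⟩ := hh
  exact MemLp.of_bound hm.aestronglyMeasurable C (Eventually.of_forall fun x => by
    rw [Real.norm_eq_abs]; exact hC x)

lemma BM.ind {S : Set E} (hS : MeasurableSet S) : BM (S.indicator fun _ => (1 : ℝ)) :=
  ⟨measurable_const.indicator hS, 1, fun x => by
      by_cases hx : x ∈ S
      · rw [indicator_of_mem hx]; simp
      · rw [indicator_of_notMem hx]; simp⟩

lemma weak_sets [SecondCountableTopology E] {Ω : Set E} (hΩ : MeasurableSet Ω)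
    (hfin : volume Ω ≠ ⊤) (A : ℕ → Set E) (hA : ∀ k, MeasurableSet (A k))
    (hsub : ∀ k, A k ⊆ Ω) :
    ∃ f : E → ℝ, Measurable f ∧ (∀ x, 0 ≤ f x ∧ f x ≤ 1) ∧ (∀ x ∉ Ω, f x = 0) ∧
      ∃ φ : ℕ → ℕ, StrictMono φ ∧ ∀ h : E → ℝ, BM h →
        Tendsto (fun k => ∫ x in A (φ k), h x) atTop (𝓝 (∫ x, h x * f x)) := by
  set μ : Measure E := volume.restrict Ω with hμ
  have : IsFiniteMeasure μ := ⟨by rw [hμ, Measure.restrict_apply_univ]; exact hfin.lt_top⟩
  obtain ⟨F, φ, hφ, hlim⟩ := weak_extract μ
    (fun k => indicatorConstLp 2 (hA k) (measure_ne_top μ _) (1 : ℝ))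
    (μ.real univ ^ (1 / (2 : ℝ≥0∞).toReal)) (fun k => by
      refine norm_indicatorConstLp_le.trans ?_
      rw [norm_one, one_mul]
      exact Real.rpow_le_rpow measureReal_nonneg (measureReal_mono (subset_univ _)) (by norm_num))
  have hlim2 : ∀ h : E → ℝ, BM h →
      Tendsto (fun k => ∫ x in A (φ k), h x ∂μ) atTop (𝓝 (∫ x, h x * F x ∂μ)) := by
    intro h hh
    have h1 := hlim ((hh.memLp μ).toLp h)
    have e1 : ∀ k, ⟪indicatorConstLp 2 (hA (φ k)) (measure_ne_top μ _) (1 : ℝ),
        (hh.memLp μ).toLp h⟫ = ∫ x in A (φ k), h x ∂μ := by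
      intro k
      rw [L2.inner_indicatorConstLp_one]
      exact setIntegral_congr_ae (hA _) ((hh.memLp μ).coeFn_toLp.mono fun x hx _ => hx)
    have e2 : ⟪F, (hh.memLp μ).toLp h⟫ = ∫ x, h x * F x ∂μ := by
      rw [L2.inner_def]
      refine integral_congr_ae ((hh.memLp μ).coeFn_toLp.mono fun x hx => ?_)
      simp only [hx]
      rfl
    simp only [e1, e2] at h1
    exact h1
  have hFint : Integrable F μ := (Lp.memLp F).integrable one_le_two
  have hS : ∀ S : Set E, MeasurableSet S →
      Tendsto (fun k => μ.real (A (φ k) ∩ S)) atTop (𝓝 (∫ x in S, F x ∂μ)) := by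
    intro S hSm
    have h1 := hlim2 _ (BM.ind hSm)
    have e1 : ∀ k, ∫ x in A (φ k), S.indicator (fun _ => (1 : ℝ)) x ∂μ =
        μ.real (A (φ k) ∩ S) := by
      intro k
      rw [setIntegral_indicator hSm]; simp
    have e2 : ∫ x, S.indicator (fun _ => (1 : ℝ)) x * F x ∂μ = ∫ x in S, F x ∂μ := by
      rw [← integral_indicator hSm]
      congr 1; ext x
      by_cases hx : x ∈ S
      · rw [indicator_of_mem hx, indicator_of_mem hx, one_mul]
      · rw [indicator_of_notMem hx, indicator_of_notMem hx, zero_mul]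
    simp only [e1, e2] at h1
    exact h1
  have hF0 : 0 ≤ᵐ[μ] F := ae_nonneg_of_forall_setIntegral_nonneg hFint fun S hSm _ =>
    ge_of_tendsto' (hS S hSm) fun k => measureReal_nonneg
  have hF1 : 0 ≤ᵐ[μ] fun x => 1 - F x := by
    refine ae_nonneg_of_forall_setIntegral_nonneg ((integrable_const 1).sub hFint) fun S hSm _ => ?_
    rw [integral_sub (integrable_const 1).integrableOn hFint.integrableOn]
    have h1 : ∫ x in S, F x ∂μ ≤ μ.real S :=
      le_of_tendsto' (hS S hSm) fun k => measureReal_mono inter_subset_right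
    simp only [integral_const, smul_eq_mul, mul_one, measureReal_restrict_apply MeasurableSet.univ,
      univ_inter]
    linarith
  let f : E → ℝ := Ω.indicator fun x => max 0 (min 1 (F x))
  have hFm : Measurable F := (Lp.stronglyMeasurable F).measurable
  have hfm : Measurable f := (measurable_const.max (measurable_const.min hFm)).indicator hΩ
  have hfF : f =ᵐ[μ] F := by
    filter_upwards [hF0, hF1, ae_restrict_mem hΩ] with x h0 h1 hx
    simp only [Pi.zero_apply] at h0 h1
    simp only [f]
    rw [indicator_of_mem hx, min_eq_right (by linarith), max_eq_right h0]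
  refine ⟨f, hfm, fun x => ?_, fun x hx => indicator_of_notMem hx _, φ, hφ, fun h hh => ?_⟩
  · by_cases hx : x ∈ Ω
    · simp only [f, indicator_of_mem hx]
      exact ⟨le_max_left _ _, max_le zero_le_one (min_le_left _ _)⟩
    · simp only [f, indicator_of_notMem hx]
      exact ⟨le_refl _, zero_le_one⟩
  · have e : ∫ x, h x * f x = ∫ x, h x * F x ∂μ := by
      have e1 : ∫ x, h x * f x = ∫ x, Ω.indicator (fun x => h x * f x) x := by
        congr 1
        ext x
        by_cases hx : x ∈ Ω
        · rw [indicator_of_mem hx]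
        · rw [indicator_of_notMem hx]
          simp only [f, indicator_of_notMem hx, mul_zero]
      rw [e1, integral_indicator hΩ]
      exact integral_congr_ae (hfF.mono fun x hx => by simp only [hx])
    have e2 : ∀ k, ∫ x in A (φ k), h x ∂μ = ∫ x in A (φ k), h x := by
      intro k
      rw [hμ, Measure.restrict_restrict (hA _), inter_eq_self_of_subset_left (hsub _)]
    rw [e]
    have := hlim2 h hh
    simpa only [e2] using this

lemma ball_est (h1 : S_T1 E) {Ω A K : Set E} {P ε : ℝ} (hΩ : IsOpen Ω) (hc : Convex ℝ Ω)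
    (hb : Bornology.IsBounded Ω) (hA : MeasurableSet A) (hAΩ : A ⊆ Ω) (hP : 0 ≤ P)
    (hPLE : PLE Ω A P) (hK : MeasurableSet K) (hKb : ∀ x ∈ K, closedBall x ε ⊆ Ω) :
    ∫⁻ x in A ∩ K, volume (closedBall x ε \ A) ≤
      volume (closedBall (0 : E) ε) * ENNReal.ofReal (ε * P) := by
  have : ProperSpace E := FiniteDimensional.proper ℝ E
  have : SecondCountableTopology E := secondCountable_of_proper
  set A' : Set E := A ∩ K with hA'
  have hA'm : MeasurableSet A' := hA.inter hK
  let Q : Set (E × E) := {p | p.1 ∈ A' ∧ p.2 ∈ closedBall (0 : E) ε ∧ p.1 + p.2 ∉ A}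
  have hQ : MeasurableSet Q := by
    refine (measurable_fst hA'm).inter ((measurable_snd measurableSet_closedBall).inter ?_)
    exact (((measurable_fst.add measurable_snd) : Measurable fun p : E × E => p.1 + p.2)
      hA).compl
  have e1 : (volume.prod volume) Q = ∫⁻ x in A', volume (closedBall x ε \ A) := by
    rw [Measure.prod_apply hQ, ← lintegral_indicator hA'm]
    congr 1
    ext x
    by_cases hx : x ∈ A'
    · rw [indicator_of_mem hx]
      have : Prod.mk x ⁻¹' Q = (fun h => h + x) ⁻¹' (closedBall x ε \ A) := by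
        ext h
        simp only [Q, mem_preimage, mem_ofPred_eq, Set.mem_sdiff, hx, true_and]
        rw [mem_closedBall, mem_closedBall, dist_zero_right, dist_eq_norm, add_sub_cancel_right,
          add_comm h x]
      rw [this, measure_preimage_add_right]
    · rw [indicator_of_notMem hx]
      have : Prod.mk x ⁻¹' Q = ∅ := by
        ext h
        simp only [Q, mem_preimage, mem_ofPred_eq, mem_empty_iff_false, iff_false]
        exact fun h2 => hx h2.1
      rw [this, measure_empty]
  rw [← e1, Measure.prod_apply_symm hQ]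
  calc ∫⁻ h, volume ((fun x => (x, h)) ⁻¹' Q)
      ≤ ∫⁻ h, (closedBall (0 : E) ε).indicator (fun _ => ENNReal.ofReal (ε * P)) h := by
        refine lintegral_mono fun h => ?_
        by_cases hh : h ∈ closedBall (0 : E) ε
        · rw [indicator_of_mem hh]
          rw [mem_closedBall, dist_zero_right] at hh
          have h2 : (fun x => (x, h)) ⁻¹' Q ⊆ {x | x ∈ A ∧ x + h ∈ Ω \ A} := by
            rintro x ⟨hx1, -, hx3⟩
            refine ⟨hx1.1, hKb x hx1.2 ?_, hx3⟩
            rw [mem_closedBall, dist_eq_norm, add_sub_cancel_left]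
            exact hh
          refine (measure_mono h2).trans ((h1 Ω A P h hΩ hc hb hA hAΩ hP hPLE).trans ?_)
          apply ENNReal.ofReal_le_ofReal
          gcongr
        · rw [indicator_of_notMem hh]
          have : (fun x => (x, h)) ⁻¹' Q = ∅ := by
            ext x
            simp only [Q, mem_preimage, mem_ofPred_eq, mem_empty_iff_false, iff_false]
            exact fun h2 => hh h2.2.1
          rw [this, measure_empty]
    _ = _ := by
        rw [lintegral_indicator measurableSet_closedBall, setLIntegral_const, mul_comm]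

/-- The density of `A` in the ball of radius `ε` about `x`. -/
noncomputable def dav (A : Set E) (ε : ℝ) (x : E) : ℝ :=
  volume.real (A ∩ closedBall x ε) / volume.real (closedBall (0 : E) ε)

lemma vol_cb_pos {ε : ℝ} (hε : 0 < ε) : 0 < volume.real (closedBall (0 : E) ε) := by
  have : ProperSpace E := FiniteDimensional.proper ℝ E
  exact ENNReal.toReal_pos (measure_closedBall_pos volume 0 hε).ne' measure_closedBall_lt_top.ne

lemma vol_cb (x : E) (ε : ℝ) :
    volume (closedBall x ε) = volume (closedBall (0 : E) ε) :=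
  Measure.addHaar_closedBall_center volume x ε

lemma dav_nonneg (A : Set E) (ε : ℝ) (x : E) : 0 ≤ dav A ε x := by
  unfold dav; positivity

lemma dav_le_one (A : Set E) {ε : ℝ} (hε : 0 < ε) (x : E) : dav A ε x ≤ 1 := by
  have : ProperSpace E := FiniteDimensional.proper ℝ E
  unfold dav
  rw [div_le_one (vol_cb_pos hε)]
  have : volume.real (closedBall x ε) = volume.real (closedBall (0 : E) ε) := by
    unfold Measure.real; rw [vol_cb]
  rw [← this]
  exact measureReal_mono inter_subset_right measure_closedBall_lt_top.ne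

lemma measurable_dav {A : Set E} (hA : MeasurableSet A) (ε : ℝ) : Measurable (dav A ε) := by
  have : ProperSpace E := FiniteDimensional.proper ℝ E
  have : SecondCountableTopology E := secondCountable_of_proper
  have hQ : MeasurableSet {p : E × E | p.2 ∈ A ∧ dist p.2 p.1 ≤ ε} :=
    (measurable_snd hA).inter
      (measurableSet_le (measurable_snd.dist measurable_fst) measurable_const)
  have h1 := measurable_measure_prodMk_left (ν := (volume : Measure E)) hQ
  have h2 : Measurable fun x : E => volume (A ∩ closedBall x ε) := h1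
  exact h2.ennreal_toReal.div_const _

lemma ball_est_real (h1 : S_T1 E) {Ω A K : Set E} {P ε : ℝ} (hΩ : IsOpen Ω) (hc : Convex ℝ Ω)
    (hb : Bornology.IsBounded Ω) (hA : MeasurableSet A) (hAΩ : A ⊆ Ω) (hP : 0 ≤ P)
    (hPLE : PLE Ω A P) (hK : MeasurableSet K) (hKb : ∀ x ∈ K, closedBall x ε ⊆ Ω)
    (hε : 0 < ε) : ∫ x in A ∩ K, (1 - dav A ε x) ≤ ε * P := by
  have : ProperSpace E := FiniteDimensional.proper ℝ E
  have : SecondCountableTopology E := secondCountable_of_proper
  have hV := vol_cb_pos (E := E) hε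
  have h1 := ball_est h1 hΩ hc hb hA hAΩ hP hPLE hK hKb
  have hfin : ∀ x : E, volume (closedBall x ε \ A) ≠ ⊤ := fun x =>
    ((measure_mono sdiff_subset).trans_lt measure_closedBall_lt_top).ne
  have e1 : ∀ x : E, 1 - dav A ε x = (volume (closedBall x ε \ A)).toReal /
      volume.real (closedBall (0 : E) ε) := by
    intro x
    have h2 : volume.real (closedBall (0 : E) ε) = volume.real (closedBall x ε) := by
      unfold Measure.real; rw [vol_cb x]
    have h3 : volume.real (closedBall x ε) = volume.real (A ∩ closedBall x ε) +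
        volume.real (closedBall x ε \ A) := by
      rw [inter_comm]
      exact (measureReal_inter_add_sdiff hA measure_closedBall_lt_top.ne).symm
    unfold dav
    change 1 - _ = volume.real (closedBall x ε \ A) / _
    rw [eq_div_iff hV.ne', sub_mul, one_mul, div_mul_cancel₀ _ hV.ne']
    linarith
  have hmeas : Measurable fun x : E => volume (closedBall x ε \ A) := by
    have hQ : MeasurableSet {p : E × E | dist p.2 p.1 ≤ ε ∧ p.2 ∉ A} :=
      (measurableSet_le (measurable_snd.dist measurable_fst) measurable_const).inter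
        (measurable_snd hA).compl
    exact measurable_measure_prodMk_left (ν := (volume : Measure E)) hQ
  simp_rw [e1]
  rw [integral_div, integral_toReal hmeas.aemeasurable
    (Eventually.of_forall fun x => (hfin x).lt_top), div_le_iff₀ hV]
  have h4 := ENNReal.toReal_mono (by
    exact ENNReal.mul_ne_top measure_closedBall_lt_top.ne ENNReal.ofReal_ne_top) h1
  rw [ENNReal.toReal_mul, ENNReal.toReal_ofReal (by positivity)] at h4
  calc _ ≤ _ := h4
    _ = _ := by unfold Measure.real; ring

lemma strong_aux (h1 : S_T1 E) {Ω K : Set E} {P ε : ℝ} (hΩ : IsOpen Ω) (hc : Convex ℝ Ω)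
    (hb : Bornology.IsBounded Ω) {A : ℕ → Set E} (hA : ∀ k, MeasurableSet (A k))
    (hAΩ : ∀ k, A k ⊆ Ω) (hP : 0 ≤ P) (hPLE : ∀ k, PLE Ω (A k) P) (hK : MeasurableSet K)
    (hKb : ∀ x ∈ K, closedBall x ε ⊆ Ω) (hKfin : volume K ≠ ⊤) {f : E → ℝ}
    (hlim : ∀ h : E → ℝ, BM h →
        Tendsto (fun k => ∫ x in A k, h x) atTop (𝓝 (∫ x, h x * f x)))
    (hε : 0 < ε) :
    ∫ x in K, f x * (1 - ⨍ y in closedBall x ε, f y) ≤ ε * P := by
  have : ProperSpace E := FiniteDimensional.proper ℝ E
  have : SecondCountableTopology E := secondCountable_of_proper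
  have hV := vol_cb_pos (E := E) hε
  set D : E → ℝ := fun x => ⨍ y in closedBall x ε, f y with hD
  have hpt : ∀ x, Tendsto (fun k => dav (A k) ε x) atTop (𝓝 (D x)) := by
    intro x
    have h1 := hlim _ (BM.ind (S := closedBall x ε) measurableSet_closedBall)
    have e1 : ∀ k, ∫ y in A k, (closedBall x ε).indicator (fun _ => (1 : ℝ)) y =
        volume.real (A k ∩ closedBall x ε) := by
      intro k
      rw [setIntegral_indicator measurableSet_closedBall]; simp
    have e2 : ∫ y, (closedBall x ε).indicator (fun _ => (1 : ℝ)) y * f y =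
        ∫ y in closedBall x ε, f y := by
      rw [← integral_indicator measurableSet_closedBall]
      congr 1; ext y
      by_cases hy : y ∈ closedBall x ε
      · rw [indicator_of_mem hy, indicator_of_mem hy, one_mul]
      · rw [indicator_of_notMem hy, indicator_of_notMem hy, zero_mul]
    simp only [e1, e2] at h1
    have h2 := h1.div_const (volume.real (closedBall (0 : E) ε))
    have e3 : D x = (∫ y in closedBall x ε, f y) / volume.real (closedBall (0 : E) ε) := by
      simp only [hD]
      rw [setAverage_eq]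
      have : volume.real (closedBall x ε) = volume.real (closedBall (0 : E) ε) := by
        unfold Measure.real; rw [vol_cb]
      rw [this, smul_eq_mul, div_eq_inv_mul]
    rw [e3]
    exact h2
  have hDm : Measurable D :=
    measurable_of_tendsto_metrizable (fun k => measurable_dav (hA k) ε) (tendsto_pi_nhds.2 hpt)
  have hD01 : ∀ x, 0 ≤ D x ∧ D x ≤ 1 := fun x =>
    ⟨ge_of_tendsto' (hpt x) fun k => dav_nonneg _ _ _,
      le_of_tendsto' (hpt x) fun k => dav_le_one _ hε _⟩
  have hint : ∀ {u : E → ℝ}, Measurable u → (∀ x, |u x| ≤ 1) →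
      ∀ S : Set E, S ⊆ K → IntegrableOn u S := by
    intro u hu hu1 S hS
    refine Measure.integrableOn_of_bounded (M := 1) (ne_top_of_le_ne_top hKfin (measure_mono hS))
      hu.aestronglyMeasurable (Eventually.of_forall fun x => by rw [Real.norm_eq_abs]; exact hu1 x)
  have hBM : BM (K.indicator fun x => 1 - D x) :=
    ⟨(measurable_const.sub hDm).indicator hK, 1, fun x => by
      by_cases hx : x ∈ K
      · rw [indicator_of_mem hx, abs_le]; constructor <;> linarith [(hD01 x).1, (hD01 x).2]
      · rw [indicator_of_notMem hx]; simp⟩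
  have hl := hlim _ hBM
  have e1 : ∀ k, ∫ x in A k, K.indicator (fun x => 1 - D x) x =
      ∫ x in A k ∩ K, (1 - D x) := fun k => setIntegral_indicator hK
  have e2 : ∫ x, K.indicator (fun x => 1 - D x) x * f x =
      ∫ x in K, f x * (1 - D x) := by
    rw [← integral_indicator hK]
    congr 1; ext x
    by_cases hx : x ∈ K
    · rw [indicator_of_mem hx, indicator_of_mem hx, mul_comm]
    · rw [indicator_of_notMem hx, indicator_of_notMem hx, zero_mul]
  simp only [e1, e2] at hl
  have hbb : Tendsto (fun k => ∫ x in K, |dav (A k) ε x - D x|) atTop (𝓝 0) := by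
    have : Tendsto (fun k => ∫ x in K, |dav (A k) ε x - D x|) atTop
        (𝓝 (∫ x in K, (0 : ℝ))) := by
      refine tendsto_integral_of_dominated_convergence (fun _ => (1 : ℝ)) ?_ ?_ ?_ ?_
      · intro k
        have : Measurable fun x => |dav (A k) ε x - D x| :=
          ((measurable_dav (hA k) ε).sub hDm).abs
        exact this.aestronglyMeasurable
      · exact hint measurable_const (by simp) _ Subset.rfl
      · intro k
        refine Eventually.of_forall fun x => ?_
        rw [Real.norm_eq_abs, abs_abs, abs_le]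
        have h1 := dav_nonneg (A k) ε x
        have h2 := dav_le_one (A k) hε x
        constructor <;> linarith [(hD01 x).1, (hD01 x).2]
      · refine Eventually.of_forall fun x => ?_
        have := ((hpt x).sub_const (D x)).abs
        simpa using this
    simpa using this
  have hbound : ∀ k, ∫ x in A k ∩ K, (1 - D x) ≤ ε * P +
      ∫ x in K, |dav (A k) ε x - D x| := by
    intro k
    have i1 : IntegrableOn (fun x => 1 - dav (A k) ε x) (A k ∩ K) :=
      hint (u := fun x => 1 - dav (A k) ε x) (measurable_const.sub (measurable_dav (hA k) ε))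
        (fun x => by
        have h1 := dav_nonneg (A k) ε x
        have h2 := dav_le_one (A k) hε x
        rw [abs_le]; constructor <;> linarith) _ inter_subset_right
    have habs : ∀ x, |dav (A k) ε x - D x| ≤ 1 := fun x => by
      have h1 := dav_nonneg (A k) ε x
      have h2 := dav_le_one (A k) hε x
      rw [abs_le]; constructor <;> linarith [(hD01 x).1, (hD01 x).2]
    have m2 : Measurable fun x => |dav (A k) ε x - D x| :=
      ((measurable_dav (hA k) ε).sub hDm).abs
    have i2 : ∀ S : Set E, S ⊆ K → IntegrableOn (fun x => |dav (A k) ε x - D x|) S :=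
      fun S hS => hint m2 (fun x => by rw [abs_abs]; exact habs x) S hS
    calc ∫ x in A k ∩ K, (1 - D x)
        ≤ ∫ x in A k ∩ K, ((1 - dav (A k) ε x) + |dav (A k) ε x - D x|) := by
          refine integral_mono ?_ (i1.add (i2 _ inter_subset_right)) fun x => ?_
          · exact hint (u := fun x => 1 - D x) (measurable_const.sub hDm) (fun x => by
              rw [abs_le]; constructor <;> linarith [(hD01 x).1, (hD01 x).2]) _ inter_subset_right
          · have := le_abs_self (dav (A k) ε x - D x)
            simp only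
            linarith
      _ = (∫ x in A k ∩ K, (1 - dav (A k) ε x)) +
            ∫ x in A k ∩ K, |dav (A k) ε x - D x| :=
          integral_add i1 (i2 _ inter_subset_right)
      _ ≤ ε * P + ∫ x in K, |dav (A k) ε x - D x| := by
          refine add_le_add (ball_est_real h1 hΩ hc hb (hA k) (hAΩ k) hP (hPLE k) hK hKb hε) ?_
          exact setIntegral_mono_set (i2 _ Subset.rfl) (Eventually.of_forall fun x => abs_nonneg _)
              (LE.le.eventuallyLE inter_subset_right)
  have hr : Tendsto (fun k => ε * P +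
      ∫ x in K, |dav (A k) ε x - D x|) atTop (𝓝 (ε * P + 0)) :=
    tendsto_const_nhds.add hbb
  rw [add_zero] at hr
  exact le_of_tendsto_of_tendsto' hl hr hbound

lemma measurable_avg {f : E → ℝ} (hf : Measurable f) {ε : ℝ} :
    Measurable fun x : E => ⨍ y in closedBall x ε, f y := by
  have : ProperSpace E := FiniteDimensional.proper ℝ E
  have : SecondCountableTopology E := secondCountable_of_proper
  have e : (fun x : E => ⨍ y in closedBall x ε, f y) = fun x =>
      (volume.real (closedBall (0 : E) ε))⁻¹ *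
        ∫ y, ({p : E × E | dist p.2 p.1 ≤ ε}.indicator (fun p => f p.2)) (x, y) := by
    ext x
    have : volume.real (closedBall x ε) = volume.real (closedBall (0 : E) ε) := by
      unfold Measure.real; rw [vol_cb]
    rw [setAverage_eq, this, smul_eq_mul, ← integral_indicator measurableSet_closedBall]
    rfl
  rw [e]
  have hQ : MeasurableSet {p : E × E | dist p.2 p.1 ≤ ε} :=
    measurableSet_le (measurable_snd.dist measurable_fst) measurable_const
  have h1 : StronglyMeasurable
      ({p : E × E | dist p.2 p.1 ≤ ε}.indicator (fun p => f p.2)) :=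
    ((hf.comp measurable_snd).indicator hQ).stronglyMeasurable
  exact (StronglyMeasurable.integral_prod_right' (ν := (volume : Measure E))
    h1).measurable.const_mul _

lemma avg01 {f : E → ℝ} (hf : Measurable f) (hf01 : ∀ x, 0 ≤ f x ∧ f x ≤ 1) {ε : ℝ}
    (hε : 0 < ε) (x : E) :
    0 ≤ (⨍ y in closedBall x ε, f y) ∧ (⨍ y in closedBall x ε, f y) ≤ 1 := by
  have : ProperSpace E := FiniteDimensional.proper ℝ E
  have hV := vol_cb_pos (E := E) hε
  have : volume.real (closedBall x ε) = volume.real (closedBall (0 : E) ε) := by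
    unfold Measure.real; rw [vol_cb]
  rw [setAverage_eq, this, smul_eq_mul]
  have h0 : 0 ≤ ∫ y in closedBall x ε, f y := integral_nonneg fun y => (hf01 y).1
  have h1 : ∫ y in closedBall x ε, f y ≤ volume.real (closedBall (0 : E) ε) := by
    rw [← this]
    have h2 : ∫ y in closedBall x ε, f y ≤ ∫ y in closedBall x ε, (1 : ℝ) := by
      refine integral_mono ?_ ?_ fun y => (hf01 y).2
      · exact Measure.integrableOn_of_bounded (M := 1) measure_closedBall_lt_top.ne
          hf.aestronglyMeasurable (Eventually.of_forall fun y => by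
            rw [Real.norm_eq_abs, abs_le]; constructor <;> linarith [(hf01 y).1, (hf01 y).2])
      · exact integrableOn_const measure_closedBall_lt_top.ne
    simpa using h2
  refine ⟨by positivity, ?_⟩
  rw [inv_mul_le_one₀ hV]
  exact h1

/-- The weak limit density takes only the values `0` and `1`. -/
lemma strong (h1 : S_T1 E) {Ω : Set E} {P : ℝ} (hΩ : IsOpen Ω) (hc : Convex ℝ Ω)
    (hb : Bornology.IsBounded Ω) {A : ℕ → Set E} (hA : ∀ k, MeasurableSet (A k))
    (hAΩ : ∀ k, A k ⊆ Ω) (hP : 0 ≤ P) (hPLE : ∀ k, PLE Ω (A k) P) {f : E → ℝ}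
    (hf : Measurable f) (hf01 : ∀ x, 0 ≤ f x ∧ f x ≤ 1) (hf0 : ∀ x ∉ Ω, f x = 0)
    (hlim : ∀ h : E → ℝ, BM h →
        Tendsto (fun k => ∫ x in A k, h x) atTop (𝓝 (∫ x, h x * f x))) :
    ∀ᵐ x : E, f x * (1 - f x) = 0 := by
  have : ProperSpace E := FiniteDimensional.proper ℝ E
  have : SecondCountableTopology E := secondCountable_of_proper
  have hΩfin : volume Ω ≠ ⊤ := hb.measure_lt_top.ne
  have hfloc : LocallyIntegrable f (volume : Measure E) := by
    intro x
    refine ⟨ball x 1, ball_mem_nhds x one_pos, ?_⟩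
    exact Measure.integrableOn_of_bounded (M := 1) measure_ball_lt_top.ne hf.aestronglyMeasurable
      (Eventually.of_forall fun y => by
        rw [Real.norm_eq_abs, abs_le]; constructor <;> linarith [(hf01 y).1, (hf01 y).2])
  have hld : ∀ᵐ x : E, Tendsto (fun j : ℕ => ⨍ y in closedBall x (1 / ((j : ℝ) + 1)), f y) atTop
      (𝓝 (f x)) := by
    filter_upwards [IsUnifLocDoublingMeasure.ae_tendsto_average (volume : Measure E) hfloc 1]
      with x hx
    refine hx (fun _ => x) (fun j : ℕ => 1 / ((j : ℝ) + 1)) ?_ ?_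
    · rw [tendsto_nhdsWithin_iff]
      exact ⟨tendsto_one_div_add_atTop_nhds_zero_nat, Eventually.of_forall fun j => by
        simp only [mem_Ioi]; positivity⟩
    · exact Eventually.of_forall fun j => by
        simp only [one_mul]
        exact mem_closedBall_self (by positivity)
  set Kn : ℕ → Set E := fun n => {x | x ∈ Ω ∧ ENNReal.ofReal (1 / ((n : ℝ) + 1)) < infEDist x Ωᶜ}
    with hKn
  have key : ∀ n : ℕ, ∀ᵐ x : E, x ∈ Kn n → f x * (1 - f x) = 0 := by
    intro n
    have hKm : MeasurableSet (Kn n) :=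
      hΩ.measurableSet.inter (measurableSet_lt measurable_const measurable_infEDist)
    have hKfin : volume (Kn n) ≠ ⊤ := ne_top_of_le_ne_top hΩfin (measure_mono fun x hx => hx.1)
    have hKb : ∀ ε : ℝ, ε ≤ 1 / ((n : ℝ) + 1) → ∀ x ∈ Kn n, closedBall x ε ⊆ Ω := by
      intro ε hε x hx y hy
      by_contra hcon
      have h2 : infEDist x Ωᶜ ≤ edist x y := infEDist_le_edist_of_mem hcon
      have h3 : edist x y ≤ ENNReal.ofReal (1 / ((n : ℝ) + 1)) := by
        rw [edist_dist]
        apply ENNReal.ofReal_le_ofReal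
        rw [dist_comm]
        exact (mem_closedBall.1 hy).trans hε
      exact absurd (hx.2.trans_le (h2.trans h3)) (lt_irrefl _)
    have hint : ∀ {u : E → ℝ}, Measurable u → (∀ x, |u x| ≤ 1) →
        IntegrableOn u (Kn n) := by
      intro u hu hu1
      refine Measure.integrableOn_of_bounded (M := 1) hKfin
        hu.aestronglyMeasurable (Eventually.of_forall fun x => by
          rw [Real.norm_eq_abs]; exact hu1 x)
    have h2 : Tendsto (fun j : ℕ => ∫ x in Kn n,
        f x * (1 - ⨍ y in closedBall x (1 / ((j : ℝ) + 1)), f y)) atTop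
        (𝓝 (∫ x in Kn n, f x * (1 - f x))) := by
      refine tendsto_integral_of_dominated_convergence (fun _ => (1 : ℝ)) ?_ ?_ ?_ ?_
      · intro j
        exact (hf.mul (measurable_const.sub (measurable_avg hf))).aestronglyMeasurable
      · exact hint measurable_const (by simp)
      · intro j
        refine Eventually.of_forall fun x => ?_
        have ha := avg01 hf hf01 (ε := 1 / ((j : ℝ) + 1)) (by positivity) x
        have hx := hf01 x
        rw [Real.norm_eq_abs, abs_le]
        constructor <;> nlinarith [ha.1, ha.2, hx.1, hx.2]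
      · filter_upwards [ae_restrict_of_ae hld] with x hx
        exact (tendsto_const_nhds.sub hx).const_mul _
    have h3 : ∫ x in Kn n, f x * (1 - f x) ≤ 0 := by
      have h4 : Tendsto (fun j : ℕ => 1 / ((j : ℝ) + 1) * P) atTop (𝓝 (0 * P)) :=
        tendsto_one_div_add_atTop_nhds_zero_nat.mul_const _
      rw [zero_mul] at h4
      refine le_of_tendsto_of_tendsto h2 h4 ?_
      filter_upwards [eventually_ge_atTop n] with j hj
      refine strong_aux h1 hΩ hc hb hA hAΩ hP hPLE hKm (hKb _ ?_) hKfin hlim (by positivity)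
      have : (n : ℝ) ≤ j := by exact_mod_cast hj
      gcongr
    have h4 : 0 ≤ᵐ[volume.restrict (Kn n)] fun x => f x * (1 - f x) :=
      Eventually.of_forall fun x => by
        have := hf01 x
        exact mul_nonneg this.1 (by linarith [this.2])
    have h5 : IntegrableOn (fun x => f x * (1 - f x)) (Kn n) :=
      hint (u := fun x => f x * (1 - f x)) (hf.mul (measurable_const.sub hf)) fun x => by
        have := hf01 x
        rw [abs_le]; constructor <;> nlinarith [this.1, this.2]
    have h6 : ∫ x in Kn n, f x * (1 - f x) = 0 :=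
      le_antisymm h3 (integral_nonneg_of_ae h4)
    rw [integral_eq_zero_iff_of_nonneg_ae h4 h5, EventuallyEq,
      ae_restrict_iff' hKm] at h6
    exact h6
  have key2 : ∀ᵐ x : E, ∀ n : ℕ, x ∈ Kn n → f x * (1 - f x) = 0 :=
    ae_all_iff.2 fun n => key n
  filter_upwards [key2] with x hx
  by_cases hxΩ : x ∈ Ω
  · have hpos : 0 < infEDist x Ωᶜ := by
      rw [pos_iff_ne_zero]
      intro h0
      have := (mem_iff_infEDist_zero_of_closed hΩ.isClosed_compl).2 h0
      exact this hxΩ
    obtain ⟨n, hn⟩ : ∃ n : ℕ, ENNReal.ofReal (1 / ((n : ℝ) + 1)) < infEDist x Ωᶜ := by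
      have ht : Tendsto (fun n : ℕ => ENNReal.ofReal (1 / ((n : ℝ) + 1))) atTop (𝓝 0) := by
        have := ENNReal.tendsto_ofReal tendsto_one_div_add_atTop_nhds_zero_nat
        rwa [ENNReal.ofReal_zero] at this
      exact (ht.eventually (gt_mem_nhds hpos)).exists
    exact hx n ⟨hxΩ, hn⟩
  · rw [hf0 x hxΩ, zero_mul]

lemma BM.dv {φ : E → E} (h1 : ContDiff ℝ 1 φ) (h2 : HasCompactSupport φ) :
    BM (Pool.Agent.TH703.Cone.dv φ) := by
  let L : (E →L[ℝ] E) →ₗ[ℝ] ℝ := (LinearMap.trace ℝ E) ∘ₗ ContinuousLinearMap.coeLM ℝ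
  have hL : Continuous L := L.continuous_of_finiteDimensional
  have hd : Pool.Agent.TH703.Cone.dv φ = fun x => L (fderiv ℝ φ x) := rfl
  have hc : Continuous (Pool.Agent.TH703.Cone.dv φ) := by
    rw [hd]
    exact hL.comp (h1.continuous_fderiv one_ne_zero)
  have hs : HasCompactSupport (Pool.Agent.TH703.Cone.dv φ) := by
    rw [hd]
    exact (h2.fderiv (𝕜 := ℝ)).comp_left (g := L) (map_zero L)
  obtain ⟨C, hC⟩ := hc.bounded_above_of_compact_support hs
  exact ⟨hc.measurable, C, fun x => by rw [← Real.norm_eq_abs]; exact hC x⟩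

end Exist

open MeasureTheory Set Filter Topology Metric in
theorem exist (E : Type*) [NormedAddCommGroup E] [InnerProductSpace ℝ E] [FiniteDimensional ℝ E]
    [MeasurableSpace E] [BorelSpace E] (h1 : S_T1 E) : S_T2 E := by
  intro Ω A₀ P₀ hΩ hc h0 hb hA₀ hA₀Ω hP₀
  have : ProperSpace E := FiniteDimensional.proper ℝ E
  have : SecondCountableTopology E := secondCountable_of_proper
  have hΩfin : volume Ω ≠ ⊤ := hb.measure_lt_top.ne
  set S : Set ℝ := {Q | ∃ F : Set E, MeasurableSet F ∧ F ⊆ Ω ∧ volume F = volume A₀ ∧ PLE Ω F Q}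
    with hS
  have hS0 : ∀ Q ∈ S, 0 ≤ Q := by
    rintro Q ⟨F, -, -, -, hF⟩
    have ht : Tst Ω (fun _ : E => (0 : E)) := by
      refine ⟨contDiff_const, HasCompactSupport.zero, ?_, fun x => by simp⟩
      have : tsupport (fun _ : E => (0 : E)) = ∅ := by
        rw [tsupport_eq_empty_iff]; rfl
      rw [this]
      exact empty_subset _
    have h2 := hF _ ht
    have h3 : ∀ x : E, dv (fun _ : E => (0 : E)) x = 0 := by
      intro x
      unfold dv
      simp
    simp only [h3, integral_zero] at h2
    exact h2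
  have hSne : S.Nonempty := ⟨P₀, A₀, hA₀, hA₀Ω, rfl, hP₀⟩
  have hSb : BddBelow S := ⟨0, hS0⟩
  set I : ℝ := sInf S with hI
  have hI0 : 0 ≤ I := le_csInf hSne hS0
  have hseq : ∀ k : ℕ, ∃ F : Set E, MeasurableSet F ∧ F ⊆ Ω ∧ volume F = volume A₀ ∧
      PLE Ω F (I + 1 / ((k : ℝ) + 1)) := by
    intro k
    have h2 : sInf S < I + 1 / ((k : ℝ) + 1) := by
      rw [← hI]
      have : (0 : ℝ) < 1 / ((k : ℝ) + 1) := by positivity
      linarith
    obtain ⟨Q, ⟨F, hF1, hF2, hF3, hF4⟩, hQ⟩ := exists_lt_of_csInf_lt hSne h2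
    exact ⟨F, hF1, hF2, hF3, fun φ hφ => (hF4 φ hφ).trans hQ.le⟩
  choose F hFm hFΩ hFv hFP using hseq
  obtain ⟨f, hf, hf01, hf0, φ, hφ, hlim⟩ := Exist.weak_sets hΩ.measurableSet hΩfin F hFm hFΩ
  have hPLE : ∀ k, PLE Ω (F (φ k)) (I + 1) := by
    intro k ψ hψ
    refine (hFP _ ψ hψ).trans ?_
    have : 1 / ((φ k : ℝ) + 1) ≤ 1 := by
      rw [div_le_one (by positivity)]
      have : (0 : ℝ) ≤ φ k := by positivity
      linarith
    linarith
  have hst := Exist.strong h1 hΩ hc hb (A := fun k => F (φ k)) (fun k => hFm _) (fun k => hFΩ _)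
    (by linarith) hPLE hf hf01 hf0 hlim
  set A : Set E := {x | f x = 1} with hA
  have hAm : MeasurableSet A := hf (measurableSet_singleton 1)
  have hAΩ : A ⊆ Ω := by
    intro x hx
    by_contra hcon
    have h2 := hf0 x hcon
    have h3 : f x = 1 := hx
    rw [h3] at h2
    exact one_ne_zero h2
  have hfA : ∀ᵐ x : E, ∀ c : ℝ, c * f x = A.indicator (fun _ => c) x := by
    filter_upwards [hst] with x hx c
    by_cases h : f x = 1
    · have : x ∈ A := h
      rw [indicator_of_mem this, h, mul_one]
    · have h2 : x ∉ A := h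
      rw [indicator_of_notMem h2]
      rcases mul_eq_zero.1 hx with h3 | h3
      · rw [h3, mul_zero]
      · exact absurd (by linarith) h
  have hint : ∀ h : E → ℝ, ∫ x, h x * f x = ∫ x in A, h x := by
    intro h
    rw [← integral_indicator hAm]
    refine integral_congr_ae ?_
    filter_upwards [hfA] with x hx
    rw [hx (h x)]
    by_cases hxA : x ∈ A
    · rw [indicator_of_mem hxA, indicator_of_mem hxA]
    · rw [indicator_of_notMem hxA, indicator_of_notMem hxA]
  have hA₀fin : volume A₀ ≠ ⊤ := ne_top_of_le_ne_top hΩfin (measure_mono hA₀Ω)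
  have hAfin : volume A ≠ ⊤ := ne_top_of_le_ne_top hΩfin (measure_mono hAΩ)
  refine ⟨A, I, hAm, hAΩ, ?_, ?_, ?_⟩
  · have hl := hlim (fun _ => (1 : ℝ)) ⟨measurable_const, 1, fun x => by simp⟩
    rw [hint] at hl
    have e1 : ∀ k, ∫ _x in F (φ k), (1 : ℝ) = volume.real A₀ := by
      intro k
      simp only [integral_const, smul_eq_mul, mul_one, measureReal_restrict_apply
        MeasurableSet.univ, univ_inter]
      unfold Measure.real
      rw [hFv]
    have e2 : ∫ _x in A, (1 : ℝ) = volume.real A := by
      simp only [integral_const, smul_eq_mul, mul_one, measureReal_restrict_apply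
        MeasurableSet.univ, univ_inter]
    simp only [e1, e2] at hl
    have h3 := tendsto_nhds_unique hl tendsto_const_nhds
    unfold Measure.real at h3
    rwa [ENNReal.toReal_eq_toReal_iff' hAfin hA₀fin] at h3
  · intro ψ hψ
    have hl := hlim (dv ψ) (Exist.BM.dv hψ.c1 hψ.cs)
    rw [hint] at hl
    have h2 : Tendsto (fun k : ℕ => I + 1 / ((φ k : ℝ) + 1)) atTop (𝓝 (I + 0)) :=
      tendsto_const_nhds.add
        (tendsto_one_div_add_atTop_nhds_zero_nat.comp hφ.tendsto_atTop)
    rw [add_zero] at h2
    exact le_of_tendsto_of_tendsto' hl h2 fun k => hFP _ ψ hψ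
  · intro G Q hG hGΩ hGv hGP
    exact csInf_le hSb ⟨G, hG, hGΩ, hGv, hGP⟩

end Pool.Agent.TH703.Cone
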