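import Pool.Agent.TH703.Cone.Stm

set_option autoImplicit false

/-! # T1: translation estimate for sets of finite relative perimeter in a convex body -/

namespace Pool.Agent.TH703.Cone

open MeasureTheory Set Filter Topology Metric
open scoped ENNReal ContDiff Manifold

namespace TransL

variable {E : Type*} [NormedAddCommGroup E] [InnerProductSpace ℝ E] [FiniteDimensional ℝ E]

lemma dv_smul {f : E → ℝ} {φ : E → E} {x : E} (hf : DifferentiableAt ℝ f x)
    (hφ : DifferentiableAt ℝ φ x) :
    dv (fun y => f y • φ y) x = f x * dv φ x + fderiv ℝ f x (φ x) := by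
  unfold dv
  have h1 : HasFDerivAt (fun y => f y • φ y)
      (f x • fderiv ℝ φ x + (fderiv ℝ f x).smulRight (φ x)) x :=
    hf.hasFDerivAt.smul hφ.hasFDerivAt
  rw [h1.fderiv]
  have h2 : (f x • fderiv ℝ φ x + (fderiv ℝ f x).smulRight (φ x)).toLinearMap =
      f x • (fderiv ℝ φ x).toLinearMap +
        (fderiv ℝ f x).toLinearMap.smulRight (φ x) := by
    ext; simp
  rw [h2, map_add, map_smul, LinearMap.trace_smulRight]
  simp

lemma dv_const_smul {f : E → ℝ} {h : E} {x : E} (hf : DifferentiableAt ℝ f x) :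
    dv (fun y => f y • h) x = fderiv ℝ f x h := by
  rw [dv_smul (φ := fun _ => h) hf (differentiableAt_const h)]
  simp [dv]

variable [MeasurableSpace E] [BorelSpace E]

/-- the derivative of translations of a smooth function, integrated over a set -/
lemma aux {Ω A : Set E} {P : ℝ} (h : PLE Ω A P) {v : E} {ψ : E → ℝ} (hψ : ContDiff ℝ 1 ψ)
    (hc : HasCompactSupport ψ) (h1 : ∀ x, |ψ x| ≤ 1)
    (hsub : ∀ x ∈ tsupport ψ, ∀ t ∈ Icc (0 : ℝ) 1, x + t • v ∈ Ω) :
    (∫ x in A, ψ x) - ∫ x in A, ψ (x - v) ≤ ‖v‖ * P := by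
  rcases eq_or_ne v 0 with rfl | hv0
  · simp
  have hvn : 0 < ‖v‖ := norm_pos_iff.2 hv0
  obtain ⟨C, hC⟩ : ∃ C, ∀ x, ‖fderiv ℝ ψ x‖ ≤ C :=
    (hc.fderiv ℝ).exists_bound_of_continuous (hψ.continuous_fderiv (by norm_num))
  have hC0 : 0 ≤ C := (norm_nonneg _).trans (hC 0)
  obtain ⟨R, hR⟩ : ∃ R : ℝ, tsupport ψ ⊆ closedBall 0 R := hc.isBounded.subset_closedBall 0
  have hfd0 : ∀ x, R < ‖x‖ → fderiv ℝ ψ x = 0 := by
    intro x hx
    by_contra hne
    have h2 : x ∈ tsupport ψ := support_fderiv_subset ℝ (f := ψ) hne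
    have h3 := hR h2
    rw [mem_closedBall_zero_iff] at h3
    linarith
  -- derivative of the function of `t`
  have hder : ∀ t : ℝ, HasDerivAt (fun t : ℝ => ∫ x in A, ψ (x - t • v))
      (∫ x in A, -(fderiv ℝ ψ (x - t • v) v)) t := by
    intro t
    refine (hasDerivAt_integral_of_dominated_loc_of_deriv_le (μ := volume.restrict A)
      (F := fun t x => ψ (x - t • v)) (F' := fun t x => -(fderiv ℝ ψ (x - t • v) v))
      (bound := fun x => (closedBall (0 : E) (R + (|t| + 1) * ‖v‖)).indicator
        (fun _ => C * ‖v‖) x)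
      (s := ball t 1) (ball_mem_nhds t one_pos) ?_ ?_ ?_ ?_ ?_ ?_).2
    · exact Eventually.of_forall fun s =>
        (hψ.continuous.comp (by fun_prop)).aestronglyMeasurable
    · have h1 : Continuous (fun x : E => ψ (x - t • v)) := hψ.continuous.comp (by fun_prop)
      have h2 : HasCompactSupport (fun x : E => ψ (x - t • v)) := by
        have := hc.comp_homeomorph (Homeomorph.subRight (t • v))
        exact this
      exact (h1.integrable_of_hasCompactSupport h2).integrableOn
    · have h1 : Continuous (fun x : E => fderiv ℝ ψ (x - t • v) v) :=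
        ((hψ.continuous_fderiv (by norm_num)).comp (by fun_prop)).clm_apply continuous_const
      exact h1.neg.aestronglyMeasurable
    · refine Eventually.of_forall fun x s hs => ?_
      rw [norm_neg]
      by_cases hx : x ∈ closedBall (0 : E) (R + (|t| + 1) * ‖v‖)
      · rw [indicator_of_mem hx]
        calc ‖fderiv ℝ ψ (x - s • v) v‖ ≤ ‖fderiv ℝ ψ (x - s • v)‖ * ‖v‖ :=
              ContinuousLinearMap.le_opNorm _ _
          _ ≤ C * ‖v‖ := by gcongr; exact hC _
      · rw [indicator_of_notMem hx]
        rw [mem_closedBall, dist_zero_right, not_le] at hx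
        have h3 : ‖s • v‖ ≤ (|t| + 1) * ‖v‖ := by
          rw [norm_smul, Real.norm_eq_abs]
          have h4 : |s| ≤ |t| + 1 := by
            rw [mem_ball, Real.dist_eq] at hs
            have := abs_sub_abs_le_abs_sub s t
            linarith
          gcongr
        have h5 : R < ‖x - s • v‖ := by
          have := norm_sub_norm_le x (s • v)
          linarith
        rw [hfd0 _ h5]; simp
    · rw [integrable_indicator_iff measurableSet_closedBall]
      refine integrableOn_const ?_ ?_
      · exact ((Measure.restrict_apply_le _ _).trans_lt measure_closedBall_lt_top).ne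
      · exact enorm_ne_top
    · refine Eventually.of_forall fun x s _ => ?_
      have h1 : HasDerivAt (fun s : ℝ => x - s • v) (-v) s := by
        simpa using ((hasDerivAt_id s).smul_const v).const_sub x
      have h2 := ((hψ.differentiable (by norm_num)) (x - s • v)).hasFDerivAt.comp_hasDerivAt s h1
      rw [map_neg] at h2
      exact h2
  -- mean value theorem
  obtain ⟨t, ht, hslope⟩ := exists_hasDerivAt_eq_slope
    (fun t : ℝ => ∫ x in A, ψ (x - t • v)) (fun t => ∫ x in A, -(fderiv ℝ ψ (x - t • v) v))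
    (zero_lt_one (α := ℝ))
    (fun t _ => (hder t).continuousAt.continuousWithinAt) (fun t _ => hder t)
  simp only [zero_smul, sub_zero, one_smul, div_one] at hslope
  have hmain : ∫ x in A, fderiv ℝ ψ (x - t • v) v ≤ ‖v‖ * P := by
    let κ : ℝ := ‖v‖⁻¹
    have hκ : 0 < κ := inv_pos.2 hvn
    let f : E → ℝ := fun x => κ * ψ (x - t • v)
    have hf : ContDiff ℝ 1 f := contDiff_const.mul (hψ.comp (contDiff_id.sub contDiff_const))
    have hcf : HasCompactSupport (fun x : E => ψ (x - t • v)) :=
      hc.comp_homeomorph (Homeomorph.subRight (t • v))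
    have hT : Tst Ω (fun x => f x • v) := by
      refine ⟨hf.smul contDiff_const, ?_, ?_, ?_⟩
      · exact (hcf.mul_left (f := fun _ => κ)).smul_right (f' := fun _ => v)
      · have e1 : tsupport (fun x => f x • v) ⊆ (fun x => x - t • v) ⁻¹' tsupport ψ := by
          refine closure_minimal ?_ ((isClosed_tsupport ψ).preimage (by fun_prop))
          intro x hx
          apply subset_tsupport
          rw [Function.mem_support] at hx ⊢
          intro h0
          apply hx
          simp only [f, h0, mul_zero, zero_smul]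
        intro x hx
        have h2 := hsub _ (e1 hx) t ⟨ht.1.le, ht.2.le⟩
        simpa using h2
      · intro x
        rw [norm_smul]
        simp only [f, norm_mul, Real.norm_of_nonneg hκ.le]
        calc κ * ‖ψ (x - t • v)‖ * ‖v‖ ≤ κ * 1 * ‖v‖ := by gcongr; exact h1 _
          _ = 1 := by simp only [κ]; field_simp
    have hdiv : ∀ x, dv (fun x => f x • v) x = κ * fderiv ℝ ψ (x - t • v) v := by
      intro x
      rw [dv_const_smul ((hf.differentiable (by norm_num)) x)]
      have h7 : HasFDerivAt f (κ • fderiv ℝ ψ (x - t • v)) x := by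
        have h8 : HasFDerivAt (fun x : E => x - t • v) (ContinuousLinearMap.id ℝ E) x :=
          (hasFDerivAt_id x).sub_const _
        have h9 := ((hψ.differentiable (by norm_num)) (x - t • v)).hasFDerivAt.comp x h8
        rw [ContinuousLinearMap.comp_id] at h9
        exact h9.const_mul κ
      rw [h7.fderiv]
      simp
    have h6 := h _ hT
    simp_rw [hdiv] at h6
    rw [integral_const_mul] at h6
    simp only [κ] at h6
    rw [inv_mul_le_iff₀ hvn] at h6
    exact h6
  rw [integral_neg] at hslope
  linarith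

end TransL

open TransL in
theorem t1 (E : Type*) [NormedAddCommGroup E] [InnerProductSpace ℝ E] [FiniteDimensional ℝ E]
    [MeasurableSpace E] [BorelSpace E] : S_T1 E := by
  intro Ω A P v hΩo hΩc hΩb hA hAΩ hP h
  have hΩfin : volume Ω ≠ ⊤ := hΩb.measure_lt_top.ne
  set T : Set E := {x | x ∈ A ∧ x + v ∈ Ω \ A} with hT
  have hTm : MeasurableSet T :=
    hA.inter ((measurable_id.add_const v) (hΩo.measurableSet.diff hA))
  have hTfin : volume T ≠ ⊤ :=
    ne_top_of_le_ne_top hΩfin (measure_mono fun x hx => hAΩ hx.1)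
  have hshift : ∀ S : Set E, volume {x : E | x - v ∈ S} = volume S := by
    intro S
    have : {x : E | x - v ∈ S} = (fun x => x + (-v)) ⁻¹' S := by
      ext x; simp [sub_eq_add_neg]
    rw [this, measure_preimage_add_right]
  refine ENNReal.le_of_forall_pos_le_add fun δ hδ _ => ?_
  have hδ' : (ENNReal.ofReal (δ / 2)) ≠ 0 := by
    have : (0 : ℝ) < δ / 2 := by positivity
    simpa using this
  obtain ⟨K, hKT, hKc, hK⟩ := hTm.exists_isCompact_sdiff_lt hTfin hδ'
  have hKfin : volume K ≠ ⊤ := hKc.measure_lt_top.ne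
  obtain ⟨U₀, hKU₀, hU₀o, -, hU₀⟩ := hKc.measurableSet.exists_isOpen_sdiff_lt hKfin hδ'
  -- the compact set `K + [0, 1] v`
  set K' : Set E := (fun p : E × ℝ => p.1 + p.2 • v) '' (K ×ˢ Icc (0 : ℝ) 1) with hK'
  have hK'c : IsCompact K' := (hKc.prod isCompact_Icc).image (by fun_prop)
  have hK'Ω : K' ⊆ Ω := by
    rintro _ ⟨⟨x, t⟩, ⟨hx, ht⟩, rfl⟩
    have h1 := hKT hx
    have h2 := hΩc (hAΩ h1.1) h1.2.1 (sub_nonneg.2 ht.2) ht.1 (by ring)
    simp only at h2 ⊢
    convert h2 using 1
    module
  obtain ⟨κ, hκ, hκΩ⟩ := hK'c.exists_cthickening_subset_open hΩo hK'Ω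
  set U : Set E := U₀ ∩ thickening κ K with hU
  have hUo : IsOpen U := hU₀o.inter isOpen_thickening
  have hKU : K ⊆ U := subset_inter hKU₀ (self_subset_thickening hκ K)
  have hUd : volume (U \ K) < ENNReal.ofReal (δ / 2) :=
    (measure_mono (sdiff_subset_sdiff_left inter_subset_left)).trans_lt hU₀
  obtain ⟨f, hf0, hf1, hf⟩ := exists_contMDiffMap_zero_one_of_isClosed (n := 1)
    𝓘(ℝ, E) (s := Uᶜ) (t := K) hUo.isClosed_compl hKc.isClosed
    (Set.disjoint_left.2 fun x hx hxK => hx (hKU hxK))
  have hfd : ContDiff ℝ 1 (f : E → ℝ) := f.contMDiff.contDiff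
  have habs : ∀ x, |f x| ≤ 1 := fun x => by
    rw [abs_of_nonneg (hf x).1]; exact (hf x).2
  have hts : tsupport (f : E → ℝ) ⊆ cthickening κ K := by
    refine closure_minimal ?_ isClosed_cthickening
    intro x hx
    by_contra hne
    apply hx
    apply hf0
    intro hxU
    exact hne (thickening_subset_cthickening κ K hxU.2)
  have hfc : HasCompactSupport (f : E → ℝ) :=
    hKc.cthickening.of_isClosed_subset (isClosed_tsupport _) hts
  have hmain := aux h hfd hfc habs (v := v) (by
    intro x hx t ht
    apply hκΩ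
    have h1 := hts hx
    rw [hKc.cthickening_eq_biUnion_closedBall hκ.le, mem_iUnion₂] at h1
    obtain ⟨y, hy, hxy⟩ := h1
    have h2 : y + t • v ∈ K' := ⟨(y, t), ⟨hy, ht⟩, rfl⟩
    refine closedBall_subset_cthickening h2 κ ?_
    rw [mem_closedBall] at hxy ⊢
    simpa using hxy)
  have hfi : Integrable (f : E → ℝ) := hfd.continuous.integrable_of_hasCompactSupport hfc
  have hfi2 : Integrable (fun x : E => f (x - v)) := hfi.comp_sub_right v
  have hUfin : volume U ≠ ⊤ := by
    have : volume U ≤ volume K + volume (U \ K) := by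
      calc volume U = volume (K ∪ (U \ K)) := by rw [union_sdiff_cancel hKU]
        _ ≤ _ := measure_union_le _ _
    exact ne_top_of_le_ne_top (ENNReal.add_ne_top.2 ⟨hKfin, hUd.ne_top⟩) this
  have hKA : K ⊆ A := fun x hx => (hKT hx).1
  have h1 : volume.real K ≤ ∫ x in A, f x := by
    calc volume.real K = ∫ x in K, (1 : ℝ) := by simp
      _ = ∫ x in K, f x := setIntegral_congr_fun hKc.measurableSet fun x hx => (hf1 hx).symm
      _ ≤ ∫ x in A, f x := setIntegral_mono_set hfi.integrableOn
          (Eventually.of_forall fun x => (hf x).1) (LE.le.eventuallyLE hKA)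
  have hSm : MeasurableSet {x : E | x - v ∈ U} := (measurable_id.sub_const v) hUo.measurableSet
  have h2 : ∫ x in A, f (x - v) ≤ volume.real (U \ K) := by
    have hm : MeasurableSet {x | x ∈ A ∧ x - v ∈ U} := hA.inter hSm
    have hle : volume {x | x ∈ A ∧ x - v ∈ U} ≤ volume (U \ K) := by
      rw [← hshift (U \ K)]
      refine measure_mono ?_
      rintro x ⟨hx1, hx2⟩
      refine ⟨hx2, fun hx3 => ?_⟩
      have := (hKT hx3).2.2
      rw [sub_add_cancel] at this
      exact this hx1
    have hfin2 : volume {x | x ∈ A ∧ x - v ∈ U} ≠ ⊤ := ne_top_of_le_ne_top hUd.ne_top hle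
    calc ∫ x in A, f (x - v) = ∫ x in A, ({x : E | x - v ∈ U}).indicator
          (fun x => f (x - v)) x := by
          congr 1; ext x
          by_cases hx : x - v ∈ U
          · rw [indicator_of_mem (show x ∈ {x : E | x - v ∈ U} from hx)]
          · rw [indicator_of_notMem (show x ∉ {x : E | x - v ∈ U} from hx), hf0 hx]; rfl
      _ = ∫ x in A ∩ {x : E | x - v ∈ U}, f (x - v) := setIntegral_indicator hSm
      _ ≤ ∫ x in A ∩ {x : E | x - v ∈ U}, (1 : ℝ) :=
          setIntegral_mono_on hfi2.integrableOn (integrableOn_const hfin2 (by simp)) hm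
            fun x _ => (hf _).2
      _ = volume.real {x | x ∈ A ∧ x - v ∈ U} := by
          rw [setIntegral_const, smul_eq_mul, mul_one]; rfl
      _ ≤ _ := ENNReal.toReal_mono hUd.ne_top hle
  have h3 : volume.real (U \ K) ≤ δ / 2 := by
    have := ENNReal.toReal_mono ENNReal.ofReal_ne_top hUd.le
    rwa [ENNReal.toReal_ofReal (by positivity)] at this
  have h4 : volume K ≤ ENNReal.ofReal (‖v‖ * P + δ / 2) := by
    rw [← ENNReal.ofReal_toReal hKfin]
    refine ENNReal.ofReal_le_ofReal ?_
    change volume.real K ≤ _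
    linarith
  calc volume T = volume (K ∪ (T \ K)) := by rw [union_sdiff_cancel hKT]
    _ ≤ volume K + volume (T \ K) := measure_union_le _ _
    _ ≤ ENNReal.ofReal (‖v‖ * P + δ / 2) + ENNReal.ofReal (δ / 2) := by gcongr
    _ = ENNReal.ofReal (‖v‖ * P) + δ := by
        rw [ENNReal.ofReal_add (by positivity) (by positivity), add_assoc,
          ← ENNReal.ofReal_add (by positivity) (by positivity), add_halves,
          ENNReal.ofReal_coe_nnreal]

end Pool.Agent.TH703.Cone
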