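import Pool.Agent.TH703.Cone.Stm

/-!
# General facts about the divergence (helper979 for helper703)
-/

set_option autoImplicit false

namespace Pool.Agent.TH703.Cone.Div

open MeasureTheory Set Metric Pool.Agent.TH703.Cone
open scoped ENNReal InnerProductSpace

variable {E : Type*} [NormedAddCommGroup E] [InnerProductSpace ℝ E]

/-- the trace formula in an orthonormal basis -/
theorem dv_eq_sum {ι : Type*} [Fintype ι] (b : OrthonormalBasis ι ℝ E) (φ : E → E) (x : E) :
    dv φ x = ∑ i, ⟪b i, fderiv ℝ φ x (b i)⟫_ℝ := by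
  unfold dv
  rw [LinearMap.trace_eq_sum_inner _ b]
  rfl

/-- the trace formula with derivatives of the components -/
theorem dv_eq_sum' {ι : Type*} [Fintype ι] (b : OrthonormalBasis ι ℝ E) {φ : E → E} {x : E}
    (hφ : DifferentiableAt ℝ φ x) :
    dv φ x = ∑ i, fderiv ℝ (fun y => ⟪b i, φ y⟫_ℝ) x (b i) := by
  rw [dv_eq_sum b]
  refine Finset.sum_congr rfl fun i _ => ?_
  have h := ((innerSL ℝ (b i)).hasFDerivAt (x := φ x)).comp x hφ.hasFDerivAt
  have h2 : fderiv ℝ (fun y => ⟪b i, φ y⟫_ℝ) x = (innerSL ℝ (b i)).comp (fderiv ℝ φ x) :=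
    HasFDerivAt.fderiv h
  rw [h2]
  rfl

variable [FiniteDimensional ℝ E]

theorem continuous_dv {φ : E → E} (hφ : ContDiff ℝ 1 φ) : Continuous (dv φ) := by
  have h : dv φ = fun x => ∑ i, ⟪stdOrthonormalBasis ℝ E i,
      fderiv ℝ φ x (stdOrthonormalBasis ℝ E i)⟫_ℝ := funext fun x => dv_eq_sum _ _ _
  rw [h]
  refine continuous_finsetSum _ fun i _ => ?_
  exact continuous_const.inner ((hφ.continuous_fderiv (by norm_num)).clm_apply continuous_const)

omit [FiniteDimensional ℝ E] in
theorem dv_eq_zero_of_notMem {φ : E → E} {x : E} (hx : x ∉ tsupport φ) : dv φ x = 0 := by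
  unfold dv
  have h : fderiv ℝ φ x = 0 := by
    by_contra h
    exact hx (support_fderiv_subset ℝ (Function.mem_support.2 h))
  rw [h]
  simp

omit [FiniteDimensional ℝ E] in
theorem support_dv_subset (φ : E → E) : Function.support (dv φ) ⊆ tsupport φ := by
  intro x hx
  by_contra h
  exact hx (dv_eq_zero_of_notMem h)

omit [FiniteDimensional ℝ E] in
theorem tsupport_dv_subset (φ : E → E) : tsupport (dv φ) ⊆ tsupport φ :=
  closure_minimal (support_dv_subset φ) (isClosed_tsupport φ)

omit [FiniteDimensional ℝ E] in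
theorem hasCompactSupport_dv {φ : E → E} (hc : HasCompactSupport φ) :
    HasCompactSupport (dv φ) :=
  IsCompact.of_isClosed_subset hc (isClosed_tsupport _) (tsupport_dv_subset φ)

/-- the trace of `v ↦ l v • w` is `l w` -/
theorem trace_smulRight' (l : E →L[ℝ] ℝ) (w : E) :
    LinearMap.trace ℝ E (l.smulRight w).toLinearMap = l w := by
  have h : ((l.smulRight w).toLinearMap : E →ₗ[ℝ] E) = LinearMap.smulRight l.toLinearMap w := by
    ext v
    rfl
  rw [h, LinearMap.trace_smulRight]
  rfl

/-- the product rule -/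
theorem dv_smul {g : E → ℝ} {φ : E → E} {x : E} (hg : DifferentiableAt ℝ g x)
    (hφ : DifferentiableAt ℝ φ x) :
    dv (fun y => g y • φ y) x = g x * dv φ x + fderiv ℝ g x (φ x) := by
  unfold dv
  rw [fderiv_fun_smul hg hφ]
  have h : ((g x • fderiv ℝ φ x + (fderiv ℝ g x).smulRight (φ x) : E →L[ℝ] E) : E →ₗ[ℝ] E) =
      g x • ((fderiv ℝ φ x : E →L[ℝ] E) : E →ₗ[ℝ] E) +
        (((fderiv ℝ g x).smulRight (φ x) : E →L[ℝ] E) : E →ₗ[ℝ] E) := by
    ext v
    rfl
  rw [h, map_add, map_smul, trace_smulRight', smul_eq_mul]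

theorem dv_add {φ ψ : E → E} {x : E} (hφ : DifferentiableAt ℝ φ x)
    (hψ : DifferentiableAt ℝ ψ x) :
    dv (fun y => φ y + ψ y) x = dv φ x + dv ψ x := by
  rw [dv_eq_sum (stdOrthonormalBasis ℝ E), dv_eq_sum (stdOrthonormalBasis ℝ E),
    dv_eq_sum (stdOrthonormalBasis ℝ E), ← Finset.sum_add_distrib]
  refine Finset.sum_congr rfl fun i _ => ?_
  rw [fderiv_fun_add hφ hψ, ← inner_add_right]
  rfl

theorem dv_neg (φ : E → E) (x : E) : dv (fun y => - φ y) x = - dv φ x := by
  rw [dv_eq_sum (stdOrthonormalBasis ℝ E), dv_eq_sum (stdOrthonormalBasis ℝ E),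
    ← Finset.sum_neg_distrib]
  refine Finset.sum_congr rfl fun i _ => ?_
  rw [fderiv_fun_neg, ← inner_neg_right]
  rfl

variable [MeasurableSpace E] [BorelSpace E]

theorem integrable_dv {φ : E → E} (hφ : ContDiff ℝ 1 φ) (hc : HasCompactSupport φ) :
    Integrable (dv φ) :=
  (continuous_dv hφ).integrable_of_hasCompactSupport (hasCompactSupport_dv hc)

/-- the integral of a derivative of a compactly supported function is zero -/
theorem integral_fderiv_apply {g : E → ℝ} (hg : ContDiff ℝ 1 g) (hc : HasCompactSupport g)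
    (v : E) : ∫ x, fderiv ℝ g x v = 0 := by
  have h1 : Integrable (fun x => fderiv ℝ g x v) := by
    apply Continuous.integrable_of_hasCompactSupport
    · exact (hg.continuous_fderiv (by norm_num)).clm_apply continuous_const
    · exact hc.fderiv_apply (𝕜 := ℝ) v
  have h := integral_mul_fderiv_eq_neg_fderiv_mul_of_integrable (μ := volume) (𝕜 := ℝ)
    (f := fun _ : E => (1 : ℝ)) (g := g) (v := v) (by simp) (by simpa using h1)
    (by simpa using hg.continuous.integrable_of_hasCompactSupport hc)
    (fun x _ => differentiableAt_const _) (fun x _ => hg.differentiable (by norm_num) x)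
  simpa using h

/-- the integral of the divergence of a compactly supported field is zero -/
theorem integral_dv {φ : E → E} (hφ : ContDiff ℝ 1 φ) (hc : HasCompactSupport φ) :
    ∫ x, dv φ x = 0 := by
  have h : ∀ x, dv φ x = ∑ i, fderiv ℝ (fun y => ⟪stdOrthonormalBasis ℝ E i, φ y⟫_ℝ) x
      (stdOrthonormalBasis ℝ E i) := fun x =>
    dv_eq_sum' _ (hφ.differentiable (by norm_num) x)
  have hcd : ∀ i, ContDiff ℝ 1 (fun y => ⟪stdOrthonormalBasis ℝ E i, φ y⟫_ℝ) := fun i =>
    contDiff_const.inner ℝ hφ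
  have hcs : ∀ i, HasCompactSupport (fun y => ⟪stdOrthonormalBasis ℝ E i, φ y⟫_ℝ) := by
    intro i
    exact hc.comp_left (g := fun z => ⟪stdOrthonormalBasis ℝ E i, z⟫_ℝ) (by simp)
  simp_rw [h]
  rw [integral_finsetSum]
  · exact Finset.sum_eq_zero fun i _ => integral_fderiv_apply (hcd i) (hcs i) _
  · intro i _
    apply Continuous.integrable_of_hasCompactSupport
    · exact ((hcd i).continuous_fderiv (by norm_num)).clm_apply continuous_const
    · exact (hcs i).fderiv_apply (𝕜 := ℝ) _

/-- integration by parts -/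
theorem integral_mul_dv {g : E → ℝ} {φ : E → E} (hg : ContDiff ℝ 1 g) (hφ : ContDiff ℝ 1 φ)
    (hc : HasCompactSupport φ) :
    ∫ x, g x * dv φ x = - ∫ x, fderiv ℝ g x (φ x) := by
  have hp : ContDiff ℝ 1 (fun y => g y • φ y) := hg.smul hφ
  have hpc : HasCompactSupport (fun y => g y • φ y) := hc.smul_left
  have h0 := integral_dv hp hpc
  have h1 : ∀ x, dv (fun y => g y • φ y) x = g x * dv φ x + fderiv ℝ g x (φ x) := fun x =>
    dv_smul (hg.differentiable (by norm_num) x) (hφ.differentiable (by norm_num) x)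
  simp_rw [h1] at h0
  rw [integral_add] at h0
  · linarith
  · apply Continuous.integrable_of_hasCompactSupport
    · exact hg.continuous.mul (continuous_dv hφ)
    · exact (hasCompactSupport_dv hc).mul_left
  · apply Continuous.integrable_of_hasCompactSupport
    · exact (hg.continuous_fderiv (by norm_num)).clm_apply hφ.continuous
    · refine hc.mono ?_
      intro x hx
      rw [Function.mem_support] at hx ⊢
      intro h
      rw [h, map_zero] at hx
      exact hx rfl

end Pool.Agent.TH703.Cone.Div
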