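import Pool.Agent.TH703.Cone.Stm

/-!
# Fubini and volumes for the body `Om b ε` (helper979 for helper703)
-/

set_option autoImplicit false

namespace Pool.Agent.TH703.Cone

open MeasureTheory Set Metric
open scoped ENNReal

namespace Vol

theorem isOpen_Om (b : ℕ) (ε : ℝ) : IsOpen (Om b ε) := by
  have hc : Continuous (fun z : W b => ‖z.fst‖ + ‖z.snd‖ / ε) := by
    have h1 : Continuous (fun z : W b => z.fst) := by fun_prop
    have h2 : Continuous (fun z : W b => z.snd) := by fun_prop
    exact h1.norm.add (h2.norm.div_const ε)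
  exact isOpen_lt hc continuous_const

theorem measurableSet_Om (b : ℕ) (ε : ℝ) : MeasurableSet (Om b ε) :=
  (isOpen_Om b ε).measurableSet

theorem measurable_fst (b : ℕ) : Measurable (fun z : W b => z.fst) := by
  have h1 : Continuous (fun z : W b => z.fst) := by fun_prop
  exact h1.measurable

/-- Fubini in the space `W b` -/
theorem lintegral_eq {b : ℕ} {F : W b → ℝ≥0∞} (hF : Measurable F) :
    ∫⁻ z, F z = ∫⁻ x : ℂ, ∫⁻ y : B b, F (WithLp.toLp 2 (x, y)) := by
  have h := (WithLp.volume_preserving_toLp ℂ (B b)).lintegral_comp hF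
  rw [← h, Measure.volume_eq_prod, lintegral_prod]
  exact (hF.comp (WithLp.volume_preserving_toLp ℂ (B b)).measurable).aemeasurable

theorem mem_fib_Om {b : ℕ} {ε : ℝ} {x : ℂ} {y : B b} :
    y ∈ fib (Om b ε) x ↔ ‖x‖ + ‖y‖ / ε < 1 := Iff.rfl

/-- the fibres of the body -/
theorem volume_fib_Om (b : ℕ) {ε : ℝ} (hε : 0 < ε) (x : ℂ) :
    volume (fib (Om b ε) x) = (ball (0 : ℂ) 1).indicator
      (fun x => ENNReal.ofReal (vb b ε) * ENNReal.ofReal ((1 - ‖x‖) ^ b)) x := by
  by_cases hx : ‖x‖ < 1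
  · have hx' : x ∈ ball (0 : ℂ) 1 := by simpa using hx
    rw [indicator_of_mem hx']
    have hs : fib (Om b ε) x = ball (0 : B b) ((1 - ‖x‖) * ε) := by
      ext y
      rw [mem_fib_Om, mem_ball, dist_zero_right]
      constructor
      · intro h
        have h2 : ‖y‖ / ε < 1 - ‖x‖ := by linarith
        exact (div_lt_iff₀ hε).1 h2
      · intro h
        have h2 : ‖y‖ / ε < 1 - ‖x‖ := (div_lt_iff₀ hε).2 h
        linarith
    rw [hs, Measure.addHaar_ball_mul_of_pos volume (0 : B b) (by linarith) ε]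
    rw [finrank_euclideanSpace_fin, mul_comm]
    congr 1
    unfold vb
    rw [Measure.real, ENNReal.ofReal_toReal]
    exact measure_ball_lt_top.ne
  · have hx' : x ∉ ball (0 : ℂ) 1 := by simpa using hx
    rw [indicator_of_notMem hx']
    have hs : fib (Om b ε) x = ∅ := by
      ext y
      rw [mem_fib_Om, mem_empty_iff_false, iff_false, not_lt]
      have : 0 ≤ ‖y‖ / ε := by positivity
      push Not at hx
      linarith
    rw [hs, measure_empty]

end Vol

open Vol

theorem t7a : S_T7a := by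
  intro b ε hb hε f hf
  have h1 : ∫⁻ z in Om b ε, f z.fst = ∫⁻ z, (Om b ε).indicator (fun z => f z.fst) z :=
    (lintegral_indicator (measurableSet_Om b ε) _).symm
  have h2 : Measurable ((Om b ε).indicator (fun z : W b => f z.fst)) :=
    (hf.comp (measurable_fst b)).indicator (measurableSet_Om b ε)
  rw [h1, lintegral_eq h2]
  have h3 : ∀ x : ℂ, ∫⁻ y : B b, (Om b ε).indicator (fun z : W b => f z.fst)
      (WithLp.toLp 2 (x, y)) = f x * volume (fib (Om b ε) x) := by
    intro x
    have hm : MeasurableSet (fib (Om b ε) x) := by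
      have hc : Continuous (fun y : B b => (WithLp.toLp 2 (x, y) : W b)) := by fun_prop
      exact ((isOpen_Om b ε).preimage hc).measurableSet
    have h4 : ∀ y : B b, (Om b ε).indicator (fun z : W b => f z.fst)
        (WithLp.toLp 2 (x, y)) = (fib (Om b ε) x).indicator (fun _ => f x) y := by
      intro y
      by_cases hy : y ∈ fib (Om b ε) x
      · rw [indicator_of_mem hy,
          indicator_of_mem (show (WithLp.toLp 2 (x, y) : W b) ∈ Om b ε from hy)]
        rfl
      · rw [indicator_of_notMem hy,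
          indicator_of_notMem (show (WithLp.toLp 2 (x, y) : W b) ∉ Om b ε from hy)]
    simp_rw [h4]
    rw [lintegral_indicator hm, lintegral_const, Measure.restrict_apply_univ]
  simp_rw [h3, volume_fib_Om b hε]
  rw [← lintegral_const_mul' _ _ ENNReal.ofReal_ne_top]
  rw [← lintegral_indicator measurableSet_ball]
  refine lintegral_congr fun x => ?_
  by_cases hx : x ∈ ball (0 : ℂ) 1
  · rw [indicator_of_mem hx, indicator_of_mem hx]
    ring
  · rw [indicator_of_notMem hx, indicator_of_notMem hx, mul_zero]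

namespace Vol

/-- integrals of radial functions over the body -/
theorem lintegral_radial {b : ℕ} {ε : ℝ} (hb : 1 ≤ b) (hε : 0 < ε) {h : ℝ → ℝ}
    (hm : Measurable h) (h0 : ∀ ρ, 0 ≤ h ρ) {C : ℝ} (hC : ∀ ρ, h ρ ≤ C) :
    ∫⁻ z in Om b ε, ENNReal.ofReal (h ‖z.fst‖) = ENNReal.ofReal
      (vb b ε * (2 * Real.pi * ∫ ρ in (0 : ℝ)..1, ρ * (1 - ρ) ^ b * h ρ)) := by
  have hC0 : 0 ≤ C := (h0 0).trans (hC 0)
  have h1 := t7a b ε hb hε (fun x => ENNReal.ofReal (h ‖x‖))
    (ENNReal.measurable_ofReal.comp (hm.comp measurable_norm))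
  rw [h1, ENNReal.ofReal_mul (by unfold vb; exact measureReal_nonneg)]
  congr 1
  set k : ℝ → ℝ := (Iio (1 : ℝ)).indicator (fun ρ => h ρ * (1 - ρ) ^ b) with hk
  have hkm : Measurable k :=
    (hm.mul ((measurable_const.sub measurable_id).pow_const b)).indicator measurableSet_Iio
  have hk0 : ∀ ρ, 0 ≤ k ρ := by
    intro ρ
    refine indicator_nonneg (fun ρ hρ => ?_) ρ
    have : 0 ≤ 1 - ρ := by
      have := mem_Iio.1 hρ
      linarith
    exact mul_nonneg (h0 ρ) (pow_nonneg this b)
  have h2 : ∫⁻ x in ball (0 : ℂ) 1, ENNReal.ofReal (h ‖x‖) * ENNReal.ofReal ((1 - ‖x‖) ^ b) =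
      ∫⁻ x : ℂ, ENNReal.ofReal (k ‖x‖) := by
    rw [← lintegral_indicator measurableSet_ball]
    refine lintegral_congr fun x => ?_
    by_cases hx : x ∈ ball (0 : ℂ) 1
    · have hx' : ‖x‖ ∈ Iio (1 : ℝ) := by simpa using hx
      rw [indicator_of_mem hx, hk, indicator_of_mem hx', ENNReal.ofReal_mul (h0 _)]
    · have hx' : ‖x‖ ∉ Iio (1 : ℝ) := by simpa using hx
      rw [indicator_of_notMem hx, hk, indicator_of_notMem hx', ENNReal.ofReal_zero]
  have hki : Integrable (fun x : ℂ => k ‖x‖) := by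
    have h3 : Integrable ((ball (0 : ℂ) 1).indicator (fun _ => C)) := by
      rw [integrable_indicator_iff measurableSet_ball]
      exact integrableOn_const measure_ball_lt_top.ne
    refine h3.mono' (hkm.comp measurable_norm).aestronglyMeasurable
      (Filter.Eventually.of_forall fun x => ?_)
    rw [Real.norm_of_nonneg (hk0 _)]
    by_cases hx : x ∈ ball (0 : ℂ) 1
    · have hx' : ‖x‖ ∈ Iio (1 : ℝ) := by simpa using hx
      rw [indicator_of_mem hx, hk, indicator_of_mem hx']
      have h4 : 1 - ‖x‖ ≤ 1 := by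
        have := norm_nonneg x
        linarith
      have h5 : 0 ≤ 1 - ‖x‖ := by
        have := mem_Iio.1 hx'
        linarith
      calc h ‖x‖ * (1 - ‖x‖) ^ b ≤ C * 1 :=
            mul_le_mul (hC _) (pow_le_one₀ h5 h4) (pow_nonneg h5 b) hC0
        _ = C := mul_one C
    · have hx' : ‖x‖ ∉ Iio (1 : ℝ) := by simpa using hx
      rw [indicator_of_notMem hx, hk, indicator_of_notMem hx']
  rw [h2, ← ofReal_integral_eq_lintegral_ofReal hki (Filter.Eventually.of_forall fun x => hk0 _),
    integral_fun_norm_addHaar]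
  congr 1
  rw [Complex.finrank_real_complex]
  have h6 : (volume : Measure ℂ).real (ball 0 1) = Real.pi := by
    rw [Measure.real, Complex.volume_ball]
    simp
  rw [h6]
  have h7 : ∫ y in Ioi (0 : ℝ), y ^ (2 - 1) • k y = ∫ ρ in (0 : ℝ)..1, ρ * (1 - ρ) ^ b * h ρ := by
    rw [intervalIntegral.integral_of_le zero_le_one, integral_Ioc_eq_integral_Ioo,
      ← integral_indicator measurableSet_Ioi, ← integral_indicator measurableSet_Ioo]
    refine integral_congr_ae (Filter.Eventually.of_forall fun y => ?_)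
    simp only [indicator, mem_Ioi, mem_Ioo, hk, mem_Iio, smul_eq_mul]
    by_cases h8 : 0 < y
    · by_cases h9 : y < 1
      · simp only [h8, h9, and_self, if_true]
        ring
      · simp [h8, h9]
    · simp [h8]
  rw [h7]
  simp only [smul_eq_mul, nsmul_eq_mul]
  push_cast
  ring

/-- the antiderivative -/
theorem integral_pow_mul (b : ℕ) (r : ℝ) :
    ∫ ρ in (0 : ℝ)..r, ρ * (1 - ρ) ^ b =
      (1 - (1 - r) ^ (b + 1) * (1 + (b + 1) * r)) / ((b + 1) * (b + 2)) := by
  have hd : ∀ x ∈ uIcc (0 : ℝ) r, HasDerivAt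
      (fun ρ : ℝ => -((1 - ρ) ^ (b + 1) * (1 + (b + 1) * ρ)) / ((b + 1) * (b + 2)))
      (x * (1 - x) ^ b) x := by
    intro x _
    have h1 : HasDerivAt (fun ρ : ℝ => 1 - ρ) (-1) x := by
      simpa using (hasDerivAt_id x).const_sub 1
    have h2 := h1.pow (b + 1)
    have h3 : HasDerivAt (fun ρ : ℝ => 1 + ((b : ℝ) + 1) * ρ) ((b : ℝ) + 1) x := by
      simpa using ((hasDerivAt_id x).const_mul ((b : ℝ) + 1)).const_add 1
    have h4 := ((h2.mul h3).neg).div_const (((b : ℝ) + 1) * (b + 2))
    refine h4.congr_deriv ?_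
    have h5 : ((b : ℝ) + 1) * (b + 2) ≠ 0 := by positivity
    field_simp
    simp only [Nat.add_sub_cancel, Nat.cast_add, Nat.cast_one, Pi.pow_apply]
    ring
  rw [intervalIntegral.integral_eq_sub_of_hasDerivAt hd]
  · have h5 : ((b : ℝ) + 1) * (b + 2) ≠ 0 := by positivity
    field_simp
    simp
    ring
  · apply Continuous.intervalIntegrable
    fun_prop

end Vol

theorem t7b : S_T7b := by
  intro b ε r hb hε hr0 hr1
  have hS : {z : W b | z ∈ Om b ε ∧ ‖z.fst‖ < r} = Om b ε ∩ {z : W b | ‖z.fst‖ < r} := rfl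
  have hmS : MeasurableSet {z : W b | ‖z.fst‖ < r} :=
    measurableSet_lt (measurable_fst b).norm measurable_const
  have h1 := lintegral_radial (b := b) (ε := ε) hb hε (h := (Iio r).indicator (fun _ => 1))
    (measurable_const.indicator measurableSet_Iio)
    (fun ρ => indicator_nonneg (fun _ _ => zero_le_one) ρ) (C := 1)
    (fun ρ => indicator_le_self' (fun _ _ => zero_le_one) ρ)
  have h2 : ∫⁻ z in Om b ε, ENNReal.ofReal ((Iio r).indicator (fun _ => (1 : ℝ)) ‖z.fst‖) =
      volume {z : W b | z ∈ Om b ε ∧ ‖z.fst‖ < r} := by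
    have h3 : ∀ z : W b, ENNReal.ofReal ((Iio r).indicator (fun _ => (1 : ℝ)) ‖z.fst‖) =
        {z : W b | ‖z.fst‖ < r}.indicator 1 z := by
      intro z
      by_cases hz : ‖z.fst‖ < r
      · rw [indicator_of_mem (mem_Iio.2 hz), indicator_of_mem (by exact hz)]
        simp
      · rw [indicator_of_notMem (by simpa using hz), indicator_of_notMem (by exact hz)]
        simp
    simp_rw [h3]
    rw [lintegral_indicator_one hmS, Measure.restrict_apply hmS, hS, inter_comm]
  rw [← h2, h1]
  congr 3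
  rw [← integral_pow_mul b r]
  have h4 : ∫ ρ in (0 : ℝ)..1, ρ * (1 - ρ) ^ b * (Iio r).indicator (fun _ => (1 : ℝ)) ρ =
      ∫ ρ in (0 : ℝ)..r, ρ * (1 - ρ) ^ b := by
    rw [intervalIntegral.integral_of_le zero_le_one, intervalIntegral.integral_of_le hr0,
      integral_Ioc_eq_integral_Ioo, integral_Ioc_eq_integral_Ioo,
      ← integral_indicator measurableSet_Ioo, ← integral_indicator measurableSet_Ioo]
    refine integral_congr_ae (Filter.Eventually.of_forall fun y => ?_)
    simp only [indicator, mem_Ioo, mem_Iio]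
    by_cases h8 : 0 < y
    · by_cases h9 : y < r
      · have h10 : y < 1 := lt_of_lt_of_le h9 hr1
        simp [h8, h9, h10]
      · simp [h8, h9]
    · simp [h8]
  rw [h4]

end Pool.Agent.TH703.Cone
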