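import Pool.Agent.TH703.Cone.Div
import Pool.Agent.TH703.Cone.Vol

/-!
# The perimeter of the cylinders in the body `Om b ε` (helper979 for helper703)
-/

set_option autoImplicit false

namespace Pool.Agent.TH703.Cone

open MeasureTheory Set Metric Filter Topology
open scoped ENNReal InnerProductSpace

namespace Cyl

/-- a bump with integral one -/
theorem exists_bump {a c : ℝ} (hac : a < c) : ∃ (k : ℝ → ℝ) (C : ℝ), Continuous k ∧
    (∀ s, 0 ≤ k s) ∧ (∀ s, s ≤ a → k s = 0) ∧ (∀ s, c ≤ s → k s = 0) ∧ (∀ s, k s ≤ C) ∧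
    ∫ s in a..c, k s = 1 := by
  set h : ℝ → ℝ := fun s => max 0 ((s - a) * (c - s)) with hh
  have hc : Continuous h := by fun_prop
  have hI : 0 < ∫ s in a..c, h s := by
    apply intervalIntegral.intervalIntegral_pos_of_pos_on (hc.intervalIntegrable _ _) _ hac
    intro x hx
    exact lt_max_of_lt_right (mul_pos (sub_pos.2 hx.1) (sub_pos.2 hx.2))
  refine ⟨fun s => h s / ∫ s in a..c, h s, (c - a) ^ 2 / ∫ s in a..c, h s, hc.div_const _,
    fun s => div_nonneg (le_max_left _ _) hI.le, ?_, ?_, ?_, ?_⟩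
  · intro s hs
    have h1 : h s = 0 := max_eq_left
      (mul_nonpos_of_nonpos_of_nonneg (sub_nonpos.2 hs) (by linarith))
    simp [h1]
  · intro s hs
    have h1 : h s = 0 := max_eq_left
      (mul_nonpos_of_nonneg_of_nonpos (by linarith) (sub_nonpos.2 hs))
    simp [h1]
  · intro s
    apply div_le_div_of_nonneg_right _ hI.le
    exact max_le (by positivity) (by nlinarith [sq_nonneg (s - a + (c - s) / 2), sq_nonneg (c - s)])
  · rw [intervalIntegral.integral_div]
    exact div_self hI.ne'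

/-- a cutoff function on the line -/
theorem exists_cutoff {a c : ℝ} (hac : a < c) : ∃ (G k : ℝ → ℝ) (C : ℝ), Continuous k ∧
    (∀ s, 0 ≤ k s) ∧ (∀ s, s ≤ a → k s = 0) ∧ (∀ s, c ≤ s → k s = 0) ∧ (∀ s, k s ≤ C) ∧
    (∀ s, HasDerivAt G (-k s) s) ∧ (∀ s, s ≤ a → G s = 1) ∧ (∀ s, c ≤ s → G s = 0) ∧
    (∀ s, 0 ≤ G s) ∧ (∀ s, G s ≤ 1) := by
  obtain ⟨k, C, hk, hk0, hka, hkc, hkC, hkI⟩ := exists_bump hac
  have hii : ∀ s t, IntervalIntegrable k volume s t := fun s t => hk.intervalIntegrable s t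
  have h1 : ∀ s, s ≤ a → ∫ t in a..s, k t = 0 := by
    intro s hs
    have h2 : ∫ t in a..s, k t = ∫ t in a..s, (0 : ℝ) := by
      apply intervalIntegral.integral_congr
      intro t ht
      rw [uIcc_of_ge hs] at ht
      exact hka t ht.2
    rw [h2]
    simp
  have h2 : ∀ s, c ≤ s → ∫ t in a..s, k t = 1 := by
    intro s hs
    have h3 : ∫ t in c..s, k t = ∫ t in c..s, (0 : ℝ) := by
      apply intervalIntegral.integral_congr
      intro t ht
      rw [uIcc_of_le hs] at ht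
      exact hkc t ht.1
    rw [← intervalIntegral.integral_add_adjacent_intervals (hii a c) (hii c s), h3, hkI]
    simp
  refine ⟨fun s => 1 - ∫ t in a..s, k t, k, C, hk, hk0, hka, hkc, hkC, ?_, ?_, ?_, ?_, ?_⟩
  · intro s
    exact ((hk.integral_hasStrictDerivAt a s).hasDerivAt).const_sub 1
  · intro s hs
    simp only [h1 s hs, sub_zero]
  · intro s hs
    simp only [h2 s hs, sub_self]
  · intro s
    rw [sub_nonneg]
    rcases le_total c s with hs | hs
    · rw [h2 s hs]
    · have h3 : 0 ≤ ∫ t in s..c, k t := intervalIntegral.integral_nonneg hs fun t _ => hk0 t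
      have h4 := intervalIntegral.integral_add_adjacent_intervals (hii a s) (hii s c)
      rw [hkI] at h4
      linarith
  · intro s
    rw [sub_le_self_iff]
    rcases le_total s a with hs | hs
    · rw [h1 s hs]
    · exact intervalIntegral.integral_nonneg hs fun t _ => hk0 t

/-- integrals of bounded radial functions over the body -/
theorem integral_radial {b : ℕ} {ε : ℝ} (hb : 1 ≤ b) (hε : 0 < ε) {h : ℝ → ℝ}
    (hm : Measurable h) (h0 : ∀ ρ, 0 ≤ h ρ) {C : ℝ} (hC : ∀ ρ, h ρ ≤ C) :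
    IntegrableOn (fun z : W b => h ‖z.fst‖) (Om b ε) ∧
    ∫ z in Om b ε, h ‖z.fst‖ =
      vb b ε * (2 * Real.pi * ∫ ρ in (0 : ℝ)..1, ρ * (1 - ρ) ^ b * h ρ) := by
  have h1 := Vol.lintegral_radial hb hε hm h0 hC
  have hmeas : Measurable (fun z : W b => h ‖z.fst‖) := hm.comp (Vol.measurable_fst b).norm
  have hi : IntegrableOn (fun z : W b => h ‖z.fst‖) (Om b ε) := by
    refine ⟨hmeas.aestronglyMeasurable, ?_⟩
    rw [hasFiniteIntegral_iff_ofReal (Eventually.of_forall fun z => h0 _), h1]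
    exact ENNReal.ofReal_lt_top
  refine ⟨hi, ?_⟩
  rw [integral_eq_lintegral_of_nonneg_ae (Eventually.of_forall fun z => h0 _)
    hmeas.aestronglyMeasurable, h1, ENNReal.toReal_ofReal]
  have h2 : 0 ≤ ∫ ρ in (0 : ℝ)..1, ρ * (1 - ρ) ^ b * h ρ := by
    apply intervalIntegral.integral_nonneg zero_le_one
    intro ρ hρ
    have h3 : 0 ≤ 1 - ρ := by linarith [hρ.2]
    exact mul_nonneg (mul_nonneg hρ.1 (pow_nonneg h3 b)) (h0 ρ)
  have h4 : 0 ≤ vb b ε := by
    unfold vb
    exact measureReal_nonneg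
  have := Real.pi_pos
  positivity

/-- the cutoff functions for the cylinder -/
theorem exists_cyl {b : ℕ} {ε r s : ℝ} (hb : 1 ≤ b) (hε : 0 < ε) (hs : 0 < s) (hsr : s < r)
    (hr : r < 1) : ∃ g : W b → ℝ, ContDiff ℝ 1 g ∧ (∀ z, 0 ≤ g z) ∧ (∀ z, g z ≤ 1) ∧
    (∀ z : W b, ‖z.fst‖ ≤ s → g z = 1) ∧ (∀ z : W b, r ≤ ‖z.fst‖ → g z = 0) ∧
    ∀ φ, Tst (Om b ε) φ → ∫ z, g z * dv φ z ≤ vb b ε * (2 * Real.pi * (r * (1 - s) ^ b)) := by
  have hac : s ^ 2 < r ^ 2 := by nlinarith
  obtain ⟨G, k, C, hk, hk0, hka, hkc, hkC, hG, hGa, hGc, hG0, hG1⟩ := exists_cutoff hac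
  have hdG : deriv G = fun t => -k t := funext fun t => (hG t).deriv
  have hGd : ContDiff ℝ 1 G := by
    rw [contDiff_one_iff_deriv]
    refine ⟨fun t => (hG t).differentiableAt, ?_⟩
    rw [hdG]
    exact hk.neg
  have hL : ∀ z : W b, HasFDerivAt (fun z : W b => ‖z.fst‖ ^ 2)
      (2 • (innerSL ℝ z.fst).comp (WithLp.fstL 2 ℝ ℂ (B b))) z := by
    intro z
    exact (WithLp.fstL 2 ℝ ℂ (B b)).hasFDerivAt.norm_sq
  have hg : ContDiff ℝ 1 (fun z : W b => G (‖z.fst‖ ^ 2)) := by
    refine hGd.comp ?_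
    exact (WithLp.fstL 2 ℝ ℂ (B b)).contDiff.norm_sq ℝ
  have hfd : ∀ z v : W b, fderiv ℝ (fun z : W b => G (‖z.fst‖ ^ 2)) z v =
      -k (‖z.fst‖ ^ 2) * (2 * ⟪z.fst, v.fst⟫_ℝ) := by
    intro z v
    have h1 := (hG (‖z.fst‖ ^ 2)).comp_hasFDerivAt z (hL z)
    have h2 : fderiv ℝ (fun z : W b => G (‖z.fst‖ ^ 2)) z = -k (‖z.fst‖ ^ 2) •
        (2 • (innerSL ℝ z.fst).comp (WithLp.fstL 2 ℝ ℂ (B b))) := HasFDerivAt.fderiv h1
    rw [h2]
    change -k (‖z.fst‖ ^ 2) * (2 • ⟪z.fst, v.fst⟫_ℝ) = _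
    rw [nsmul_eq_mul, Nat.cast_ofNat]
  refine ⟨fun z => G (‖z.fst‖ ^ 2), hg, fun z => hG0 _, fun z => hG1 _, ?_, ?_, ?_⟩
  · intro z hz
    exact hGa _ (by nlinarith [norm_nonneg z.fst])
  · intro z hz
    exact hGc _ (by nlinarith [norm_nonneg z.fst])
  intro φ hφ
  -- the radial majorant
  set h : ℝ → ℝ := fun ρ => k (ρ ^ 2) * (2 * |ρ|) with hh
  have hhc : Continuous h := by fun_prop
  have hh0 : ∀ ρ, 0 ≤ h ρ := fun ρ => mul_nonneg (hk0 _) (by positivity)
  have hC0 : 0 ≤ C := (hk0 0).trans (hkC 0)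
  have hhC : ∀ ρ, h ρ ≤ C * 2 := by
    intro ρ
    rcases le_total (r ^ 2) (ρ ^ 2) with h1 | h1
    · rw [hh]
      simp only [hkc _ h1, zero_mul]
      positivity
    · have h2 : |ρ| ≤ 1 := by
        have h3 : |ρ| ^ 2 ≤ 1 := by
          rw [sq_abs]
          nlinarith
        nlinarith [abs_nonneg ρ]
      exact mul_le_mul (hkC _) (by linarith) (by positivity) hC0
  obtain ⟨hi, he⟩ := integral_radial (b := b) (ε := ε) hb hε hhc.measurable hh0 hhC
  have hmO : MeasurableSet (Om b ε) := Vol.measurableSet_Om b ε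
  rw [Div.integral_mul_dv hg hφ.c1 hφ.cs]
  have hint1 : Integrable (fun z => fderiv ℝ (fun z : W b => G (‖z.fst‖ ^ 2)) z (φ z)) := by
    apply Continuous.integrable_of_hasCompactSupport
    · exact (hg.continuous_fderiv (by norm_num)).clm_apply hφ.c1.continuous
    · refine hφ.cs.mono ?_
      intro x hx
      rw [Function.mem_support] at hx ⊢
      intro h'
      rw [h', map_zero] at hx
      exact hx rfl
  have h1 : - ∫ z, fderiv ℝ (fun z : W b => G (‖z.fst‖ ^ 2)) z (φ z) ≤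
      ∫ z in Om b ε, h ‖z.fst‖ := by
    rw [← integral_neg, ← integral_indicator hmO]
    refine integral_mono hint1.neg (hi.integrable_indicator hmO) fun z => ?_
    by_cases hz : z ∈ Om b ε
    · simp only [indicator_of_mem hz]
      rw [hfd z (φ z)]
      have h2 : ⟪z.fst, (φ z).fst⟫_ℝ ≤ ‖z.fst‖ * 1 := by
        refine (real_inner_le_norm _ _).trans ?_
        exact mul_le_mul_of_nonneg_left ((WithLp.norm_fst_le _ (φ z)).trans (hφ.le z)) (norm_nonneg _)
      have h3 := hk0 (‖z.fst‖ ^ 2)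
      simp only [hh, abs_norm]
      nlinarith
    · simp only [indicator_of_notMem hz]
      have h2 : φ z = 0 := by
        by_contra h3
        exact hz (hφ.sub (subset_tsupport φ (Function.mem_support.2 h3)))
      simp [h2]
  refine h1.trans ?_
  rw [he]
  have hvb : 0 ≤ vb b ε := by
    unfold vb
    exact measureReal_nonneg
  refine mul_le_mul_of_nonneg_left ?_ hvb
  refine mul_le_mul_of_nonneg_left ?_ (by positivity)
  -- the one-dimensional estimate
  have h4 : ∫ ρ in (0 : ℝ)..1, r * (1 - s) ^ b * (k (ρ ^ 2) * (2 * ρ)) = r * (1 - s) ^ b := by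
    rw [intervalIntegral.integral_const_mul]
    have h5 : ∀ ρ ∈ uIcc (0 : ℝ) 1, HasDerivAt (fun ρ : ℝ => -G (ρ ^ 2))
        (k (ρ ^ 2) * (2 * ρ)) ρ := by
      intro ρ _
      have h6 := ((hG (ρ ^ 2)).comp ρ (hasDerivAt_pow 2 ρ)).neg
      refine h6.congr_deriv ?_
      simp
    rw [intervalIntegral.integral_eq_sub_of_hasDerivAt h5]
    · have h7 : G (1 ^ 2) = 0 := hGc _ (by nlinarith)
      have h8 : G (0 ^ 2) = 1 := hGa _ (by nlinarith)
      rw [h7, h8]
      ring
    · apply Continuous.intervalIntegrable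
      fun_prop
  rw [← h4]
  apply intervalIntegral.integral_mono_on zero_le_one
  · apply Continuous.intervalIntegrable
    fun_prop
  · apply Continuous.intervalIntegrable
    fun_prop
  intro ρ hρ
  have h5 := hk0 (ρ ^ 2)
  simp only [hh, abs_of_nonneg hρ.1]
  rcases le_total (ρ ^ 2) (s ^ 2) with h6 | h6
  · rw [hka _ h6]
    simp
  rcases le_total (r ^ 2) (ρ ^ 2) with h7 | h7
  · rw [hkc _ h7]
    simp
  refine mul_le_mul_of_nonneg_right ?_ (mul_nonneg h5 (by linarith [hρ.1]))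
  have h8 : s ≤ ρ := by nlinarith [hρ.1]
  have h9 : ρ ≤ r := by nlinarith [hρ.1]
  have h10 : 0 ≤ 1 - ρ := by linarith [hρ.2]
  exact mul_le_mul h9 (pow_le_pow_left₀ h10 (by linarith) b) (pow_nonneg h10 b) (by linarith)

end Cyl

theorem t3 : S_T3 := by
  intro b ε r hb hε hr0 hr1 φ hφ
  set A : Set (W b) := {z | z ∈ Om b ε ∧ ‖z.fst‖ < r} with hA
  have hmA : MeasurableSet A :=
    (Vol.measurableSet_Om b ε).inter
      (measurableSet_lt (Vol.measurable_fst b).norm measurable_const)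
  have hs0 : ∀ n : ℕ, 0 < r - r / (n + 2) := by
    intro n
    have h1 : (1 : ℝ) < n + 2 := by
      have : (0 : ℝ) ≤ n := Nat.cast_nonneg n
      linarith
    have h2 : r / (n + 2) < r := div_lt_self hr0 h1
    linarith
  have hs1 : ∀ n : ℕ, r - r / (n + 2) < r := by
    intro n
    have h2 : 0 < r / ((n : ℝ) + 2) := by positivity
    linarith
  have hlim : Tendsto (fun n : ℕ => r - r / ((n : ℝ) + 2)) atTop (𝓝 r) := by
    have h1 : Tendsto (fun n : ℕ => (n : ℝ) + 2) atTop atTop :=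
      tendsto_atTop_add_const_right _ _ tendsto_natCast_atTop_atTop
    have h2 : Tendsto (fun n : ℕ => r / ((n : ℝ) + 2)) atTop (𝓝 0) :=
      tendsto_const_nhds.div_atTop h1
    simpa using tendsto_const_nhds.sub h2
  choose g hg hg0 hg1 hgs hgr hgi using fun n : ℕ =>
    Cyl.exists_cyl (b := b) (ε := ε) hb hε (hs0 n) (hs1 n) hr1
  have hdi : Integrable (dv φ) := Div.integrable_dv hφ.c1 hφ.cs
  have hz0 : ∀ z, z ∉ Om b ε → dv φ z = 0 := fun z hz =>
    Div.dv_eq_zero_of_notMem fun h => hz (hφ.sub h)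
  have hT : Tendsto (fun n => ∫ z, g n z * dv φ z) atTop (𝓝 (∫ z, A.indicator (dv φ) z)) := by
    refine tendsto_integral_of_dominated_convergence (fun z => ‖dv φ z‖) ?_ hdi.norm ?_ ?_
    · intro n
      exact ((hg n).continuous.mul (Div.continuous_dv hφ.c1)).aestronglyMeasurable
    · intro n
      refine Eventually.of_forall fun z => ?_
      rw [norm_mul, Real.norm_of_nonneg (hg0 n z)]
      exact mul_le_of_le_one_left (norm_nonneg _) (hg1 n z)
    · refine Eventually.of_forall fun z => ?_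
      by_cases hz : z ∈ Om b ε
      · by_cases hr : ‖z.fst‖ < r
        · have h1 : z ∈ A := ⟨hz, hr⟩
          rw [indicator_of_mem h1]
          have h2 : ∀ᶠ n : ℕ in atTop, ‖z.fst‖ < r - r / ((n : ℝ) + 2) :=
            hlim.eventually_const_lt hr
          refine tendsto_const_nhds.congr' ?_
          filter_upwards [h2] with n hn
          rw [hgs n z hn.le, one_mul]
        · have h1 : z ∉ A := fun h => hr h.2
          rw [indicator_of_notMem h1]
          refine tendsto_const_nhds.congr fun n => ?_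
          rw [hgr n z (not_lt.1 hr), zero_mul]
      · have h1 : z ∉ A := fun h => hz h.1
        rw [indicator_of_notMem h1]
        refine tendsto_const_nhds.congr fun n => ?_
        rw [hz0 z hz, mul_zero]
  rw [← integral_indicator hmA]
  have hR : Tendsto (fun n : ℕ => vb b ε * (2 * Real.pi *
      (r * (1 - (r - r / ((n : ℝ) + 2))) ^ b))) atTop
      (𝓝 (vb b ε * (2 * Real.pi * r * (1 - r) ^ b))) := by
    have h1 := (((tendsto_const_nhds (x := (1 : ℝ))).sub hlim).pow b)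
    have h2 := ((h1.const_mul r).const_mul (2 * Real.pi)).const_mul (vb b ε)
    have h3 : vb b ε * (2 * Real.pi * r * (1 - r) ^ b) =
        vb b ε * (2 * Real.pi * (r * (1 - r) ^ b)) := by ring
    rw [h3]
    exact h2
  exact le_of_tendsto_of_tendsto' hT hR fun n => hgi n φ hφ

end Pool.Agent.TH703.Cone
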