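import Pool.Agent.TH703.Cone.Stm

/-!
# MP_65ff7c_an: geometry of convex cones of large relative volume

Job 3465 (helper480): the statement `S_T6` from the Fubini formulas `S_T7a`, `S_T7b`.
-/

set_option autoImplicit false

namespace Pool.Agent.TH703.Cone.Geo

open MeasureTheory Set Metric
open scoped ENNReal InnerProductSpace Pointwise

lemma meas_mk (b : ℕ) (x : ℂ) : Measurable fun y : B b => (WithLp.toLp 2 (x, y) : W b) := by
  have h1 : Measurable fun y : B b => ((x, y) : ℂ × B b) := by fun_prop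
  exact (WithLp.volume_preserving_toLp (U := ℂ) (V := B b)).measurable.comp h1

lemma fib_meas {b : ℕ} {A : Set (W b)} (hA : MeasurableSet A) (x : ℂ) : MeasurableSet (fib A x) :=
  meas_mk b x hA

/-- Fubini -/
lemma fubini {b : ℕ} {A : Set (W b)} (hA : MeasurableSet A) :
    volume A = ∫⁻ x : ℂ, volume (fib A x) := by
  have h := (WithLp.volume_preserving_toLp (U := ℂ) (V := B b))
  have h1 := h.measure_preimage hA.nullMeasurableSet
  have h2 : MeasurableSet ((WithLp.toLp 2 : ℂ × B b → W b) ⁻¹' A) := h.measurable hA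
  rw [← h1, Measure.volume_eq_prod, Measure.prod_apply h2]
  rfl

lemma fib_vol_meas {b : ℕ} {A : Set (W b)} (hA : MeasurableSet A) :
    Measurable fun x : ℂ => volume (fib A x) := by
  have h := (WithLp.volume_preserving_toLp (U := ℂ) (V := B b))
  have h2 : MeasurableSet ((WithLp.toLp 2 : ℂ × B b → W b) ⁻¹' A) := h.measurable hA
  exact measurable_measure_prodMk_left h2

lemma isOpen_Om (b : ℕ) (ε : ℝ) : IsOpen (Om b ε) := by
  have h1 : Continuous fun z : W b => ‖z.fst‖ + ‖z.snd‖ / ε := by fun_prop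
  exact isOpen_lt h1 continuous_const

lemma fib_Om {b : ℕ} {ε : ℝ} (hε : 0 < ε) (x : ℂ) :
    fib (Om b ε) x = ball (0 : B b) ((1 - ‖x‖) * ε) := by
  ext y
  rw [mem_ball_zero_iff]
  change ‖x‖ + ‖y‖ / ε < 1 ↔ _
  rw [← lt_sub_iff_add_lt', div_lt_iff₀ hε]

lemma vb_ball (b : ℕ) (ε : ℝ) : volume (ball (0 : B b) ε) = ENNReal.ofReal (vb b ε) := by
  unfold vb
  rw [ofReal_measureReal (measure_ball_lt_top.ne)]

lemma vb_pos {b : ℕ} {ε : ℝ} (hε : 0 < ε) : 0 < vb b ε := by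
  unfold vb
  exact ENNReal.toReal_pos (measure_ball_pos _ _ hε).ne' measure_ball_lt_top.ne

lemma ball_mul {b : ℕ} (hb : 1 ≤ b) {ε ρ : ℝ} (hρ : 0 ≤ ρ) :
    volume (ball (0 : B b) (ρ * ε)) = ENNReal.ofReal (ρ ^ b) * volume (ball (0 : B b) ε) := by
  have : Nonempty (Fin b) := ⟨⟨0, hb⟩⟩
  have : Nontrivial (B b) := inferInstance
  rw [Measure.addHaar_ball_mul _ _ hρ, finrank_euclideanSpace, Fintype.card_fin]

lemma vol_affine {b : ℕ} {a : ℝ} (ha : 0 ≤ a) (v0 : B b) (S : Set (B b)) :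
    volume ((fun y => v0 + a • y) '' S) = ENNReal.ofReal (a ^ b) * volume S := by
  have h1 : (fun y => v0 + a • y) '' S = (fun y => v0 + y) '' (a • S) := by
    rw [← image_smul, image_image]
  rw [h1, image_add_left, measure_preimage_add, Measure.addHaar_smul, finrank_euclideanSpace,
    Fintype.card_fin, abs_of_nonneg (pow_nonneg ha b)]

/-- the second moment of the ball -/
lemma second_moment {b : ℕ} (R : ℝ) (w : B b) (hw : ‖w‖ = 1) :
    (b : ℝ≥0∞) * ∫⁻ y in ball (0 : B b) R, ENNReal.ofReal (⟪w, y⟫_ℝ ^ 2) ≤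
      ENNReal.ofReal (R ^ 2) * volume (ball (0 : B b) R) := by
  have key : ∀ e : B b, ‖e‖ = 1 → ∫⁻ y in ball (0 : B b) R, ENNReal.ofReal (⟪w, y⟫_ℝ ^ 2) =
      ∫⁻ y in ball (0 : B b) R, ENNReal.ofReal (⟪e, y⟫_ℝ ^ 2) := by
    intro e he
    let ρ := (Submodule.reflection (ℝ ∙ (w - e))ᗮ)
    have hρ : ρ w = e := Submodule.reflection_sub (by rw [hw, he])
    have hmp : MeasurePreserving ρ volume volume := ρ.measurePreserving
    have hpre : ρ ⁻¹' (ball (0 : B b) R) = ball (0 : B b) R := by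
      ext y
      simp
    have h1 := hmp.setLIntegral_comp_preimage_emb ρ.toHomeomorph.measurableEmbedding
      (fun y => ENNReal.ofReal (⟪e, y⟫_ℝ ^ 2)) (ball (0 : B b) R)
    rw [hpre] at h1
    rw [← h1]
    refine setLIntegral_congr_fun measurableSet_ball (fun y _ => ?_)
    rw [← hρ, LinearIsometryEquiv.inner_map_map]
  have h2 : (b : ℝ≥0∞) * ∫⁻ y in ball (0 : B b) R, ENNReal.ofReal (⟪w, y⟫_ℝ ^ 2) =
      ∑ i : Fin b, ∫⁻ y in ball (0 : B b) R, ENNReal.ofReal ((y i) ^ 2) := by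
    have h3 : ∀ i : Fin b, ∫⁻ y in ball (0 : B b) R, ENNReal.ofReal ((y i) ^ 2) =
        ∫⁻ y in ball (0 : B b) R, ENNReal.ofReal (⟪w, y⟫_ℝ ^ 2) := by
      intro i
      rw [key (EuclideanSpace.single i 1) (by simp)]
      simp [EuclideanSpace.inner_single_left]
    rw [Finset.sum_congr rfl (fun i _ => h3 i), Finset.sum_const, Finset.card_univ,
      Fintype.card_fin, nsmul_eq_mul]
  rw [h2, ← lintegral_finsetSum]
  · calc ∫⁻ y in ball (0 : B b) R, ∑ i : Fin b, ENNReal.ofReal ((y i) ^ 2) ≤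
        ∫⁻ _ in ball (0 : B b) R, ENNReal.ofReal (R ^ 2) := by
          refine setLIntegral_mono measurable_const (fun y hy => ?_)
          rw [← ENNReal.ofReal_sum_of_nonneg (fun i _ => sq_nonneg _)]
          apply ENNReal.ofReal_le_ofReal
          have h4 : ∑ i : Fin b, (y i) ^ 2 = ‖y‖ ^ 2 := by
            rw [EuclideanSpace.real_norm_sq_eq]
          rw [h4]
          rw [mem_ball_zero_iff] at hy
          exact pow_le_pow_left₀ (norm_nonneg _) hy.le 2
      _ = _ := by rw [setLIntegral_const]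
  · intro i _
    fun_prop

/-- Chebyshev -/
lemma cheb {b : ℕ} (R T : ℝ) (hT : 0 < T) (w : B b) (hw : ‖w‖ = 1) (S : Set (B b))
    (hS : ∀ y ∈ S, ‖y‖ < R ∧ T ≤ ⟪w, y⟫_ℝ) :
    (b : ℝ≥0∞) * (ENNReal.ofReal (T ^ 2) * volume S) ≤
      ENNReal.ofReal (R ^ 2) * volume (ball (0 : B b) R) := by
  refine le_trans ?_ (second_moment R w hw)
  gcongr
  have h1 : Measurable fun y : B b => ENNReal.ofReal (⟪w, y⟫_ℝ ^ 2) := by fun_prop
  refine le_trans ?_ (mul_meas_ge_le_lintegral (μ := volume.restrict (ball (0 : B b) R)) h1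
    (ENNReal.ofReal (T ^ 2)))
  gcongr ENNReal.ofReal (T ^ 2) * ?_
  rw [Measure.restrict_apply' measurableSet_ball]
  refine measure_mono (fun y hy => ?_)
  obtain ⟨h2, h3⟩ := hS y hy
  refine ⟨?_, mem_ball_zero_iff.2 h2⟩
  exact ENNReal.ofReal_le_ofReal (pow_le_pow_left₀ hT.le h3 2)


/-- the cone is convex -/
lemma convex_cone {b : ℕ} {G : Set (W b)} (h1 : ∀ z ∈ G, ∀ t : ℝ, 0 < t → t • z ∈ G)
    (h2 : ∀ z ∈ G, ∀ w ∈ G, z + w ∈ G) : Convex ℝ G := by
  intro z hz w hw s t hs ht hst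
  rcases hs.eq_or_lt with hs | hs
  · subst hs
    rw [zero_add] at hst
    subst hst
    simpa using hw
  rcases ht.eq_or_lt with ht | ht
  · subst ht
    rw [add_zero] at hst
    subst hst
    simpa using hz
  exact h2 _ (h1 z hz s hs) _ (h1 w hw t ht)

lemma convex_Om {b : ℕ} {ε : ℝ} (hε : 0 < ε) : Convex ℝ (Om b ε) := by
  intro z hz w hw s t hs ht hst
  change ‖z.fst‖ + ‖z.snd‖ / ε < 1 at hz
  change ‖w.fst‖ + ‖w.snd‖ / ε < 1 at hw
  change ‖s • z.fst + t • w.fst‖ + ‖s • z.snd + t • w.snd‖ / ε < 1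
  have h1 : ‖s • z.fst + t • w.fst‖ ≤ s * ‖z.fst‖ + t * ‖w.fst‖ := by
    refine (norm_add_le _ _).trans ?_
    rw [norm_smul, norm_smul, Real.norm_of_nonneg hs, Real.norm_of_nonneg ht]
  have h2 : ‖s • z.snd + t • w.snd‖ ≤ s * ‖z.snd‖ + t * ‖w.snd‖ := by
    refine (norm_add_le _ _).trans ?_
    rw [norm_smul, norm_smul, Real.norm_of_nonneg hs, Real.norm_of_nonneg ht]
  have h3 : ‖s • z.snd + t • w.snd‖ / ε ≤ s * (‖z.snd‖ / ε) + t * (‖w.snd‖ / ε) := by
    rw [div_le_iff₀ hε]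
    have e : (s * (‖z.snd‖ / ε) + t * (‖w.snd‖ / ε)) * ε = s * ‖z.snd‖ + t * ‖w.snd‖ := by
      field_simp
    rw [e]
    exact h2
  have h4 : s * (‖z.fst‖ + ‖z.snd‖ / ε) + t * (‖w.fst‖ + ‖w.snd‖ / ε) < 1 := by
    rcases hs.eq_or_lt with hs' | hs'
    · subst hs'
      rw [zero_add] at hst
      subst hst
      linarith
    · nlinarith
  nlinarith

/-- the separation of a convex set from a ball -/
lemma separation {b : ℕ} {S : Set (B b)} {T : ℝ} (hT : 0 < T) (hS : Convex ℝ S)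
    (hne : S.Nonempty) (hd : ∀ y ∈ S, T ≤ ‖y‖) :
    ∃ w : B b, ‖w‖ = 1 ∧ ∀ y ∈ S, T ≤ ⟪w, y⟫_ℝ := by
  obtain ⟨f, u, h1, h2⟩ := geometric_hahn_banach_open (convex_ball (0 : B b) T) isOpen_ball hS
    (disjoint_left.2 fun y hy hy' => by
      rw [mem_ball_zero_iff] at hy
      exact absurd (hd y hy') (not_le.2 hy))
  let w := (InnerProductSpace.toDual ℝ (B b)).symm f
  have hw : ∀ y, f y = ⟪w, y⟫_ℝ := fun y => (InnerProductSpace.toDual_symm_apply).symm
  have hu : 0 < u := by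
    have h3 := h1 0 (by simpa using hT)
    rwa [map_zero] at h3
  have hw0 : w ≠ 0 := by
    intro h0
    obtain ⟨y, hy⟩ := hne
    have h3 := h2 y hy
    rw [hw y, h0, inner_zero_left] at h3
    linarith
  have hwn : 0 < ‖w‖ := norm_pos_iff.2 hw0
  have h3 : ‖w‖ * T ≤ u := by
    by_contra h
    push Not at h
    have h4 := h1 ((u / ‖w‖ ^ 2) • w) (by
      rw [mem_ball_zero_iff, norm_smul, Real.norm_of_nonneg (by positivity)]
      have e : u / ‖w‖ ^ 2 * ‖w‖ = u / ‖w‖ := by field_simp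
      rw [e, div_lt_iff₀ hwn]
      linarith)
    rw [hw, inner_smul_right, real_inner_self_eq_norm_sq] at h4
    have e : u / ‖w‖ ^ 2 * ‖w‖ ^ 2 = u := by field_simp
    rw [e] at h4
    exact lt_irrefl _ h4
  refine ⟨(1 / ‖w‖) • w, ?_, fun y hy => ?_⟩
  · rw [norm_smul, Real.norm_of_nonneg (by positivity)]
    field_simp
  · rw [real_inner_smul_left, ← hw, one_div, inv_mul_eq_div, le_div_iff₀ hwn, mul_comm]
    exact h3.trans (h2 y hy)

lemma norm_fst_lt {b : ℕ} {ε : ℝ} (hε : 0 < ε) {z : W b} (hz : z ∈ Om b ε) : ‖z.fst‖ < 1 := by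
  change ‖z.fst‖ + ‖z.snd‖ / ε < 1 at hz
  have : 0 ≤ ‖z.snd‖ / ε := by positivity
  linarith

lemma vol_Om (h7b : S_T7b) {b : ℕ} {ε : ℝ} (hb : 1 ≤ b) (hε : 0 < ε) :
    volume (Om b ε) =
      ENNReal.ofReal (vb b ε * (2 * Real.pi / (((b : ℝ) + 1) * ((b : ℝ) + 2)))) := by
  have h1 := h7b b ε 1 hb hε zero_le_one le_rfl
  have h2 : {z | z ∈ Om b ε ∧ ‖z.fst‖ < 1} = Om b ε := by
    ext z
    exact ⟨fun h => h.1, fun h => ⟨h, norm_fst_lt hε h⟩⟩
  rw [h2] at h1
  rw [h1]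
  congr 2
  rw [sub_self, zero_pow (Nat.succ_ne_zero b), zero_mul, sub_zero]
  ring

/-- Step 1: a cone of large relative volume contains a point with `|x| ≥ K / b` -/
lemma step1 (h7a : S_T7a) (h7b : S_T7b) {b : ℕ} {c K ε : ℝ} {G : Set (W b)} (hc : 0 < c)
    (hc1 : c ≤ 1) (hK : 2 ≤ K) (hb : 24 * K ^ 2 / c ^ 2 < b) (hε : 0 < ε) (hG : IsOpen G)
    (hG1 : ∀ z ∈ G, ∀ t : ℝ, 0 < t → t • z ∈ G) (hG2 : ∀ z ∈ G, ∀ w ∈ G, z + w ∈ G)
    (hv : ENNReal.ofReal c * volume (Om b ε) ≤ volume (Om b ε ∩ G)) :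
    ∃ z ∈ Om b ε ∩ G, K / b ≤ ‖z.fst‖ := by
  by_contra hcon
  push Not at hcon
  have hc2 : c ^ 2 ≤ c := by nlinarith
  have hK0 : 0 < K := by linarith
  have hbK : 24 * K ^ 2 < b * c ^ 2 := by
    rwa [div_lt_iff₀ (by positivity)] at hb
  have hbK2 : 24 * K ^ 2 < b * c := by
    have hb0 : (0 : ℝ) ≤ b := Nat.cast_nonneg b
    nlinarith
  have hb48 : 48 * K < b := by
    have hb0 : (0 : ℝ) ≤ b := Nat.cast_nonneg b
    nlinarith
  have hb96 : (96 : ℝ) < b := by linarith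
  have hb1 : 1 ≤ b := by
    have h : (1 : ℝ) ≤ b := by linarith
    exact_mod_cast h
  have hb0 : (0 : ℝ) < b := by linarith
  have hv0 := vb_pos (b := b) hε
  -- the cone is flat
  have hflat : ∀ z ∈ G, ‖z.fst‖ * b ≤ K * (‖z.fst‖ + ‖z.snd‖ / ε) := by
    intro z hz
    by_contra h
    push Not at h
    have hN0 : 0 ≤ ‖z.snd‖ / ε := by positivity
    have hx0 : 0 < ‖z.fst‖ := by
      rcases (norm_nonneg z.fst).eq_or_lt with h0 | h0
      · rw [← h0] at h
        nlinarith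
      · exact h0
    have ht : 0 < K / (b * ‖z.fst‖) := by positivity
    have hmem : (K / (b * ‖z.fst‖)) • z ∈ Om b ε ∩ G := by
      refine ⟨?_, hG1 z hz _ ht⟩
      change ‖(K / (b * ‖z.fst‖)) • z.fst‖ + ‖(K / (b * ‖z.fst‖)) • z.snd‖ / ε < 1
      rw [norm_smul, norm_smul, Real.norm_of_nonneg ht.le]
      have e : K / (b * ‖z.fst‖) * ‖z.fst‖ + K / (b * ‖z.fst‖) * ‖z.snd‖ / ε =
          (K * (‖z.fst‖ + ‖z.snd‖ / ε)) / (‖z.fst‖ * b) := by
        field_simp
      rw [e, div_lt_one (by positivity)]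
      exact h
    have h2 := hcon _ hmem
    have h3 : ‖((K / (b * ‖z.fst‖)) • z).fst‖ = K / b := by
      change ‖(K / (b * ‖z.fst‖)) • z.fst‖ = K / b
      rw [norm_smul, Real.norm_of_nonneg ht.le]
      field_simp
    rw [h3] at h2
    exact lt_irrefl _ h2
  -- the number `κ`
  set κ : ℝ := √(c / 3) with hκ
  have hκ2 : κ ^ 2 = c / 3 := Real.sq_sqrt (by positivity)
  have hκ0 : 0 < κ := Real.sqrt_pos.2 (by positivity)
  have hGc : Convex ℝ G := convex_cone hG1 hG2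
  set q : ℝ := 12 * K ^ 2 / (b * c) with hq
  have hq0 : 0 < q := by positivity
  have hq2 : q < c / 2 := by
    rw [hq, div_lt_iff₀ (by positivity)]
    nlinarith
  -- the bound of the fibres
  have hfib : ∀ x : ℂ, κ / b ≤ ‖x‖ → ‖x‖ < 1 → volume (fib (Om b ε ∩ G) x) ≤
      ENNReal.ofReal (q * (vb b ε * (1 - ‖x‖) ^ b)) := by
    intro x hx hx1
    have hx0 : 0 < ‖x‖ := lt_of_lt_of_le (by positivity) hx
    rcases (fib G x).eq_empty_or_nonempty with hne | hne
    · have : fib (Om b ε ∩ G) x = ∅ := by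
        rw [eq_empty_iff_forall_notMem]
        intro y hy
        have : y ∈ fib G x := hy.2
        rw [hne] at this
        exact this
      rw [this, measure_empty]
      exact zero_le
    have hcv : Convex ℝ (fib G x) := by
      intro y hy y' hy' s t hs ht hst
      have h := hGc hy hy' hs ht hst
      have e : s • (WithLp.toLp 2 (x, y) : W b) + t • (WithLp.toLp 2 (x, y') : W b) =
          WithLp.toLp 2 (x, s • y + t • y') := by
        rw [← WithLp.toLp_smul, ← WithLp.toLp_smul, ← WithLp.toLp_add, Prod.smul_mk, Prod.smul_mk,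
          Prod.mk_add_mk, ← add_smul, hst, one_smul]
      rw [e] at h
      exact h
    set T : ℝ := ‖x‖ * (b / K - 1) with hT
    have hbK1 : 1 / 2 * (b / K) ≤ b / K - 1 := by
      have : 2 ≤ b / K := by
        rw [le_div_iff₀ hK0]
        linarith
      linarith
    have hTl : κ / (2 * K) ≤ T := by
      have h1 : κ / b * (1 / 2 * (b / K)) ≤ ‖x‖ * (b / K - 1) :=
        mul_le_mul hx hbK1 (by positivity) hx0.le
      have e : κ / b * (1 / 2 * (b / K)) = κ / (2 * K) := by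
        field_simp
      rwa [e] at h1
    have hT0 : 0 < T := lt_of_lt_of_le (by positivity) hTl
    have hdist : ∀ y ∈ fib G x, ε * T ≤ ‖y‖ := by
      intro y hy
      have h := hflat _ hy
      change ‖x‖ * b ≤ K * (‖x‖ + ‖y‖ / ε) at h
      have h1 : ‖x‖ * (b / K) ≤ ‖x‖ + ‖y‖ / ε := by
        rw [mul_div_assoc', div_le_iff₀ hK0]
        linarith
      have h2 : T ≤ ‖y‖ / ε := by
        rw [hT]
        linarith
      rw [le_div_iff₀ hε] at h2
      linarith
    obtain ⟨w, hw, hw2⟩ := separation (by positivity) hcv hne hdist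
    have h1 := cheb ((1 - ‖x‖) * ε) (ε * T) (by positivity) w hw (fib (Om b ε ∩ G) x)
      (fun y hy => by
        refine ⟨?_, hw2 y hy.2⟩
        have h2 : y ∈ fib (Om b ε) x := hy.1
        rw [fib_Om hε, mem_ball_zero_iff] at h2
        exact h2)
    rw [ball_mul hb1 (by linarith), vb_ball] at h1
    -- to real numbers
    have hfin : volume (fib (Om b ε ∩ G) x) ≠ ⊤ := by
      refine ne_top_of_le_ne_top (measure_ball_lt_top (x := (0 : B b)) (r := (1 - ‖x‖) * ε)).ne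
        (measure_mono fun y hy => ?_)
      have h2 : y ∈ fib (Om b ε) x := hy.1
      rwa [fib_Om hε] at h2
    set V : ℝ := (volume (fib (Om b ε ∩ G) x)).toReal with hV
    have hVe : volume (fib (Om b ε ∩ G) x) = ENNReal.ofReal V := (ENNReal.ofReal_toReal hfin).symm
    have hV0 : 0 ≤ V := ENNReal.toReal_nonneg
    rw [hVe] at h1 ⊢
    rw [← ENNReal.ofReal_natCast b, ← ENNReal.ofReal_mul (by positivity),
      ← ENNReal.ofReal_mul (by positivity), ← ENNReal.ofReal_mul (by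
        have : (0 : ℝ) ≤ 1 - ‖x‖ := by linarith
        positivity),
      ← ENNReal.ofReal_mul (by positivity), ENNReal.ofReal_le_ofReal_iff (by
        have : (0 : ℝ) ≤ 1 - ‖x‖ := by linarith
        positivity)] at h1
    apply ENNReal.ofReal_le_ofReal
    have hx2 : 0 ≤ 1 - ‖x‖ := by linarith
    set D : ℝ := (1 - ‖x‖) ^ b * vb b ε with hD
    have hD0 : 0 ≤ D := by positivity
    have h3 : b * T ^ 2 * V ≤ D := by
      have h4 : ((1 - ‖x‖) * ε) ^ 2 ≤ ε ^ 2 := by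
        rw [mul_pow]
        have : (1 - ‖x‖) ^ 2 ≤ 1 := pow_le_one₀ hx2 (by linarith)
        nlinarith [sq_nonneg ε]
      have h5 : ε ^ 2 * (b * T ^ 2 * V) ≤ ε ^ 2 * D := by
        calc ε ^ 2 * (b * T ^ 2 * V) = b * ((ε * T) ^ 2 * V) := by ring
          _ ≤ ((1 - ‖x‖) * ε) ^ 2 * D := h1
          _ ≤ ε ^ 2 * D := mul_le_mul_of_nonneg_right h4 hD0
      exact le_of_mul_le_mul_left h5 (by positivity)
    have h6 : (κ / (2 * K)) ^ 2 ≤ T ^ 2 := pow_le_pow_left₀ (by positivity) hTl 2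
    have h7 : b * (κ / (2 * K)) ^ 2 * V ≤ D := by
      refine le_trans ?_ h3
      gcongr
    have h8 : b * (κ / (2 * K)) ^ 2 = 1 / q := by
      rw [div_pow, hκ2, hq]
      field_simp
      ring
    rw [h8] at h7
    have h9 : V ≤ q * D := by
      rw [one_div, inv_mul_eq_div, div_le_iff₀ hq0] at h7
      linarith
    rw [hD] at h9
    linarith
  -- integration
  have hmeas : MeasurableSet (Om b ε ∩ G) := ((isOpen_Om b ε).inter hG).measurableSet
  have hint : volume (Om b ε ∩ G) ≤ ENNReal.ofReal q * volume (Om b ε) +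
      ENNReal.ofReal (vb b ε) * volume (ball (0 : ℂ) (κ / b)) := by
    have hOm := h7a b ε hb1 hε (fun _ => 1) measurable_const
    rw [setLIntegral_one] at hOm
    rw [hOm, fubini hmeas]
    have e1 : ENNReal.ofReal q * (ENNReal.ofReal (vb b ε) *
        ∫⁻ x in ball (0 : ℂ) 1, 1 * ENNReal.ofReal ((1 - ‖x‖) ^ b)) =
        ∫⁻ x : ℂ, (ball (0 : ℂ) 1).indicator
          (fun x => ENNReal.ofReal (q * (vb b ε * (1 - ‖x‖) ^ b))) x := by
      rw [lintegral_indicator measurableSet_ball, ← mul_assoc, ← lintegral_const_mul]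
      · refine setLIntegral_congr_fun measurableSet_ball (fun x hx => ?_)
        rw [mem_ball_zero_iff] at hx
        simp only [one_mul]
        rw [← ENNReal.ofReal_mul hq0.le, ← ENNReal.ofReal_mul (by positivity), mul_assoc]
      · fun_prop
    have e2 : ENNReal.ofReal (vb b ε) * volume (ball (0 : ℂ) (κ / b)) =
        ∫⁻ x : ℂ, (ball (0 : ℂ) (κ / b)).indicator (fun _ => ENNReal.ofReal (vb b ε)) x := by
      rw [lintegral_indicator measurableSet_ball, setLIntegral_const]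
    rw [e1, e2, ← lintegral_add_right]
    · refine lintegral_mono fun x => ?_
      by_cases hx1 : ‖x‖ < 1
      · by_cases hx2 : ‖x‖ < κ / b
        · refine le_trans ?_ le_add_self
          rw [indicator_of_mem (mem_ball_zero_iff.2 hx2), ← vb_ball]
          refine measure_mono fun y hy => ?_
          have h2 : y ∈ fib (Om b ε) x := hy.1
          rw [fib_Om hε] at h2
          exact ball_subset_ball (by nlinarith [norm_nonneg x]) h2
        · refine le_trans ?_ le_self_add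
          rw [indicator_of_mem (mem_ball_zero_iff.2 hx1)]
          exact hfib x (not_lt.1 hx2) hx1
      · have : fib (Om b ε ∩ G) x = ∅ := by
          rw [eq_empty_iff_forall_notMem]
          intro y hy
          exact hx1 (norm_fst_lt hε hy.1)
        rw [this, measure_empty]
        exact zero_le
    · exact measurable_const.indicator measurableSet_ball
  have h1 := hv.trans hint
  rw [vol_Om h7b hb1 hε, Complex.volume_ball] at h1
  set ω : ℝ := vb b ε * (2 * Real.pi / (((b : ℝ) + 1) * ((b : ℝ) + 2))) with hω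
  have hω0 : 0 < ω := by positivity
  have e3 : ENNReal.ofReal (κ / b) ^ 2 * (NNReal.pi : ℝ≥0∞) =
      ENNReal.ofReal ((κ / b) ^ 2 * Real.pi) := by
    rw [ENNReal.ofReal_mul (by positivity), ENNReal.ofReal_pow (by positivity)]
    congr 1
    rw [← NNReal.coe_real_pi, ENNReal.ofReal_coe_nnreal]
  rw [e3, ← ENNReal.ofReal_mul hc.le, ← ENNReal.ofReal_mul hq0.le, ← ENNReal.ofReal_mul hv0.le,
    ← ENNReal.ofReal_add (by positivity) (by positivity),
    ENNReal.ofReal_le_ofReal_iff (by positivity)] at h1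
  rw [div_pow, hκ2] at h1
  have h2 : vb b ε * (c / 3 / b ^ 2 * Real.pi) ≤ c / 2 * ω := by
    rw [hω]
    have e4 : c / 2 * (vb b ε * (2 * Real.pi / (((b : ℝ) + 1) * ((b : ℝ) + 2)))) =
        vb b ε * (c * Real.pi * (1 / (((b : ℝ) + 1) * ((b : ℝ) + 2)))) := by
      field_simp
    have e5 : vb b ε * (c / 3 / b ^ 2 * Real.pi) =
        vb b ε * (c * Real.pi * (1 / (3 * (b : ℝ) ^ 2))) := by
      field_simp
    rw [e4, e5]
    have h3 : ((b : ℝ) + 1) * ((b : ℝ) + 2) ≤ 3 * (b : ℝ) ^ 2 := by nlinarith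
    have h4 : 1 / (3 * (b : ℝ) ^ 2) ≤ 1 / (((b : ℝ) + 1) * ((b : ℝ) + 2)) :=
      one_div_le_one_div_of_le (by positivity) h3
    have h5 : 0 ≤ c * Real.pi := by positivity
    exact mul_le_mul_of_nonneg_left (mul_le_mul_of_nonneg_left h4 h5) hv0.le
  nlinarith

/-- the fraction -/
noncomputable def Ec (b : ℕ) (c : ℝ) : ℝ :=
  (1 / (2 * (b : ℝ))) ^ (Module.finrank ℝ (W b)) * c / (((b : ℝ) + 1) * ((b : ℝ) + 2))

lemma Ec_pos {b : ℕ} (hb : 1 ≤ b) {c : ℝ} (hc : 0 < c) : 0 < Ec b c := by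
  have hb0 : (0 : ℝ) < b := by exact_mod_cast hb
  unfold Ec
  positivity

/-- Steps 2 and 3: a convex part away from `x = 0` with many large fibres -/
lemma step23 (h7b : S_T7b) {b : ℕ} {c K ε : ℝ} {G : Set (W b)} (hb1 : 1 ≤ b) (hc : 0 < c)
    (hbK : K ≤ b) (hε : 0 < ε) (hG : IsOpen G) (hGc : Convex ℝ G)
    (hv : ENNReal.ofReal c * volume (Om b ε) ≤ volume (Om b ε ∩ G)) (z1 : W b)
    (hz1 : z1 ∈ Om b ε ∩ G) (hz2 : K / b ≤ ‖z1.fst‖) :
    ∃ A : Set (W b), A ⊆ Om b ε ∩ G ∧ Convex ℝ A ∧ (∀ z ∈ A, (K - 1) / b ≤ ‖z.fst‖) ∧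
      ENNReal.ofReal (Real.pi * Ec b c) ≤
        volume {x : ℂ | ENNReal.ofReal (Ec b c * vb b ε) ≤ volume (fib A x)} := by
  have hb0 : (1 : ℝ) ≤ b := by exact_mod_cast hb1
  set s : ℝ := 1 / (2 * (b : ℝ)) with hs
  have hs0 : 0 < s := by positivity
  have hs1 : s ≤ 1 / 2 := by
    rw [hs]
    apply one_div_le_one_div_of_le (by norm_num)
    linarith
  have hE := Ec_pos hb1 hc
  have hv0 := vb_pos (b := b) hε
  have hconv : Convex ℝ (Om b ε ∩ G) := (convex_Om hε).inter hGc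
  have hopen : IsOpen (Om b ε ∩ G) := (isOpen_Om b ε).inter hG
  let A : Set (W b) := AffineMap.homothety z1 s '' (Om b ε ∩ G)
  have hA0 : ∀ z, AffineMap.homothety z1 s z = (1 - s) • z1 + s • z := by
    intro z
    rw [AffineMap.homothety_apply, vsub_eq_sub, vadd_eq_add, smul_sub, sub_smul, one_smul]
    abel
  have hAsub : A ⊆ Om b ε ∩ G := by
    rintro _ ⟨z, hz, rfl⟩
    rw [hA0]
    exact hconv hz1 hz (by linarith) hs0.le (by ring)
  have hAopen : IsOpen A := AffineMap.homothety_isOpenMap z1 s hs0.ne' _ hopen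
  have hAconv : Convex ℝ A := hconv.affine_image _
  refine ⟨A, hAsub, hAconv, ?_, ?_⟩
  · rintro _ ⟨z, hz, rfl⟩
    rw [hA0]
    change _ ≤ ‖(1 - s) • z1.fst + s • z.fst‖
    have h1 := norm_fst_lt hε hz.1
    have h2 : ‖(1 - s) • z1.fst‖ - ‖s • z.fst‖ ≤ ‖(1 - s) • z1.fst + s • z.fst‖ := by
      have h3 := norm_sub_norm_le ((1 - s) • z1.fst) (-(s • z.fst))
      rwa [norm_neg, sub_neg_eq_add] at h3
    refine le_trans ?_ h2
    rw [norm_smul, norm_smul, Real.norm_of_nonneg (by linarith), Real.norm_of_nonneg hs0.le]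
    have h3 : (1 - s) * (K / b) ≤ (1 - s) * ‖z1.fst‖ :=
      mul_le_mul_of_nonneg_left hz2 (by linarith)
    have h4 : s * ‖z.fst‖ ≤ s := by nlinarith [norm_nonneg z.fst]
    have h5 : (K - 1) / b ≤ (1 - s) * (K / b) - s := by
      have e : (1 - s) * (K / b) - s - (K - 1) / b = (b - K) / (2 * b ^ 2) := by
        rw [hs]
        field_simp
        ring
      have h6 : 0 ≤ ((b : ℝ) - K) / (2 * b ^ 2) := by
        apply div_nonneg
        · linarith
        · positivity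
      linarith
    linarith
  · set S : Set ℂ := {x : ℂ | ENNReal.ofReal (Ec b c * vb b ε) ≤ volume (fib A x)} with hS
    have hSm : MeasurableSet S := measurableSet_le measurable_const (fib_vol_meas hAopen.measurableSet)
    have hfibA : ∀ x, fib A x ⊆ fib (Om b ε) x := fun x y hy => (hAsub hy).1
    have hempty : ∀ x : ℂ, ¬ ‖x‖ < 1 → fib A x = ∅ := by
      intro x hx
      rw [eq_empty_iff_forall_notMem]
      intro y hy
      exact hx (norm_fst_lt hε (hfibA x hy))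
    have hSball : S ⊆ ball (0 : ℂ) 1 := by
      intro x hx
      rw [mem_ball_zero_iff]
      by_contra h
      rw [hS, mem_ofPred_eq, hempty x h, measure_empty] at hx
      have : 0 < ENNReal.ofReal (Ec b c * vb b ε) := ENNReal.ofReal_pos.2 (by positivity)
      exact absurd hx (not_le.2 this)
    have hSfin : volume S ≠ ⊤ :=
      ne_top_of_le_ne_top (measure_ball_lt_top (x := (0 : ℂ)) (r := 1)).ne (measure_mono hSball)
    have hvolA : volume A = ENNReal.ofReal (s ^ (Module.finrank ℝ (W b))) *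
        volume (Om b ε ∩ G) := by
      rw [Measure.addHaar_image_homothety, abs_of_nonneg (by positivity)]
    have hup : volume A ≤ ENNReal.ofReal (vb b ε) * volume S +
        ENNReal.ofReal (Ec b c * vb b ε) * volume (ball (0 : ℂ) 1) := by
      rw [fubini hAopen.measurableSet]
      have e1 : ENNReal.ofReal (vb b ε) * volume S =
          ∫⁻ x : ℂ, S.indicator (fun _ => ENNReal.ofReal (vb b ε)) x := by
        rw [lintegral_indicator hSm, setLIntegral_const]
      have e2 : ENNReal.ofReal (Ec b c * vb b ε) * volume (ball (0 : ℂ) 1) =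
          ∫⁻ x : ℂ, (ball (0 : ℂ) 1).indicator (fun _ => ENNReal.ofReal (Ec b c * vb b ε)) x := by
        rw [lintegral_indicator measurableSet_ball, setLIntegral_const]
      rw [e1, e2, ← lintegral_add_right]
      · refine lintegral_mono fun x => ?_
        by_cases hx1 : ‖x‖ < 1
        · by_cases hx2 : x ∈ S
          · refine le_trans ?_ le_self_add
            rw [indicator_of_mem hx2, ← vb_ball]
            refine measure_mono fun y hy => ?_
            have h2 : y ∈ fib (Om b ε) x := hfibA x hy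
            rw [fib_Om hε] at h2
            exact ball_subset_ball (by nlinarith [norm_nonneg x]) h2
          · refine le_trans ?_ le_add_self
            rw [indicator_of_mem (mem_ball_zero_iff.2 hx1)]
            exact (not_le.1 hx2).le
        · rw [hempty x hx1, measure_empty]
          exact zero_le
      · exact measurable_const.indicator measurableSet_ball
    have hlow : ENNReal.ofReal (2 * (Real.pi * Ec b c) * vb b ε) ≤ volume A := by
      rw [hvolA]
      refine le_trans ?_ (mul_le_mul_right hv _)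
      rw [vol_Om h7b hb1 hε, ← ENNReal.ofReal_mul hc.le, ← ENNReal.ofReal_mul (by positivity)]
      apply ENNReal.ofReal_le_ofReal
      apply le_of_eq
      rw [Ec]
      ring
    have h1 := hlow.trans hup
    set g : ℝ := (volume S).toReal with hg
    have hge : volume S = ENNReal.ofReal g := (ENNReal.ofReal_toReal hSfin).symm
    have hg0 : 0 ≤ g := ENNReal.toReal_nonneg
    rw [hge] at h1 ⊢
    have e3 : volume (ball (0 : ℂ) 1) = ENNReal.ofReal Real.pi := by
      rw [Complex.volume_ball, ENNReal.ofReal_one, one_pow, one_mul, ← NNReal.coe_real_pi,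
        ENNReal.ofReal_coe_nnreal]
    rw [e3, ← ENNReal.ofReal_mul hv0.le, ← ENNReal.ofReal_mul (by positivity),
      ← ENNReal.ofReal_add (by positivity) (by positivity),
      ENNReal.ofReal_le_ofReal_iff (by positivity)] at h1
    apply ENNReal.ofReal_le_ofReal
    have h2 : vb b ε * (Real.pi * Ec b c) ≤ vb b ε * g := by nlinarith
    exact le_of_mul_le_mul_left h2 hv0

/-- Step 4: two points spanning a triangle which is not too thin -/
lemma plane1 (S : Set ℂ) (m₀ ρ₀ δ : ℝ) (hm : 0 < m₀) (hρ : 0 < ρ₀) (hδ0 : 0 < δ)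
    (hS : ∀ x ∈ S, ρ₀ ≤ ‖x‖ ∧ ‖x‖ < 1) (hvol : ENNReal.ofReal m₀ ≤ volume S)
    (hδ : 4 * δ / ρ₀ < m₀) :
    ∃ x' ∈ S, ∃ x'' ∈ S, δ ≤ |((starRingEnd ℂ) x' * x'').im| := by
  have hne : S.Nonempty := by
    rcases S.eq_empty_or_nonempty with h | h
    · rw [h, measure_empty] at hvol
      exact absurd hvol (not_le.2 (ENNReal.ofReal_pos.2 hm))
    · exact h
  obtain ⟨x', hx'⟩ := hne
  by_contra hcon
  push Not at hcon
  have h1 := hcon x' hx'
  obtain ⟨hx1, hx2⟩ := hS x' hx'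
  have hx0 : 0 < ‖x'‖ := lt_of_lt_of_le hρ hx1
  let e : ℂ := (starRingEnd ℂ) x' / (‖x'‖ : ℂ)
  have he : ‖e‖ = 1 := by
    change ‖(starRingEnd ℂ) x' / (‖x'‖ : ℂ)‖ = 1
    rw [norm_div, RCLike.norm_conj, Complex.norm_real, norm_norm, div_self hx0.ne']
  let a : Circle := ⟨e, mem_sphere_zero_iff_norm.2 he⟩
  let ρ := rotation a
  have hρa : ∀ z, ρ z = e * z := fun z => rotation_apply a z
  have hmp : MeasurePreserving ρ volume volume := ρ.measurePreserving
  let R : Set ℂ := Complex.measurableEquivRealProd ⁻¹' (Icc (-1 : ℝ) 1 ×ˢ Icc (-(δ / ρ₀)) (δ / ρ₀))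
  have hRm : MeasurableSet R :=
    Complex.measurableEquivRealProd.measurable (measurableSet_Icc.prod measurableSet_Icc)
  have hRvol : volume R = ENNReal.ofReal (4 * δ / ρ₀) := by
    have h2 := Complex.volume_preserving_equiv_real_prod.measure_preimage
      ((measurableSet_Icc (a := (-1 : ℝ)) (b := 1)).prod
        (measurableSet_Icc (a := -(δ / ρ₀)) (b := δ / ρ₀))).nullMeasurableSet
    change volume (Complex.measurableEquivRealProd ⁻¹'
      (Icc (-1 : ℝ) 1 ×ˢ Icc (-(δ / ρ₀)) (δ / ρ₀))) = _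
    rw [h2, Measure.volume_eq_prod, Measure.prod_prod, Real.volume_Icc, Real.volume_Icc,
      ← ENNReal.ofReal_mul (by norm_num)]
    congr 1
    ring
  have hsub : S ⊆ ρ ⁻¹' R := by
    intro x hx
    obtain ⟨h3, h4⟩ := hS x hx
    have h5 := hcon x' hx' x hx
    change ρ x ∈ R
    rw [hρa]
    change ((e * x).re, (e * x).im) ∈ (Icc (-1 : ℝ) 1 ×ˢ Icc (-(δ / ρ₀)) (δ / ρ₀))
    have h6 : |(e * x).re| ≤ 1 := by
      refine (Complex.abs_re_le_norm _).trans ?_
      rw [norm_mul, he, one_mul]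
      exact h4.le
    have h7 : |(e * x).im| ≤ δ / ρ₀ := by
      have e1 : (e * x).im = ((starRingEnd ℂ) x' * x).im / ‖x'‖ := by
        have e2 : e * x = ((starRingEnd ℂ) x' * x) / ((‖x'‖ : ℝ) : ℂ) := by
          change (starRingEnd ℂ) x' / (‖x'‖ : ℂ) * x = _
          ring
        rw [e2, Complex.div_ofReal_im]
      rw [e1, abs_div, abs_norm]
      exact div_le_div₀ hδ0.le h5.le hρ hx1
    exact ⟨⟨(abs_le.1 h6).1, (abs_le.1 h6).2⟩, ⟨(abs_le.1 h7).1, (abs_le.1 h7).2⟩⟩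
  have h8 : volume S ≤ ENNReal.ofReal (4 * δ / ρ₀) := by
    calc volume S ≤ volume (ρ ⁻¹' R) := measure_mono hsub
      _ = volume R := hmp.measure_preimage hRm.nullMeasurableSet
      _ = _ := hRvol
  have h9 := hvol.trans h8
  rw [ENNReal.ofReal_le_ofReal_iff (by positivity)] at h9
  linarith

/-- Step 6: the wedge is covered by the multiples of the segment -/
lemma plane2 (x' x'' : ℂ) (h' : ‖x'‖ ≤ 1) (h'' : ‖x''‖ ≤ 1) {δ ρ₀ σ r₀ : ℝ} (hδ : 0 < δ)
    (hd : δ ≤ |((starRingEnd ℂ) x' * x'').im|) (hρ : 0 < ρ₀)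
    (hseg : ∀ t : ℝ, 0 ≤ t → t ≤ 1 → ρ₀ ≤ ‖(1 - t) • x' + t • x''‖)
    (hσ1 : σ ≤ 1 / 2) (hσ2 : σ ≤ δ / 8) (hr : 0 < r₀) :
    ∃ u : ℂ, ‖u‖ = 1 ∧ ∀ x ∈ Wp u σ r₀ ρ₀, ∃ l t : ℝ, r₀ ≤ l ∧ l ≤ 1 ∧ 0 ≤ t ∧ t ≤ 1 ∧
      x = l • ((1 - t) • x' + t • x'') := by
  set xm : ℂ := (1 - (1 / 2 : ℝ)) • x' + (1 / 2 : ℝ) • x'' with hxm
  have hm0 : ρ₀ ≤ ‖xm‖ := hseg (1 / 2) (by norm_num) (by norm_num)
  set m : ℝ := ‖xm‖ with hm
  have hmpos : 0 < m := lt_of_lt_of_le hρ hm0
  have hm1 : m ≤ 1 := by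
    rw [hm, hxm]
    refine (norm_add_le _ _).trans ?_
    rw [norm_smul, norm_smul, Real.norm_of_nonneg (by norm_num), Real.norm_of_nonneg (by norm_num)]
    linarith
  let u : ℂ := (starRingEnd ℂ) xm / (m : ℂ)
  have hu : ‖u‖ = 1 := by
    change ‖(starRingEnd ℂ) xm / (m : ℂ)‖ = 1
    rw [norm_div, RCLike.norm_conj, Complex.norm_real, Real.norm_of_nonneg hmpos.le, ← hm,
      div_self hmpos.ne']
  have hu0 : u ≠ 0 := by
    intro h
    rw [h, norm_zero] at hu
    exact zero_ne_one hu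
  have hxmu : xm * u = (m : ℂ) := by
    change xm * ((starRingEnd ℂ) xm / (m : ℂ)) = m
    rw [mul_div_assoc', Complex.mul_conj, Complex.normSq_eq_norm_sq, ← hm]
    have : (m : ℂ) ≠ 0 := by exact_mod_cast hmpos.ne'
    push_cast
    field_simp
  -- coordinates
  set p : ℂ := x' * u with hp
  set q : ℂ := x'' * u with hq
  have hpq : p + q = ((2 * m : ℝ) : ℂ) := by
    have h1 : p + q = 2 * (xm * u) := by
      rw [hp, hq, hxm]
      simp only [Complex.real_smul]
      push_cast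
      ring
    rw [h1, hxmu]
    push_cast
    ring
  have hre : p.re + q.re = 2 * m := by
    have h1 := congrArg Complex.re hpq
    rwa [Complex.add_re, Complex.ofReal_re] at h1
  have him : p.im = -q.im := by
    have h1 := congrArg Complex.im hpq
    rw [Complex.add_im, Complex.ofReal_im] at h1
    linarith
  set h : ℝ := q.im with hh
  set β : ℝ := (q.re - p.re) / 2 with hβ
  have hβ1 : |β| ≤ 1 := by
    have h1 : |p.re| ≤ 1 := by
      refine (Complex.abs_re_le_norm _).trans ?_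
      rw [hp, norm_mul, hu, mul_one]
      exact h'
    have h2 : |q.re| ≤ 1 := by
      refine (Complex.abs_re_le_norm _).trans ?_
      rw [hq, norm_mul, hu, mul_one]
      exact h''
    rw [abs_le] at h1 h2 ⊢
    rw [hβ]
    constructor <;> linarith [h1.1, h1.2, h2.1, h2.2]
  have hhδ : δ / 2 ≤ |h| := by
    have h1 : h * m = ((starRingEnd ℂ) x' * x'').im / 2 := by
      have h2 : q * (m : ℂ) = x'' * (starRingEnd ℂ) xm := by
        rw [hq]
        change x'' * ((starRingEnd ℂ) xm / (m : ℂ)) * m = _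
        have : (m : ℂ) ≠ 0 := by exact_mod_cast hmpos.ne'
        field_simp
      have h3 : h * m = (q * (m : ℂ)).im := by
        rw [Complex.im_mul_ofReal]
      rw [h3, h2, hxm]
      simp only [map_add, Complex.real_smul, map_mul, Complex.conj_ofReal]
      simp only [Complex.mul_im, Complex.add_re, Complex.add_im, Complex.mul_re,
        Complex.ofReal_re, Complex.ofReal_im, Complex.conj_re, Complex.conj_im]
      ring
    have h4 : |h| * m = |((starRingEnd ℂ) x' * x'').im| / 2 := by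
      have h6 : |h * m| = |h| * m := by rw [abs_mul, abs_of_pos hmpos]
      rw [← h6, h1, abs_div, abs_two]
    have h5 : |h| * m ≤ |h| := by nlinarith [abs_nonneg h]
    linarith
  have hh0 : h ≠ 0 := by
    intro h0
    rw [h0, abs_zero] at hhδ
    linarith
  refine ⟨u, hu, fun x hx => ?_⟩
  obtain ⟨hx1, hx2, hx3, hx4⟩ := hx
  set X : ℝ := (x * u).re with hX
  set Y : ℝ := (x * u).im with hY
  have hxn : 0 < ‖x‖ := lt_of_lt_of_le hr hx1
  have hXY : X ^ 2 + Y ^ 2 = ‖x‖ ^ 2 := by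
    have h1 : ‖x * u‖ = ‖x‖ := by rw [norm_mul, hu, mul_one]
    rw [← h1, ← Complex.normSq_eq_norm_sq, Complex.normSq_apply]
    ring
  have hY1 : |Y| ≤ ‖x‖ / 2 := by
    refine hx4.trans ?_
    nlinarith
  have hY2 : |Y| ≤ δ / 8 * ‖x‖ := hx4.trans (mul_le_mul_of_nonneg_right hσ2 hxn.le)
  have hX2 : ‖x‖ / 2 ≤ X := by
    have h1 : Y ^ 2 ≤ (‖x‖ / 2) ^ 2 := by
      rw [← sq_abs Y]
      exact pow_le_pow_left₀ (abs_nonneg _) hY1 2
    have h2 : (‖x‖ / 2) ^ 2 ≤ X ^ 2 := by nlinarith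
    exact le_of_sq_le_sq h2 hx3.le
  -- the denominator
  set D : ℝ := h * X - β * Y with hD
  have hhX : δ / 4 * ‖x‖ ≤ |h * X| := by
    rw [abs_mul, abs_of_pos hx3]
    have h1 : δ / 2 * (‖x‖ / 2) ≤ |h| * X := mul_le_mul hhδ hX2 (by positivity) (abs_nonneg _)
    linarith
  have hβY : |β * Y| ≤ δ / 8 * ‖x‖ := by
    rw [abs_mul]
    nlinarith [abs_nonneg β, abs_nonneg Y]
  have hDabs : δ / 8 * ‖x‖ ≤ |D| := by
    have h1 := abs_sub_abs_le_abs_sub (h * X) (β * Y)
    rw [← hD] at h1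
    linarith
  have hD0 : D ≠ 0 := by
    intro h0
    rw [h0, abs_zero] at hDabs
    nlinarith
  have hDh : 0 < D / h := by
    have h1 : D / h = X - β * Y / h := by
      rw [hD]
      field_simp
    have h2 : |β * Y / h| < X := by
      rw [abs_div, div_lt_iff₀ (abs_pos.2 hh0)]
      have h3 : |h * X| = X * |h| := by rw [abs_mul, abs_of_pos hx3, mul_comm]
      rw [← h3]
      nlinarith
    rw [h1]
    linarith [(abs_lt.1 h2).2]
  set τ : ℝ := m * Y / D with hτ
  have hτ1 : |τ| ≤ 1 := by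
    rw [hτ, abs_div, abs_mul, abs_of_pos hmpos, div_le_one (abs_pos.2 hD0)]
    nlinarith [abs_nonneg Y]
  set l : ℝ := D / h / m with hl
  have hl0 : 0 < l := div_pos hDh hmpos
  obtain ⟨hτa, hτb⟩ := abs_le.1 hτ1
  have hxeq : x = l • ((1 - (1 + τ) / 2) • x' + ((1 + τ) / 2) • x'') := by
    apply mul_right_cancel₀ hu0
    have e1 : l • ((1 - (1 + τ) / 2) • x' + ((1 + τ) / 2) • x'') * u =
        (l : ℂ) * (((1 - (1 + τ) / 2 : ℝ) : ℂ) * p + (((1 + τ) / 2 : ℝ) : ℂ) * q) := by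
      rw [hp, hq]
      simp only [Complex.real_smul]
      ring
    rw [e1]
    have hl1 : l * (m + τ * β) = X := by
      rw [hl, hτ]
      field_simp
      rw [hD]
      ring
    have hl2 : l * (τ * h) = Y := by
      rw [hl, hτ]
      field_simp
    apply Complex.ext
    · rw [Complex.re_ofReal_mul, Complex.add_re, Complex.re_ofReal_mul, Complex.re_ofReal_mul,
        ← hX, ← hl1]
      have e2 : m + τ * β = (1 - (1 + τ) / 2) * p.re + (1 + τ) / 2 * q.re := by
        rw [hβ]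
        linear_combination (-1 / 2 : ℝ) * hre
      rw [e2]
    · rw [Complex.im_ofReal_mul, Complex.add_im, Complex.im_ofReal_mul, Complex.im_ofReal_mul,
        ← hY, ← hl2, him]
      ring
  have ht0 : 0 ≤ (1 + τ) / 2 := by linarith
  have ht1 : (1 + τ) / 2 ≤ 1 := by linarith
  have hnorm : ‖x‖ = l * ‖(1 - (1 + τ) / 2) • x' + ((1 + τ) / 2) • x''‖ := by
    conv_lhs => rw [hxeq]
    rw [norm_smul, Real.norm_of_nonneg hl0.le]
  have hs1 := hseg _ ht0 ht1
  have hs2 : ‖(1 - (1 + τ) / 2) • x' + ((1 + τ) / 2) • x''‖ ≤ 1 := by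
    refine (norm_add_le _ _).trans ?_
    rw [norm_smul, norm_smul, Real.norm_of_nonneg (by linarith), Real.norm_of_nonneg ht0]
    nlinarith
  refine ⟨l, (1 + τ) / 2, ?_, ?_, ht0, ht1, hxeq⟩
  · nlinarith
  · by_contra hcon
    push Not at hcon
    have h1 : ‖(1 - (1 + τ) / 2) • x' + ((1 + τ) / 2) • x''‖ <
        l * ‖(1 - (1 + τ) / 2) • x' + ((1 + τ) / 2) • x''‖ := by
      have h2 : 0 < ‖(1 - (1 + τ) / 2) • x' + ((1 + τ) / 2) • x''‖ := lt_of_lt_of_le hρ hs1
      nlinarith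
    linarith

/-- Step 5: the fibres over a segment -/
lemma segment_fib {b : ℕ} {A : Set (W b)} (hA : Convex ℝ A) {x' x'' : ℂ} {V : ℝ≥0∞}
    (h1 : V ≤ volume (fib A x')) (h2 : (fib A x'').Nonempty) {t : ℝ} (ht0 : 0 ≤ t)
    (ht : t ≤ 1 / 2) :
    ENNReal.ofReal ((1 / 2) ^ b) * V ≤ volume (fib A ((1 - t) • x' + t • x'')) := by
  obtain ⟨y'', hy''⟩ := h2
  have h3 : (fun y => t • y'' + (1 - t) • y) '' (fib A x') ⊆
      fib A ((1 - t) • x' + t • x'') := by
    rintro _ ⟨y, hy, rfl⟩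
    have h4 := hA hy hy'' (by linarith : (0 : ℝ) ≤ 1 - t) ht0 (by ring)
    have e : (1 - t) • (WithLp.toLp 2 (x', y) : W b) + t • (WithLp.toLp 2 (x'', y'') : W b) =
        WithLp.toLp 2 ((1 - t) • x' + t • x'', t • y'' + (1 - t) • y) := by
      rw [← WithLp.toLp_smul, ← WithLp.toLp_smul, ← WithLp.toLp_add, Prod.smul_mk, Prod.smul_mk,
        Prod.mk_add_mk, add_comm (t • y'')]
    rw [e] at h4
    exact h4
  refine le_trans ?_ (measure_mono h3)
  rw [vol_affine (by linarith)]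
  exact mul_le_mul' (ENNReal.ofReal_le_ofReal
    (pow_le_pow_left₀ (by norm_num) (by linarith) b)) h1

/-- the fibres over multiples -/
lemma scale_fib {b : ℕ} {ε : ℝ} {G : Set (W b)} (hε : 0 < ε)
    (hG1 : ∀ z ∈ G, ∀ t : ℝ, 0 < t → t • z ∈ G) {x : ℂ} {l : ℝ} (hl0 : 0 < l) (hl1 : l ≤ 1) :
    ENNReal.ofReal (l ^ b) * volume (fib (Om b ε ∩ G) x) ≤
      volume (fib (Om b ε ∩ G) (l • x)) := by
  have h3 : (fun y => (0 : B b) + l • y) '' (fib (Om b ε ∩ G) x) ⊆
      fib (Om b ε ∩ G) (l • x) := by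
    rintro _ ⟨y, hy, rfl⟩
    have e : (WithLp.toLp 2 (l • x, (0 : B b) + l • y) : W b) =
        l • (WithLp.toLp 2 (x, y) : W b) := by
      rw [zero_add]
      rfl
    change (WithLp.toLp 2 (l • x, (0 : B b) + l • y) : W b) ∈ Om b ε ∩ G
    rw [e]
    refine ⟨?_, hG1 _ hy.2 l hl0⟩
    have h4 : ‖x‖ + ‖y‖ / ε < 1 := hy.1
    change ‖l • x‖ + ‖l • y‖ / ε < 1
    rw [norm_smul, norm_smul, Real.norm_of_nonneg hl0.le]
    have h5 : 0 ≤ ‖x‖ + ‖y‖ / ε := by positivity
    have e2 : l * ‖x‖ + l * ‖y‖ / ε = l * (‖x‖ + ‖y‖ / ε) := by ring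
    rw [e2]
    nlinarith
  refine le_trans ?_ (measure_mono h3)
  rw [vol_affine hl0.le]

end Pool.Agent.TH703.Cone.Geo

namespace Pool.Agent.TH703.Cone

open MeasureTheory Set Metric
open scoped ENNReal

theorem t6 (h7a : S_T7a) (h7b : S_T7b) : S_T6 := by
  intro b c K r₀ hc hc1 hK hb hr
  have hK0 : 0 < K := by linarith
  have hbK : 24 * K ^ 2 < b * c ^ 2 := by
    rwa [div_lt_iff₀ (by positivity)] at hb
  have hbn : (0 : ℝ) ≤ b := Nat.cast_nonneg b
  have hb48 : 24 * K ^ 2 < b := by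
    have : c ^ 2 ≤ 1 := pow_le_one₀ hc.le hc1
    nlinarith
  have hKb : K ≤ b := by nlinarith
  have hb1r : (1 : ℝ) ≤ b := by linarith
  have hb1 : 1 ≤ b := by exact_mod_cast hb1r
  have hb0 : (0 : ℝ) < b := by linarith
  set ρ₀ : ℝ := (K - 1) / b with hρ
  have hρ0 : 0 < ρ₀ := div_pos (by linarith) hb0
  have hE := Geo.Ec_pos hb1 hc
  set m₀ : ℝ := Real.pi * Geo.Ec b c with hm
  have hm0 : 0 < m₀ := by positivity
  set δ : ℝ := m₀ * ρ₀ / 8 with hδ
  have hδ0 : 0 < δ := by positivity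
  have hδ1 : 4 * δ / ρ₀ < m₀ := by
    rw [div_lt_iff₀ hρ0, hδ]
    nlinarith [mul_pos hm0 hρ0]
  refine ⟨min (1 / 2) (δ / 8), r₀ ^ b * (1 / 2) ^ b * Geo.Ec b c, by positivity, min_le_left _ _,
    by positivity, ?_⟩
  intro ε G hε hG hG1 hG2 hv
  have hGc := Geo.convex_cone hG1 hG2
  obtain ⟨z1, hz1, hz2⟩ := Geo.step1 h7a h7b hc hc1 hK hb hε hG hG1 hG2 hv
  obtain ⟨A, hAsub, hAconv, hAfar, hAvol⟩ := Geo.step23 h7b hb1 hc hKb hε hG hGc hv z1 hz1 hz2
  have hv0 := Geo.vb_pos (b := b) hε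
  have hV : 0 < ENNReal.ofReal (Geo.Ec b c * vb b ε) := ENNReal.ofReal_pos.2 (by positivity)
  have hfibne : ∀ x : ℂ, ENNReal.ofReal (Geo.Ec b c * vb b ε) ≤ volume (fib A x) →
      (fib A x).Nonempty := by
    intro x hx
    rcases (fib A x).eq_empty_or_nonempty with h | h
    · rw [h, measure_empty] at hx
      exact absurd hx (not_le.2 hV)
    · exact h
  have hfar : ∀ x : ℂ, (fib A x).Nonempty → ρ₀ ≤ ‖x‖ ∧ ‖x‖ < 1 := by
    rintro x ⟨y, hy⟩
    exact ⟨hAfar _ hy, Geo.norm_fst_lt hε (hAsub hy).1⟩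
  obtain ⟨x', hx', x'', hx'', hd⟩ := Geo.plane1 _ m₀ ρ₀ δ hm0 hρ0 hδ0
    (fun x hx => hfar x (hfibne x hx)) hAvol hδ1
  have hx'' : ENNReal.ofReal (Geo.Ec b c * vb b ε) ≤ volume (fib A x'') := hx''
  have hx' : ENNReal.ofReal (Geo.Ec b c * vb b ε) ≤ volume (fib A x') := hx'
  have hseg : ∀ t : ℝ, 0 ≤ t → t ≤ 1 → ENNReal.ofReal ((1 / 2) ^ b) *
      ENNReal.ofReal (Geo.Ec b c * vb b ε) ≤ volume (fib A ((1 - t) • x' + t • x'')) := by
    intro t ht0 ht1
    rcases le_total t (1 / 2) with h | h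
    · exact Geo.segment_fib hAconv hx' (hfibne _ hx'') ht0 h
    · have h1 := Geo.segment_fib hAconv hx'' (hfibne _ hx') (t := 1 - t) (by linarith) (by linarith)
      have e : (1 - (1 - t)) • x'' + (1 - t) • x' = (1 - t) • x' + t • x'' := by
        rw [sub_sub_cancel, add_comm]
      rwa [e] at h1
  have hVpos : 0 < ENNReal.ofReal ((1 / 2) ^ b) * ENNReal.ofReal (Geo.Ec b c * vb b ε) :=
    ENNReal.mul_pos (ENNReal.ofReal_pos.2 (by positivity)).ne' hV.ne'
  have hsegn : ∀ t : ℝ, 0 ≤ t → t ≤ 1 → ρ₀ ≤ ‖(1 - t) • x' + t • x''‖ := by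
    intro t ht0 ht1
    refine (hfar _ ?_).1
    rcases (fib A ((1 - t) • x' + t • x'')).eq_empty_or_nonempty with h | h
    · have h1 := hseg t ht0 ht1
      rw [h, measure_empty] at h1
      exact absurd h1 (not_le.2 hVpos)
    · exact h
  obtain ⟨u, hu, hcov⟩ := Geo.plane2 x' x'' (hfar _ (hfibne _ hx')).2.le
    (hfar _ (hfibne _ hx'')).2.le hδ0 hd hρ0 hsegn (σ := min (1 / 2) (δ / 8))
    (min_le_left _ _) (min_le_right _ _) hr
  refine ⟨u, hu, fun x hx => ?_⟩
  obtain ⟨l, t, hl0, hl1, ht0, ht1, hxe⟩ := hcov x hx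
  rw [hxe]
  have hlpos : 0 < l := lt_of_lt_of_le hr hl0
  refine le_trans ?_ (Geo.scale_fib hε hG1 hlpos hl1)
  have h1 : ENNReal.ofReal ((1 / 2) ^ b) * ENNReal.ofReal (Geo.Ec b c * vb b ε) ≤
      volume (fib (Om b ε ∩ G) ((1 - t) • x' + t • x'')) :=
    (hseg t ht0 ht1).trans (measure_mono fun y hy => hAsub hy)
  refine le_trans ?_ (mul_le_mul' (ENNReal.ofReal_le_ofReal (pow_le_pow_left₀ hr.le hl0 b)) h1)
  rw [← ENNReal.ofReal_mul (by positivity), ← ENNReal.ofReal_mul (by positivity)]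
  apply ENNReal.ofReal_le_ofReal
  apply le_of_eq
  ring

end Pool.Agent.TH703.Cone
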