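import Pool.Agent.TH703.Cone.Stm

set_option autoImplicit false

/-!
# T4: lower bound by the rotational field
-/

namespace Pool.Agent.TH703.Cone.Rot

open MeasureTheory Set Metric Filter Topology
open scoped ENNReal

/-! ### the profile -/

/-- derivative of the profile -/
noncomputable def pp (t : ℝ) : ℝ := 3 / 2 * max 0 (1 - t ^ 2)

lemma pp_cont : Continuous pp := by
  unfold pp
  fun_prop

lemma pp_nonneg (t : ℝ) : 0 ≤ pp t := by
  unfold pp
  have := le_max_left 0 (1 - t ^ 2)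
  linarith

lemma pp_le (t : ℝ) : pp t ≤ 3 / 2 := by
  unfold pp
  have : max 0 (1 - t ^ 2) ≤ 1 := max_le zero_le_one (by nlinarith)
  linarith

lemma pp_zero {t : ℝ} (ht : 1 ≤ |t|) : pp t = 0 := by
  unfold pp
  have h1 : 1 ≤ t ^ 2 := by
    rw [← sq_abs]
    nlinarith
  rw [max_eq_left (by linarith), mul_zero]

lemma pp_neg (t : ℝ) : pp (-t) = pp t := by
  unfold pp
  rw [neg_sq]

/-- the profile -/
noncomputable def SS (t : ℝ) : ℝ := ∫ s in (0 : ℝ)..t, pp s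

lemma SS_hasDerivAt (t : ℝ) : HasDerivAt SS (pp t) t :=
  intervalIntegral.integral_hasDerivAt_right (pp_cont.intervalIntegrable _ _)
    (pp_cont.stronglyMeasurableAtFilter _ _) pp_cont.continuousAt

lemma SS_contDiff : ContDiff ℝ 1 SS := by
  rw [contDiff_one_iff_deriv]
  refine ⟨fun t => (SS_hasDerivAt t).differentiableAt, ?_⟩
  have h : deriv SS = pp := funext fun t => (SS_hasDerivAt t).deriv
  rw [h]
  exact pp_cont

lemma SS_mono : Monotone SS :=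
  monotone_of_deriv_nonneg (fun t => (SS_hasDerivAt t).differentiableAt)
    (fun t => by rw [(SS_hasDerivAt t).deriv]; exact pp_nonneg t)

lemma SS_odd (t : ℝ) : SS (-t) = - SS t := by
  unfold SS
  have h := intervalIntegral.integral_comp_neg (a := 0) (b := t) (f := pp)
  simp only [pp_neg, neg_zero] at h
  rw [h, intervalIntegral.integral_symm]

lemma SS_one : SS 1 = 1 := by
  unfold SS
  have h : ∫ s in (0 : ℝ)..1, pp s = ∫ s in (0 : ℝ)..1, (3 / 2 - 3 / 2 * s ^ 2) := by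
    refine intervalIntegral.integral_congr fun s hs => ?_
    rw [uIcc_of_le zero_le_one] at hs
    unfold pp
    rw [max_eq_right (by nlinarith [hs.1, hs.2])]
    ring
  rw [h, intervalIntegral.integral_sub
    (Continuous.intervalIntegrable (by fun_prop) _ _)
    (Continuous.intervalIntegrable (by fun_prop) _ _),
    intervalIntegral.integral_const_mul, integral_pow]
  simp
  norm_num

lemma SS_of_one_le {t : ℝ} (ht : 1 ≤ t) : SS t = 1 := by
  have h1 : SS t = SS 1 + ∫ s in (1 : ℝ)..t, pp s := by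
    unfold SS
    rw [intervalIntegral.integral_add_adjacent_intervals (pp_cont.intervalIntegrable _ _)
      (pp_cont.intervalIntegrable _ _)]
  have h2 : ∫ s in (1 : ℝ)..t, pp s = ∫ s in (1 : ℝ)..t, (0 : ℝ) := by
    refine intervalIntegral.integral_congr fun s hs => ?_
    rw [uIcc_of_le ht] at hs
    exact pp_zero (le_trans hs.1 (le_abs_self s))
  rw [h1, h2, SS_one]
  simp

lemma SS_abs (t : ℝ) : |SS t| ≤ 1 := by
  have h1 : SS t ≤ 1 := by
    rw [← SS_of_one_le (le_max_left 1 t)]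
    exact SS_mono (le_max_right _ _)
  have h2 : -1 ≤ SS t := by
    have h3 : SS (-t) ≤ 1 := by
      rw [← SS_of_one_le (le_max_left 1 (-t))]
      exact SS_mono (le_max_right _ _)
    rw [SS_odd] at h3
    linarith
  exact abs_le.2 ⟨h2, h1⟩

/-! ### the rotation field -/

variable {b : ℕ}

/-- linear field -/
noncomputable def Jl (b : ℕ) : W b →ₗ[ℝ] W b where
  toFun z := WithLp.toLp 2 (Complex.I * z.fst, 0)
  map_add' z w := by
    change WithLp.toLp 2 (Complex.I * (z.fst + w.fst), 0) = _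
    rw [← WithLp.toLp_add, mul_add, Prod.mk_add_mk, add_zero]
  map_smul' r z := by
    change WithLp.toLp 2 (Complex.I * (r • z.fst), 0) = r • _
    rw [← WithLp.toLp_smul, Prod.smul_mk, smul_zero, mul_smul_comm]

/-- linear field -/
noncomputable def J (b : ℕ) : W b →L[ℝ] W b := LinearMap.toContinuousLinearMap (Jl b)

lemma J_apply (z : W b) : J b z = WithLp.toLp 2 (Complex.I * z.fst, 0) := rfl

lemma J_norm (z : W b) : ‖J b z‖ = ‖z.fst‖ := by
  rw [J_apply]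
  have h := WithLp.prod_norm_sq_eq_of_L2 (WithLp.toLp 2 (Complex.I * z.fst, (0 : B b)) : W b)
  change _ = ‖Complex.I * z.fst‖ ^ 2 + ‖(0 : B b)‖ ^ 2 at h
  rw [norm_mul, Complex.norm_I, one_mul, norm_zero] at h
  have h2 : ‖(WithLp.toLp 2 (Complex.I * z.fst, (0 : B b)) : W b)‖ ^ 2 = ‖z.fst‖ ^ 2 := by
    rw [h]; ring
  exact (sq_eq_sq₀ (norm_nonneg _) (norm_nonneg _)).1 h2

lemma J_trace : LinearMap.trace ℝ (W b) (J b).toLinearMap = 0 := by
  rw [LinearMap.trace_eq_sum_inner _ (stdOrthonormalBasis ℝ (W b))]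
  refine Finset.sum_eq_zero fun i _ => ?_
  generalize (stdOrthonormalBasis ℝ (W b)) i = z
  change inner ℝ z (J b z) = 0
  rw [J_apply, WithLp.prod_inner_apply]
  simp [Complex.inner]
  ring

/-- rotation -/
noncomputable def Rt (z : W b) (θ : ℝ) : W b :=
  WithLp.toLp 2 (Complex.exp (θ * Complex.I) * z.fst, z.snd)

lemma Rt_zero (z : W b) : Rt z 0 = z := by
  unfold Rt
  rw [Complex.ofReal_zero, zero_mul, Complex.exp_zero, one_mul]
  rfl

lemma Rt_fst (z : W b) (θ : ℝ) : (Rt z θ).fst = Complex.exp (θ * Complex.I) * z.fst := rfl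
lemma Rt_snd (z : W b) (θ : ℝ) : (Rt z θ).snd = z.snd := rfl

lemma exp_hasDerivAt : HasDerivAt (fun θ : ℝ => Complex.exp (θ * Complex.I)) Complex.I 0 := by
  have h1 : HasDerivAt (fun θ : ℝ => (θ : ℂ) * Complex.I) (1 * Complex.I) 0 :=
    (Complex.ofRealCLM.hasDerivAt (x := (0 : ℝ))).mul_const Complex.I
  have h2 := h1.cexp
  simpa using h2

lemma Rt_hasDerivAt (z : W b) : HasDerivAt (Rt z) (J b z) 0 := by
  have h1 : HasDerivAt (fun θ : ℝ => (Complex.exp (θ * Complex.I) * z.fst, z.snd))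
      ((Complex.I * z.fst, (0 : B b))) 0 :=
    (exp_hasDerivAt.mul_const z.fst).prodMk (hasDerivAt_const _ _)
  have h2 := ((WithLp.prodContinuousLinearEquiv 2 ℝ ℂ (B b)).symm.toContinuousLinearMap).hasFDerivAt.comp_hasDerivAt (0 : ℝ) h1
  exact h2

/-- divergence of a multiple of the rotation field -/
lemma dv_smul {g : W b → ℝ} (z : W b) (hg : DifferentiableAt ℝ g z) :
    dv (fun z => g z • J b z) z = fderiv ℝ g z (J b z) := by
  unfold dv
  have h := hg.hasFDerivAt.smul (J b).hasFDerivAt (x := z)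
  have h' : fderiv ℝ (fun z => g z • J b z) z = g z • J b + (fderiv ℝ g z).smulRight (J b z) :=
    h.fderiv
  rw [h']
  have h2 : (g z • J b + (fderiv ℝ g z).smulRight (J b z)).toLinearMap
      = g z • (J b).toLinearMap + ((fderiv ℝ g z).toLinearMap).smulRight (J b z) := rfl
  rw [h2, map_add, map_smul, J_trace, LinearMap.trace_smulRight, smul_zero, zero_add]
  rfl

/-! ### cutoffs -/

/-- radial cutoff -/
noncomputable def et (r₀ R₁ : ℝ) (n : ℕ) (t : ℝ) : ℝ :=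
  Real.smoothTransition (n * (t - r₀)) * Real.smoothTransition (n * (R₁ - t))

lemma et_contDiff (r₀ R₁ : ℝ) (n : ℕ) : ContDiff ℝ 1 (et r₀ R₁ n) := by
  unfold et
  exact (Real.smoothTransition.contDiff.comp (by fun_prop)).mul
    (Real.smoothTransition.contDiff.comp (by fun_prop))

lemma et_nonneg (r₀ R₁ : ℝ) (n : ℕ) (t : ℝ) : 0 ≤ et r₀ R₁ n t :=
  mul_nonneg (Real.smoothTransition.nonneg _) (Real.smoothTransition.nonneg _)

lemma et_le_one (r₀ R₁ : ℝ) (n : ℕ) (t : ℝ) : et r₀ R₁ n t ≤ 1 :=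
  mul_le_one₀ (Real.smoothTransition.le_one _) (Real.smoothTransition.nonneg _)
    (Real.smoothTransition.le_one _)

lemma et_left {r₀ R₁ : ℝ} (n : ℕ) {t : ℝ} (h : t ≤ r₀) : et r₀ R₁ n t = 0 := by
  unfold et
  rw [Real.smoothTransition.zero_of_nonpos, zero_mul]
  exact mul_nonpos_of_nonneg_of_nonpos (Nat.cast_nonneg _) (by linarith)

lemma et_right {r₀ R₁ : ℝ} (n : ℕ) {t : ℝ} (h : R₁ ≤ t) : et r₀ R₁ n t = 0 := by
  unfold et
  rw [Real.smoothTransition.zero_of_nonpos (x := n * (R₁ - t)), mul_zero]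
  exact mul_nonpos_of_nonneg_of_nonpos (Nat.cast_nonneg _) (by linarith)

lemma ev_ge {δ : ℝ} (hδ : 0 < δ) (c : ℝ) : ∀ᶠ n : ℕ in atTop, c ≤ n * δ :=
  (tendsto_natCast_atTop_atTop.atTop_mul_const hδ).eventually_ge_atTop c

lemma et_tendsto (r₀ R₁ t : ℝ) :
    Tendsto (fun n => et r₀ R₁ n t) atTop (𝓝 (if r₀ < t ∧ t < R₁ then 1 else 0)) := by
  refine tendsto_const_nhds.congr' ?_
  split_ifs with h
  · filter_upwards [ev_ge (sub_pos.2 h.1) 1, ev_ge (sub_pos.2 h.2) 1] with n h1 h2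
    unfold et
    rw [Real.smoothTransition.one_of_one_le h1, Real.smoothTransition.one_of_one_le h2, mul_one]
  · refine Filter.Eventually.of_forall fun n => ?_
    rcases le_or_gt t r₀ with h1 | h1
    · exact (et_left n h1).symm
    · exact (et_right n (not_lt.1 fun h2 => h ⟨h1, h2⟩)).symm

/-- regularised gauge -/
noncomputable def qq (ε : ℝ) (n : ℕ) (z : W b) : ℝ :=
  √(‖z.fst‖ ^ 2 + (1 / ((n : ℝ) + 1)) ^ 2) + √(‖z.snd‖ ^ 2 / ε ^ 2 + (1 / ((n : ℝ) + 1)) ^ 2)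

/-- cutoff -/
noncomputable def ch (ε : ℝ) (n : ℕ) (z : W b) : ℝ :=
  Real.smoothTransition (((n : ℝ) + 1) * (1 - qq ε n z) - 1)

lemma sq_bd {a d : ℝ} (ha : 0 ≤ a) (hd : 0 ≤ d) : a ≤ √(a ^ 2 + d ^ 2) ∧ √(a ^ 2 + d ^ 2) ≤ a + d := by
  constructor
  · exact Real.le_sqrt_of_sq_le (by nlinarith)
  · rw [Real.sqrt_le_left (by linarith)]
    nlinarith [mul_nonneg ha hd]

lemma qq_bd {ε : ℝ} (hε : 0 < ε) (n : ℕ) (z : W b) :
    ‖z.fst‖ + ‖z.snd‖ / ε ≤ qq ε n z ∧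
      qq ε n z ≤ ‖z.fst‖ + ‖z.snd‖ / ε + 2 * (1 / ((n : ℝ) + 1)) := by
  unfold qq
  rw [← div_pow]
  have hd : 0 ≤ 1 / ((n : ℝ) + 1) := by positivity
  have h1 := sq_bd (norm_nonneg z.fst) hd
  have h2 := sq_bd (div_nonneg (norm_nonneg z.snd) hε.le) hd
  constructor <;> linarith [h1.1, h1.2, h2.1, h2.2]

lemma fst_contDiff : ContDiff ℝ 1 (fun z : W b => z.fst) :=
  (WithLp.fstL 2 ℝ ℂ (B b)).contDiff

lemma snd_contDiff : ContDiff ℝ 1 (fun z : W b => z.snd) :=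
  (WithLp.sndL 2 ℝ ℂ (B b)).contDiff

lemma qq_contDiff (ε : ℝ) (n : ℕ) : ContDiff ℝ 1 (qq (b := b) ε n) := by
  unfold qq
  have hd : 0 < (1 / ((n : ℝ) + 1)) ^ 2 := by positivity
  refine ContDiff.add (ContDiff.sqrt ?_ fun z => ?_) (ContDiff.sqrt ?_ fun z => ?_)
  · exact (fst_contDiff.norm_sq ℝ).add contDiff_const
  · positivity
  · exact ((snd_contDiff.norm_sq ℝ).div_const _).add contDiff_const
  · positivity

lemma ch_contDiff (ε : ℝ) (n : ℕ) : ContDiff ℝ 1 (ch (b := b) ε n) := by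
  unfold ch
  have := qq_contDiff (b := b) ε n
  exact Real.smoothTransition.contDiff.comp (by fun_prop)

lemma ch_nonneg (ε : ℝ) (n : ℕ) (z : W b) : 0 ≤ ch ε n z := Real.smoothTransition.nonneg _
lemma ch_le_one (ε : ℝ) (n : ℕ) (z : W b) : ch ε n z ≤ 1 := Real.smoothTransition.le_one _

lemma ch_tendsto {ε : ℝ} (hε : 0 < ε) (z : W b) (hz : z ∈ Om b ε) :
    Tendsto (fun n => ch ε n z) atTop (𝓝 1) := by
  refine tendsto_const_nhds.congr' ?_
  have hz' : ‖z.fst‖ + ‖z.snd‖ / ε < 1 := hz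
  filter_upwards [ev_ge (sub_pos.2 hz') 4] with n hn
  unfold ch
  rw [Real.smoothTransition.one_of_one_le]
  have h1 := (qq_bd hε n z).2
  have h2 : ((n : ℝ) + 1) * (1 / ((n : ℝ) + 1)) = 1 := by
    field_simp
  have hn0 : (0 : ℝ) ≤ n := Nat.cast_nonneg n
  have h3 : ((n : ℝ) + 1) * qq ε n z ≤
      ((n : ℝ) + 1) * (‖z.fst‖ + ‖z.snd‖ / ε + 2 * (1 / ((n : ℝ) + 1))) :=
    mul_le_mul_of_nonneg_left h1 (by linarith)
  have h4 : 0 < 1 - (‖z.fst‖ + ‖z.snd‖ / ε) := sub_pos.2 hz'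
  nlinarith

lemma Om_bdd {ε : ℝ} (hε : 0 < ε) : Bornology.IsBounded (Om b ε) := by
  refine (Metric.isBounded_closedBall (x := (0 : W b)) (r := 1 + ε)).subset fun z hz => ?_
  have hz' : ‖z.fst‖ + ‖z.snd‖ / ε < 1 := hz
  rw [mem_closedBall_zero_iff]
  have h1 := WithLp.prod_norm_sq_eq_of_L2 z
  have h2 : ‖z.fst‖ ≤ 1 := by
    have : 0 ≤ ‖z.snd‖ / ε := div_nonneg (norm_nonneg _) hε.le
    linarith
  have h3 : ‖z.snd‖ ≤ ε := by
    have : ‖z.snd‖ / ε ≤ 1 := by linarith [norm_nonneg z.fst]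
    rwa [div_le_one hε] at this
  have h4 : ‖z‖ ^ 2 ≤ (1 + ε) ^ 2 := by
    change ‖z‖ ^ 2 = ‖z.fst‖ ^ 2 + ‖z.snd‖ ^ 2 at h1
    rw [h1]
    nlinarith [norm_nonneg z.fst, norm_nonneg z.snd]
  exact (sq_le_sq₀ (norm_nonneg _) (by linarith)).1 h4

lemma Om_open (b : ℕ) (ε : ℝ) : IsOpen (Om b ε) := by
  have h : Continuous fun z : W b => ‖z.fst‖ + ‖z.snd‖ / ε := by
    have h1 : Continuous fun z : W b => z.fst := fst_contDiff.continuous
    have h2 : Continuous fun z : W b => z.snd := snd_contDiff.continuous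
    fun_prop
  exact isOpen_lt h continuous_const

lemma Om_lt_top {ε : ℝ} (hε : 0 < ε) : volume (Om b ε) < ∞ := (Om_bdd hε).measure_lt_top

/-- compact set which supports `ch` -/
def Kn (b : ℕ) (ε : ℝ) (n : ℕ) : Set (W b) := {z | qq ε n z ≤ 1 - 1 / ((n : ℝ) + 1)}

lemma Kn_sub {ε : ℝ} (hε : 0 < ε) (n : ℕ) : Kn b ε n ⊆ Om b ε := by
  intro z hz
  have hz' : qq ε n z ≤ 1 - 1 / ((n : ℝ) + 1) := hz
  change ‖z.fst‖ + ‖z.snd‖ / ε < 1
  have h1 := (qq_bd hε n z).1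
  have h2 : 0 < 1 / ((n : ℝ) + 1) := by positivity
  linarith

lemma Kn_closed (ε : ℝ) (n : ℕ) : IsClosed (Kn b ε n) :=
  isClosed_le (qq_contDiff ε n).continuous continuous_const

lemma Kn_compact {ε : ℝ} (hε : 0 < ε) (n : ℕ) : IsCompact (Kn b ε n) :=
  Metric.isCompact_of_isClosed_isBounded (Kn_closed ε n) ((Om_bdd hε).subset (Kn_sub hε n))

lemma ch_supp (ε : ℝ) (n : ℕ) (z : W b) (hz : z ∉ Kn b ε n) : ch ε n z = 0 := by
  have hz' : 1 - 1 / ((n : ℝ) + 1) < qq ε n z := not_le.1 hz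
  unfold ch
  apply Real.smoothTransition.zero_of_nonpos
  have h2 : ((n : ℝ) + 1) * (1 / ((n : ℝ) + 1)) = 1 := by
    field_simp
  have hn0 : (0 : ℝ) < (n : ℝ) + 1 := by positivity
  have h3 := mul_lt_mul_of_pos_left hz' hn0
  linarith

/-! ### the test field -/

/-- angular factor -/
noncomputable def mm (u : ℂ) (σ r₀ R₁ : ℝ) (n : ℕ) (x : ℂ) : ℝ :=
  et r₀ R₁ n ‖x‖ / ‖x‖ * SS ((x * u).im / ‖x‖ / σ)

lemma mm_contDiff (u : ℂ) (σ : ℝ) {r₀ : ℝ} (R₁ : ℝ) (hr : 0 < r₀) (n : ℕ) :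
    ContDiff ℝ 1 (mm u σ r₀ R₁ n) := by
  rw [contDiff_iff_contDiffAt]
  intro x
  by_cases hx : x = 0
  · subst hx
    refine (contDiffAt_const (c := (0 : ℝ))).congr_of_eventuallyEq ?_
    have h1 : ∀ᶠ x : ℂ in 𝓝 0, ‖x‖ < r₀ := by
      have : Tendsto (fun x : ℂ => ‖x‖) (𝓝 0) (𝓝 0) := by
        simpa using (continuous_norm.tendsto (0 : ℂ))
      exact this.eventually_lt_const hr
    filter_upwards [h1] with x hx
    unfold mm
    rw [et_left n hx.le, zero_div, zero_mul]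
  · have h1 : ContDiffAt ℝ 1 (fun x : ℂ => ‖x‖) x := contDiffAt_norm ℝ hx
    have hn : ‖x‖ ≠ 0 := norm_ne_zero_iff.2 hx
    have h2 : ContDiffAt ℝ 1 (fun x : ℂ => (x * u).im) x :=
      (Complex.imCLM.contDiff.comp (contDiff_id.mul contDiff_const)).contDiffAt
    unfold mm
    refine ContDiffAt.mul (ContDiffAt.div ?_ h1 hn) ?_
    · exact (et_contDiff r₀ R₁ n).contDiffAt.comp x h1
    · exact SS_contDiff.contDiffAt.comp x ((h2.div h1 hn).div_const σ)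

/-- scalar factor of the test field -/
noncomputable def gg (u : ℂ) (σ r₀ R₁ ε : ℝ) (n : ℕ) (z : W b) : ℝ :=
  ch ε n z * mm u σ r₀ R₁ n z.fst

lemma gg_contDiff (u : ℂ) (σ : ℝ) {r₀ : ℝ} (R₁ ε : ℝ) (hr : 0 < r₀) (n : ℕ) :
    ContDiff ℝ 1 (gg (b := b) u σ r₀ R₁ ε n) :=
  (ch_contDiff ε n).mul ((mm_contDiff u σ R₁ hr n).comp fst_contDiff)

/-- density -/
noncomputable def kk (u : ℂ) (σ : ℝ) (x : ℂ) : ℝ :=
  1 / ‖x‖ * (pp ((x * u).im / ‖x‖ / σ) * ((x * u).re / ‖x‖ / σ))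

lemma ch_Rt (ε : ℝ) (n : ℕ) (z : W b) (θ : ℝ) : ch ε n (Rt z θ) = ch ε n z := by
  unfold ch qq
  rw [Rt_fst, Rt_snd, norm_mul, Complex.norm_exp_ofReal_mul_I, one_mul]

lemma gg_deriv (u : ℂ) (σ r₀ R₁ ε : ℝ) (n : ℕ) (z : W b) :
    HasDerivAt (fun θ => gg u σ r₀ R₁ ε n (Rt z θ))
      (ch ε n z * (et r₀ R₁ n ‖z.fst‖ * kk u σ z.fst)) 0 := by
  have h0 : ∀ θ, gg u σ r₀ R₁ ε n (Rt z θ) = ch ε n z * (et r₀ R₁ n ‖z.fst‖ / ‖z.fst‖ *
      SS ((Complex.exp (θ * Complex.I) * (z.fst * u)).im / ‖z.fst‖ / σ)) := by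
    intro θ
    unfold gg mm
    rw [ch_Rt, Rt_fst, norm_mul, Complex.norm_exp_ofReal_mul_I, one_mul, mul_assoc]
  have h1 : HasDerivAt (fun θ : ℝ => (Complex.exp (θ * Complex.I) * (z.fst * u)).im)
      ((z.fst * u).re) 0 := by
    have h2 := Complex.imCLM.hasFDerivAt.comp_hasDerivAt (0 : ℝ)
      (exp_hasDerivAt.mul_const (z.fst * u))
    have h3 : Complex.imCLM (Complex.I * (z.fst * u)) = (z.fst * u).re := by
      simp [Complex.mul_im]
    rw [h3] at h2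
    exact h2
  have h4 := (h1.div_const ‖z.fst‖).div_const σ
  have h5 : HasDerivAt SS (pp ((z.fst * u).im / ‖z.fst‖ / σ))
      ((fun θ : ℝ => (Complex.exp (θ * Complex.I) * (z.fst * u)).im / ‖z.fst‖ / σ) 0) := by
    have h := SS_hasDerivAt ((z.fst * u).im / ‖z.fst‖ / σ)
    simpa using h
  have h6 : HasDerivAt (fun θ : ℝ =>
      SS ((Complex.exp (θ * Complex.I) * (z.fst * u)).im / ‖z.fst‖ / σ))
      (pp ((z.fst * u).im / ‖z.fst‖ / σ) * ((z.fst * u).re / ‖z.fst‖ / σ)) 0 := by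
    exact h5.comp (0 : ℝ) h4
  have h7 := (h6.const_mul (et r₀ R₁ n ‖z.fst‖ / ‖z.fst‖)).const_mul (ch ε n z)
  simp only [h0]
  have h8 : ch ε n z * (et r₀ R₁ n ‖z.fst‖ * kk u σ z.fst) = ch ε n z *
      (et r₀ R₁ n ‖z.fst‖ / ‖z.fst‖ *
        (pp ((z.fst * u).im / ‖z.fst‖ / σ) * ((z.fst * u).re / ‖z.fst‖ / σ))) := by
    unfold kk
    ring
  rw [h8]
  exact h7

lemma dv_field (u : ℂ) (σ : ℝ) {r₀ : ℝ} (R₁ ε : ℝ) (hr : 0 < r₀) (n : ℕ) (z : W b) :
    dv (fun z => gg u σ r₀ R₁ ε n z • J b z) z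
      = ch ε n z * (et r₀ R₁ n ‖z.fst‖ * kk u σ z.fst) := by
  have hd : DifferentiableAt ℝ (gg (b := b) u σ r₀ R₁ ε n) z :=
    (gg_contDiff u σ R₁ ε hr n).differentiable one_ne_zero z
  rw [dv_smul z hd]
  have h1 : HasFDerivAt (gg (b := b) u σ r₀ R₁ ε n) (fderiv ℝ (gg u σ r₀ R₁ ε n) z) (Rt z 0) := by
    rw [Rt_zero]
    exact hd.hasFDerivAt
  have h2 := h1.comp_hasDerivAt (0 : ℝ) (Rt_hasDerivAt z)
  exact h2.unique (gg_deriv u σ r₀ R₁ ε n z)

lemma tst_field (u : ℂ) (σ : ℝ) {r₀ ε : ℝ} (R₁ : ℝ) (hr : 0 < r₀) (hε : 0 < ε) (n : ℕ) :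
    Tst (Om b ε) (fun z => gg u σ r₀ R₁ ε n z • J b z) where
  c1 := (gg_contDiff u σ R₁ ε hr n).smul (J b).contDiff
  cs := by
    refine HasCompactSupport.intro (Kn_compact hε n) fun z hz => ?_
    unfold gg
    rw [ch_supp ε n z hz, zero_mul, zero_smul]
  sub := by
    refine (closure_minimal ?_ (Kn_closed ε n)).trans (Kn_sub hε n)
    intro z hz
    by_contra hK
    refine hz ?_
    change gg u σ r₀ R₁ ε n z • J b z = 0
    unfold gg
    rw [ch_supp ε n z hK, zero_mul, zero_smul]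
  le := by
    intro z
    rw [norm_smul, J_norm, Real.norm_eq_abs]
    unfold gg mm
    by_cases hx : ‖z.fst‖ = 0
    · rw [hx, mul_zero]
      exact zero_le_one
    rw [abs_mul, abs_mul, abs_div, abs_norm, abs_of_nonneg (ch_nonneg ε n z),
      abs_of_nonneg (et_nonneg _ _ _ _)]
    have h1 : ch ε n z * (et r₀ R₁ n ‖z.fst‖ / ‖z.fst‖ *
        |SS ((z.fst * u).im / ‖z.fst‖ / σ)|) * ‖z.fst‖
        = ch ε n z * (et r₀ R₁ n ‖z.fst‖ * |SS ((z.fst * u).im / ‖z.fst‖ / σ)|) := by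
      field_simp
    rw [h1]
    exact mul_le_one₀ (ch_le_one _ _ _) (mul_nonneg (et_nonneg _ _ _ _) (abs_nonneg _))
      (mul_le_one₀ (et_le_one _ _ _ _) (abs_nonneg _) (SS_abs _))

/-! ### the limit -/

lemma kk_meas (u : ℂ) (σ : ℝ) : Measurable (kk u σ) := by
  unfold kk
  have := pp_cont.measurable
  fun_prop

lemma kk_bd {u : ℂ} (hu : ‖u‖ = 1) {σ r₀ : ℝ} (hσ : 0 < σ) (hr : 0 < r₀) {x : ℂ}
    (hx : r₀ ≤ ‖x‖) : |kk u σ x| ≤ 3 / (2 * σ * r₀) := by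
  have hx0 : 0 < ‖x‖ := lt_of_lt_of_le hr hx
  have h1 : |(x * u).re| ≤ ‖x‖ := by
    have := Complex.abs_re_le_norm (x * u)
    rwa [norm_mul, hu, mul_one] at this
  unfold kk
  rw [abs_mul, abs_mul, abs_div, abs_div, abs_div, abs_norm, abs_one, abs_of_pos hσ,
    abs_of_nonneg (pp_nonneg _)]
  have h2 : |(x * u).re| / ‖x‖ ≤ 1 := (div_le_one hx0).2 h1
  have h3 : |(x * u).re| / ‖x‖ / σ ≤ 1 / σ := by gcongr
  have h4 : pp ((x * u).im / ‖x‖ / σ) * (|(x * u).re| / ‖x‖ / σ) ≤ 3 / 2 * (1 / σ) :=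
    mul_le_mul (pp_le _) h3 (by positivity) (by norm_num)
  have h5 : 1 / ‖x‖ ≤ 1 / r₀ := one_div_le_one_div_of_le hr hx
  calc 1 / ‖x‖ * (pp ((x * u).im / ‖x‖ / σ) * (|(x * u).re| / ‖x‖ / σ))
      ≤ 1 / r₀ * (3 / 2 * (1 / σ)) :=
        mul_le_mul h5 h4 (mul_nonneg (pp_nonneg _) (by positivity)) (by positivity)
    _ = 3 / (2 * σ * r₀) := by
        field_simp

/-- limit density -/
noncomputable def K1 (u : ℂ) (σ r₀ R₁ : ℝ) (x : ℂ) : ℝ :=
  (if r₀ < ‖x‖ ∧ ‖x‖ < R₁ then 1 else 0) * kk u σ x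

lemma K1_meas (u : ℂ) (σ r₀ R₁ : ℝ) : Measurable (K1 u σ r₀ R₁) := by
  unfold K1
  refine Measurable.mul (Measurable.ite ?_ measurable_const measurable_const) (kk_meas u σ)
  exact (measurableSet_lt measurable_const measurable_norm).inter
    (measurableSet_lt measurable_norm measurable_const)

lemma fst_meas : Measurable (fun z : W b => z.fst) := fst_contDiff.continuous.measurable

lemma limit {u : ℂ} (hu : ‖u‖ = 1) {σ r₀ R₁ ε P : ℝ} (hσ : 0 < σ) (hr : 0 < r₀) (hε : 0 < ε)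
    {A : Set (W b)} (hAO : A ⊆ Om b ε) (hA : MeasurableSet A) (hP : PLE (Om b ε) A P) :
    ∫ z in A, K1 u σ r₀ R₁ z.fst ≤ P := by
  have h1 : ∀ n, ∫ z in A, ch ε n z * (et r₀ R₁ n ‖z.fst‖ * kk u σ z.fst) ≤ P := by
    intro n
    have h := hP _ (tst_field u σ R₁ hr hε n)
    simp only [dv_field u σ R₁ ε hr n] at h
    exact h
  have hfin : volume A < ∞ := lt_of_le_of_lt (measure_mono hAO) (Om_lt_top hε)
  have : IsFiniteMeasure (volume.restrict A) := ⟨by rwa [Measure.restrict_apply_univ]⟩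
  refine le_of_tendsto' (tendsto_integral_of_dominated_convergence
    (fun _ => 3 / (2 * σ * r₀)) ?_ ?_ ?_ ?_) h1
  · intro n
    refine Measurable.aestronglyMeasurable ?_
    exact (ch_contDiff ε n).continuous.measurable.mul
      (((et_contDiff r₀ R₁ n).continuous.measurable.comp
        (measurable_norm.comp fst_meas)).mul ((kk_meas u σ).comp fst_meas))
  · exact integrable_const _
  · intro n
    refine Filter.Eventually.of_forall fun z => ?_
    rw [Real.norm_eq_abs, abs_mul, abs_mul, abs_of_nonneg (ch_nonneg ε n z),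
      abs_of_nonneg (et_nonneg _ _ _ _)]
    rcases le_or_gt ‖z.fst‖ r₀ with h | h
    · rw [et_left n h, zero_mul, mul_zero]
      positivity
    · have h2 := kk_bd hu hσ hr h.le
      calc ch ε n z * (et r₀ R₁ n ‖z.fst‖ * |kk u σ z.fst|)
          ≤ 1 * (1 * |kk u σ z.fst|) := by
            refine mul_le_mul (ch_le_one _ _ _) ?_
              (mul_nonneg (et_nonneg _ _ _ _) (abs_nonneg _)) zero_le_one
            exact mul_le_mul_of_nonneg_right (et_le_one _ _ _ _) (abs_nonneg _)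
        _ ≤ _ := by rw [one_mul, one_mul]; exact h2
  · filter_upwards [ae_restrict_mem hA] with z hz
    have h2 := (ch_tendsto hε z (hAO hz)).mul
      ((et_tendsto r₀ R₁ ‖z.fst‖).mul (tendsto_const_nhds (x := kk u σ z.fst)))
    rw [one_mul] at h2
    exact h2

/-! ### positive and negative part -/

/-- positive part -/
noncomputable def Kp (u : ℂ) (σ r₀ R₁ : ℝ) (x : ℂ) : ℝ :=
  if 0 < (x * u).re then K1 u σ r₀ R₁ x else 0

/-- negative part -/
noncomputable def Km (u : ℂ) (σ r₀ R₁ : ℝ) (x : ℂ) : ℝ :=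
  if 0 < (x * u).re then 0 else - K1 u σ r₀ R₁ x

lemma half_meas (u : ℂ) : MeasurableSet {x : ℂ | 0 < (x * u).re} :=
  measurableSet_lt measurable_const (by fun_prop)

lemma Kp_meas (u : ℂ) (σ r₀ R₁ : ℝ) : Measurable (Kp u σ r₀ R₁) :=
  Measurable.ite (half_meas u) (K1_meas _ _ _ _) measurable_const

lemma Km_meas (u : ℂ) (σ r₀ R₁ : ℝ) : Measurable (Km u σ r₀ R₁) :=
  Measurable.ite (half_meas u) measurable_const (K1_meas _ _ _ _).neg

lemma K1_eq (u : ℂ) (σ r₀ R₁ : ℝ) (x : ℂ) :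
    K1 u σ r₀ R₁ x = Kp u σ r₀ R₁ x - Km u σ r₀ R₁ x := by
  unfold Kp Km
  split_ifs <;> ring

lemma ite_nn (p : Prop) [Decidable p] : (0 : ℝ) ≤ if p then 1 else 0 := by
  split_ifs <;> norm_num

lemma Kp_nonneg (u : ℂ) {σ : ℝ} (hσ : 0 < σ) (r₀ R₁ : ℝ) (x : ℂ) : 0 ≤ Kp u σ r₀ R₁ x := by
  unfold Kp K1 kk
  split_ifs with h h1
  · have := pp_nonneg ((x * u).im / ‖x‖ / σ)
    positivity
  · rw [zero_mul]
  · exact le_rfl

lemma Km_nonneg (u : ℂ) {σ : ℝ} (hσ : 0 < σ) (r₀ R₁ : ℝ) (x : ℂ) : 0 ≤ Km u σ r₀ R₁ x := by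
  unfold Km K1 kk
  split_ifs with h h1
  · exact le_rfl
  · have h2 := pp_nonneg ((x * u).im / ‖x‖ / σ)
    have h3 : 0 ≤ - (x * u).re := by linarith [not_lt.1 h]
    have h4 : 0 ≤ 1 / ‖x‖ * (pp ((x * u).im / ‖x‖ / σ) * (-(x * u).re / ‖x‖ / σ)) := by
      positivity
    have h5 : -(1 * (1 / ‖x‖ * (pp ((x * u).im / ‖x‖ / σ) * ((x * u).re / ‖x‖ / σ))))
        = 1 / ‖x‖ * (pp ((x * u).im / ‖x‖ / σ) * (-(x * u).re / ‖x‖ / σ)) := by ring
    rw [h5]
    exact h4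
  · rw [zero_mul, neg_zero]

lemma K1_bd {u : ℂ} (hu : ‖u‖ = 1) {σ r₀ R₁ : ℝ} (hσ : 0 < σ) (hr : 0 < r₀) (x : ℂ) :
    |K1 u σ r₀ R₁ x| ≤ 3 / (2 * σ * r₀) := by
  unfold K1
  split_ifs with h
  · rw [one_mul]
    exact kk_bd hu hσ hr h.1.le
  · rw [zero_mul, abs_zero]
    positivity

/-- where the density is not zero -/
lemma K1_ne {u : ℂ} {σ r₀ R₁ : ℝ} (hσ : 0 < σ) (hr : 0 < r₀) {x : ℂ}
    (h : K1 u σ r₀ R₁ x ≠ 0) :
    r₀ ≤ ‖x‖ ∧ ‖x‖ ≤ R₁ ∧ (x * u).re ≠ 0 ∧ |(x * u).im| ≤ σ * ‖x‖ := by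
  unfold K1 at h
  split_ifs at h with h1
  · rw [one_mul] at h
    refine ⟨h1.1.le, h1.2.le, ?_, ?_⟩
    · intro h2
      apply h
      unfold kk
      rw [h2]
      simp
    · by_contra h2
      apply h
      have hx : 0 < ‖x‖ := lt_trans hr h1.1
      unfold kk
      rw [pp_zero, zero_mul, mul_zero]
      rw [abs_div, abs_div, abs_norm, abs_of_pos hσ, le_div_iff₀ hσ, le_div_iff₀ hx]
      linarith [not_le.1 h2]
  · exact absurd (zero_mul _) h

lemma Kp_le {u : ℂ} (hu : ‖u‖ = 1) {σ r₀ R₁ : ℝ} (hσ : 0 < σ) (hr : 0 < r₀) (x : ℂ) :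
    Kp u σ r₀ R₁ x ≤ (Wp u σ r₀ R₁).indicator (fun _ => 3 / (2 * σ * r₀)) x := by
  unfold Kp
  by_cases h : K1 u σ r₀ R₁ x = 0
  · rw [h, ite_self]
    exact Set.indicator_nonneg (fun _ _ => by positivity) _
  obtain ⟨h1, h2, h3, h4⟩ := K1_ne hσ hr h
  split_ifs with h5
  · rw [Set.indicator_of_mem (show x ∈ Wp u σ r₀ R₁ from ⟨h1, h2, h5, h4⟩)]
    exact (le_abs_self _).trans (K1_bd hu hσ hr x)
  · exact Set.indicator_nonneg (fun _ _ => by positivity) _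

lemma Km_le {u : ℂ} (hu : ‖u‖ = 1) {σ r₀ R₁ : ℝ} (hσ : 0 < σ) (hr : 0 < r₀) (x : ℂ) :
    Km u σ r₀ R₁ x ≤ (Wp u σ r₀ R₁).indicator (fun _ => 3 / (2 * σ * r₀)) (-x) := by
  unfold Km
  by_cases h : K1 u σ r₀ R₁ x = 0
  · rw [h, neg_zero, ite_self]
    exact Set.indicator_nonneg (fun _ _ => by positivity) _
  obtain ⟨h1, h2, h3, h4⟩ := K1_ne hσ hr h
  split_ifs with h5
  · exact Set.indicator_nonneg (fun _ _ => by positivity) _
  · have h6 : -x ∈ Wp u σ r₀ R₁ := by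
      refine ⟨by rwa [norm_neg], by rwa [norm_neg], ?_, ?_⟩
      · rw [neg_mul, Complex.neg_re]
        have := lt_of_le_of_ne (not_lt.1 h5) h3
        linarith
      · rw [neg_mul, Complex.neg_im, abs_neg, norm_neg]
        exact h4
    rw [Set.indicator_of_mem h6]
    exact (neg_le_abs _).trans (K1_bd hu hσ hr x)

lemma Wp_meas (u : ℂ) (σ r₀ R₁ : ℝ) : MeasurableSet (Wp u σ r₀ R₁) := by
  have h4 : MeasurableSet {x : ℂ | |(x * u).im| ≤ σ * ‖x‖} := by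
    refine measurableSet_le ?_ ?_
    · have : Continuous fun x : ℂ => |(x * u).im| := by fun_prop
      exact this.measurable
    · exact measurable_norm.const_mul σ
  exact (measurableSet_le measurable_const measurable_norm).inter
    ((measurableSet_le measurable_norm measurable_const).inter
    ((half_meas u).inter h4))

lemma bd_int {S T : Set (W b)} (hT : MeasurableSet T) (hfin : volume S < ∞) {f : W b → ℝ} {C : ℝ}
    (h0 : ∀ z, 0 ≤ f z) (h : ∀ z, f z ≤ T.indicator (fun _ => C) z) :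
    ∫ z in S, f z ≤ C * volume.real {z | z ∈ S ∧ z ∈ T} := by
  have : IsFiniteMeasure (volume.restrict S) := ⟨by rwa [Measure.restrict_apply_univ]⟩
  have hi : Integrable (T.indicator (fun _ => C)) (volume.restrict S) :=
    (integrable_const C).indicator hT
  have h1 : ∫ z in S, f z ≤ ∫ z in S, T.indicator (fun _ => C) z :=
    integral_mono_of_nonneg (Filter.Eventually.of_forall h0) hi (Filter.Eventually.of_forall h)
  refine h1.trans (le_of_eq ?_)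
  rw [integral_indicator hT, Measure.restrict_restrict hT, setIntegral_const, smul_eq_mul,
    mul_comm]
  congr 2
  ext z
  exact and_comm

/-! ### the integral over the whole body -/

/-- radial factor -/
noncomputable def aa (b : ℕ) (r₀ R₁ : ℝ) (ρ : ℝ) : ℝ :=
  (Ioo r₀ R₁).indicator (fun ρ => (1 - ρ) ^ b) ρ

/-- angular factor -/
noncomputable def cc (σ : ℝ) (θ : ℝ) : ℝ :=
  if 0 < Real.cos θ then pp (Real.sin θ / σ) * (Real.cos θ / σ) else 0

lemma cc_int {σ : ℝ} (hσ : 0 < σ) (hσ' : σ ≤ 1 / 2) : ∫ θ in Ioo (-Real.pi) Real.pi, cc σ θ = 2 := by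
  have hpi := Real.pi_pos
  have h1 : ∀ θ ∈ Ioo (-Real.pi) Real.pi, cc σ θ =
      (Ioo (-(Real.pi / 2)) (Real.pi / 2)).indicator
        (fun θ => pp (Real.sin θ / σ) * (Real.cos θ / σ)) θ := by
    intro θ hθ
    unfold cc
    by_cases h : θ ∈ Ioo (-(Real.pi / 2)) (Real.pi / 2)
    · rw [if_pos (Real.cos_pos_of_mem_Ioo h), Set.indicator_of_mem h]
    · rw [Set.indicator_of_notMem h, if_neg]
      rw [not_lt]
      rw [mem_Ioo, not_and_or, not_lt, not_lt] at h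
      rcases h with h | h
      · rw [← Real.cos_neg]
        exact Real.cos_nonpos_of_pi_div_two_le_of_le (by linarith) (by linarith [hθ.1])
      · exact Real.cos_nonpos_of_pi_div_two_le_of_le h (by linarith [hθ.2])
  rw [setIntegral_congr_fun measurableSet_Ioo h1, setIntegral_indicator measurableSet_Ioo]
  have h2 : Ioo (-Real.pi) Real.pi ∩ Ioo (-(Real.pi / 2)) (Real.pi / 2)
      = Ioo (-(Real.pi / 2)) (Real.pi / 2) := by
    refine Set.inter_eq_right.2 (Ioo_subset_Ioo (by linarith) (by linarith))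
  rw [h2, ← integral_Ioc_eq_integral_Ioo, ← intervalIntegral.integral_of_le (by linarith)]
  have h3 : ∀ θ ∈ uIcc (-(Real.pi / 2)) (Real.pi / 2),
      HasDerivAt (fun θ => SS (Real.sin θ / σ)) (pp (Real.sin θ / σ) * (Real.cos θ / σ)) θ := by
    intro θ _
    exact (SS_hasDerivAt (Real.sin θ / σ)).comp θ ((Real.hasDerivAt_sin θ).div_const σ)
  rw [intervalIntegral.integral_eq_sub_of_hasDerivAt h3]
  · rw [Real.sin_neg, Real.sin_pi_div_two, neg_div, SS_odd, SS_of_one_le]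
    · norm_num
    · rw [le_div_iff₀ hσ]
      linarith
  · refine Continuous.intervalIntegrable ?_ _ _
    have := pp_cont
    fun_prop

lemma aa_int (b : ℕ) {r₀ R₁ : ℝ} (hr : 0 < r₀) (hrR : r₀ < R₁) :
    ∫ ρ in Ioi (0 : ℝ), aa b r₀ R₁ ρ = ∫ ρ in r₀..R₁, (1 - ρ) ^ b := by
  unfold aa
  rw [setIntegral_indicator measurableSet_Ioo]
  have h2 : Ioi (0 : ℝ) ∩ Ioo r₀ R₁ = Ioo r₀ R₁ := by
    refine Set.inter_eq_right.2 fun x hx => ?_
    exact lt_trans hr hx.1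
  rw [h2, ← integral_Ioc_eq_integral_Ioo, ← intervalIntegral.integral_of_le hrR.le]

/-- the planar integrand -/
noncomputable def Fu (b : ℕ) (u : ℂ) (σ r₀ R₁ : ℝ) (x : ℂ) : ℝ :=
  Kp u σ r₀ R₁ x * (1 - ‖x‖) ^ b

lemma Fu_rot (b : ℕ) {u : ℂ} (hu : ‖u‖ = 1) (σ r₀ R₁ : ℝ) (x : ℂ) :
    Fu b u σ r₀ R₁ x = Fu b 1 σ r₀ R₁ (u * x) := by
  unfold Fu Kp K1 kk
  rw [norm_mul, hu, one_mul, mul_one, mul_comm u x]

lemma Fu_polar (b : ℕ) (σ : ℝ) {r₀ : ℝ} (R₁ : ℝ) {ρ : ℝ} (hρ : 0 < ρ) (θ : ℝ) :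
    ρ * Fu b 1 σ r₀ R₁ (Complex.polarCoord.symm (ρ, θ)) = aa b r₀ R₁ ρ * cc σ θ := by
  have h1 : ‖Complex.polarCoord.symm (ρ, θ)‖ = ρ := by
    rw [Complex.norm_polarCoord_symm, abs_of_pos hρ]
  have h2 : (Complex.polarCoord.symm (ρ, θ)).re = ρ * Real.cos θ := by
    rw [Complex.polarCoord_symm_apply]
    change ((ρ : ℂ) * ((Real.cos θ : ℂ) + (Real.sin θ : ℂ) * Complex.I)).re = _
    rw [Complex.re_ofReal_mul, Complex.add_re, Complex.ofReal_re, Complex.re_ofReal_mul,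
      Complex.I_re, mul_zero, add_zero]
  have h3 : (Complex.polarCoord.symm (ρ, θ)).im = ρ * Real.sin θ := by
    rw [Complex.polarCoord_symm_apply]
    change ((ρ : ℂ) * ((Real.cos θ : ℂ) + (Real.sin θ : ℂ) * Complex.I)).im = _
    rw [Complex.im_ofReal_mul, Complex.add_im, Complex.ofReal_im, Complex.im_ofReal_mul,
      Complex.I_im, mul_one, zero_add]
  unfold Fu Kp K1 kk aa cc
  rw [mul_one, h1, h2, h3]
  have h4 : (0 < ρ * Real.cos θ) ↔ 0 < Real.cos θ := by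
    constructor
    · intro h
      exact (pos_iff_pos_of_mul_pos h).1 hρ
    · intro h
      positivity
  simp only [h4]
  have h5 : ρ * Real.sin θ / ρ = Real.sin θ := by field_simp
  have h6 : ρ * Real.cos θ / ρ = Real.cos θ := by field_simp
  rw [h5, h6]
  by_cases h7 : r₀ < ρ ∧ ρ < R₁
  · rw [if_pos h7, Set.indicator_of_mem (show ρ ∈ Ioo r₀ R₁ from h7)]
    split_ifs
    · field_simp
    · ring
  · rw [if_neg h7, Set.indicator_of_notMem (show ρ ∉ Ioo r₀ R₁ from h7)]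
    split_ifs <;> ring

lemma Fu_int (b : ℕ) {u : ℂ} (hu : ‖u‖ = 1) {σ r₀ R₁ : ℝ} (hσ : 0 < σ) (hσ' : σ ≤ 1 / 2)
    (hr : 0 < r₀) (hrR : r₀ < R₁) :
    ∫ x, Fu b u σ r₀ R₁ x = 2 * ∫ ρ in r₀..R₁, (1 - ρ) ^ b := by
  have h1 : ∫ x, Fu b u σ r₀ R₁ x = ∫ x, Fu b 1 σ r₀ R₁ x := by
    have hc : u ∈ Submonoid.unitSphere ℂ := mem_sphere_zero_iff_norm.2 hu
    have h := (rotation (⟨u, hc⟩ : Circle)).measurePreserving.integral_comp
      (rotation (⟨u, hc⟩ : Circle)).toHomeomorph.measurableEmbedding (Fu b 1 σ r₀ R₁)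
    rw [← h]
    refine integral_congr_ae (Filter.Eventually.of_forall fun x => ?_)
    exact Fu_rot b hu σ r₀ R₁ x
  rw [h1, ← Complex.integral_comp_polarCoord_symm]
  have h2 : ∀ p ∈ Complex.polarCoord.target,
      p.1 • Fu b 1 σ r₀ R₁ (Complex.polarCoord.symm p) = aa b r₀ R₁ p.1 * cc σ p.2 := by
    intro p hp
    exact Fu_polar b σ R₁ hp.1 p.2
  have hm : MeasurableSet Complex.polarCoord.target := Complex.polarCoord.open_target.measurableSet
  have h3 : ∫ p in polarCoord.target, p.1 • Fu b 1 σ r₀ R₁ (Complex.polarCoord.symm p)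
      = ∫ p in Ioi (0 : ℝ) ×ˢ Ioo (-Real.pi) Real.pi, aa b r₀ R₁ p.1 * cc σ p.2 :=
    setIntegral_congr_fun hm h2
  rw [h3]
  have h4 := setIntegral_prod_mul (μ := (volume : Measure ℝ)) (ν := (volume : Measure ℝ))
    (aa b r₀ R₁) (cc σ) (Ioi (0 : ℝ)) (Ioo (-Real.pi) Real.pi)
  rw [← Measure.volume_eq_prod] at h4
  rw [h4, aa_int b hr hrR, cc_int hσ hσ', mul_comm]

lemma Kp_out {u : ℂ} {σ r₀ R₁ : ℝ} (hR : R₁ < 1) {x : ℂ} (hx : x ∉ ball (0 : ℂ) 1) :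
    Kp u σ r₀ R₁ x = 0 := by
  have h1 : 1 ≤ ‖x‖ := by
    rw [mem_ball_zero_iff] at hx
    exact not_lt.1 hx
  unfold Kp K1
  rw [if_neg (show ¬ (r₀ < ‖x‖ ∧ ‖x‖ < R₁) from fun h => by linarith [h.2]), zero_mul, ite_self]

lemma Om_int (h7 : S_T7a) {b : ℕ} (hb : 1 ≤ b) {ε : ℝ} (hε : 0 < ε) {u : ℂ} (hu : ‖u‖ = 1)
    {σ r₀ R₁ : ℝ} (hσ : 0 < σ) (hσ' : σ ≤ 1 / 2) (hr : 0 < r₀) (hrR : r₀ < R₁) (hR : R₁ < 1) :
    ∫ z in Om b ε, Kp u σ r₀ R₁ z.fst = vb b ε * (2 * ∫ ρ in r₀..R₁, (1 - ρ) ^ b) := by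
  rw [← Fu_int b hu hσ hσ' hr hrR]
  have h1 := h7 b ε hb hε (fun x => ENNReal.ofReal (Kp u σ r₀ R₁ x))
    (Kp_meas u σ r₀ R₁).ennreal_ofReal
  have h0 : ∫ z in Om b ε, Kp u σ r₀ R₁ z.fst
      = (∫⁻ z in Om b ε, ENNReal.ofReal (Kp u σ r₀ R₁ z.fst)).toReal :=
    integral_eq_lintegral_of_nonneg_ae
      (Filter.Eventually.of_forall fun z => Kp_nonneg u hσ r₀ R₁ z.fst)
      ((Kp_meas u σ r₀ R₁).comp fst_meas).aestronglyMeasurable
  rw [h0]
  have hF : ∀ x, 0 ≤ Fu b u σ r₀ R₁ x := by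
    intro x
    unfold Fu
    by_cases hx : x ∈ ball (0 : ℂ) 1
    · rw [mem_ball_zero_iff] at hx
      exact mul_nonneg (Kp_nonneg u hσ r₀ R₁ x) (pow_nonneg (by linarith) _)
    · rw [Kp_out hR hx, zero_mul]
  have hFm : Measurable (Fu b u σ r₀ R₁) := by
    unfold Fu
    exact (Kp_meas u σ r₀ R₁).mul ((measurable_const.sub measurable_norm).pow_const b)
  rw [integral_eq_lintegral_of_nonneg_ae (Filter.Eventually.of_forall hF)
    hFm.aestronglyMeasurable]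
  have h2 : ∫⁻ x in ball (0 : ℂ) 1, ENNReal.ofReal (Kp u σ r₀ R₁ x) *
      ENNReal.ofReal ((1 - ‖x‖) ^ b) = ∫⁻ x, ENNReal.ofReal (Fu b u σ r₀ R₁ x) := by
    rw [← lintegral_indicator measurableSet_ball]
    refine lintegral_congr fun x => ?_
    by_cases hx : x ∈ ball (0 : ℂ) 1
    · rw [Set.indicator_of_mem hx]
      unfold Fu
      rw [ENNReal.ofReal_mul (Kp_nonneg u hσ r₀ R₁ x)]
    · rw [Set.indicator_of_notMem hx]
      unfold Fu
      rw [Kp_out hR hx, zero_mul, ENNReal.ofReal_zero]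
  rw [h2] at h1
  have hv : 0 ≤ vb b ε := measureReal_nonneg
  rw [h1, ENNReal.toReal_mul, ENNReal.toReal_ofReal hv]

end Pool.Agent.TH703.Cone.Rot

namespace Pool.Agent.TH703.Cone

open MeasureTheory Set Metric Rot

/-- uses S_T7a (Fubini), which is another job -/
theorem t4 (h7 : S_T7a) : S_T4 := by
  intro b ε P A u σ r₀ R₁ hb hε hA hAO hP hu hσ hσ' hr hrR hR
  have hfin : volume (Om b ε) < ⊤ := Om_lt_top hε
  have hfA : volume A < ⊤ := lt_of_le_of_lt (measure_mono hAO) hfin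
  have hfD : volume (Om b ε \ A) < ⊤ := lt_of_le_of_lt (measure_mono sdiff_subset) hfin
  have hC : 0 ≤ 3 / (2 * σ * r₀) := by positivity
  have hKp : ∀ S : Set (W b), volume S < ⊤ →
      IntegrableOn (fun z : W b => Kp u σ r₀ R₁ z.fst) S := by
    intro S hS
    have : IsFiniteMeasure (volume.restrict S) := ⟨by rwa [Measure.restrict_apply_univ]⟩
    refine Integrable.of_bound ((Kp_meas u σ r₀ R₁).comp fst_meas).aestronglyMeasurable
      (3 / (2 * σ * r₀)) (Filter.Eventually.of_forall fun z => ?_)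
    rw [Real.norm_eq_abs, abs_of_nonneg (Kp_nonneg u hσ r₀ R₁ z.fst)]
    exact (Kp_le hu hσ hr z.fst).trans (Set.indicator_le_self' (fun _ _ => hC) _)
  have hKm : ∀ S : Set (W b), volume S < ⊤ →
      IntegrableOn (fun z : W b => Km u σ r₀ R₁ z.fst) S := by
    intro S hS
    have : IsFiniteMeasure (volume.restrict S) := ⟨by rwa [Measure.restrict_apply_univ]⟩
    refine Integrable.of_bound ((Km_meas u σ r₀ R₁).comp fst_meas).aestronglyMeasurable
      (3 / (2 * σ * r₀)) (Filter.Eventually.of_forall fun z => ?_)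
    rw [Real.norm_eq_abs, abs_of_nonneg (Km_nonneg u hσ r₀ R₁ z.fst)]
    exact (Km_le hu hσ hr z.fst).trans (Set.indicator_le_self' (fun _ _ => hC) _)
  have h1 := limit (R₁ := R₁) hu hσ hr hε hAO hA hP
  have h2 : ∫ z in A, K1 u σ r₀ R₁ z.fst
      = (∫ z in A, Kp u σ r₀ R₁ z.fst) - ∫ z in A, Km u σ r₀ R₁ z.fst := by
    have e : ∫ z in A, K1 u σ r₀ R₁ z.fst
        = ∫ z in A, (Kp u σ r₀ R₁ z.fst - Km u σ r₀ R₁ z.fst) :=
      integral_congr_ae (Filter.Eventually.of_forall fun z => K1_eq _ _ _ _ _)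
    exact e.trans (integral_sub (hKp A hfA) (hKm A hfA))
  have h3 : ∫ z in Om b ε \ A, Kp u σ r₀ R₁ z.fst
      = (∫ z in Om b ε, Kp u σ r₀ R₁ z.fst) - ∫ z in A, Kp u σ r₀ R₁ z.fst :=
    setIntegral_sdiff hA (hKp _ hfin) hAO
  have h4 := Om_int h7 hb hε hu hσ hσ' hr hrR hR
  have h5 : ∫ z in Om b ε \ A, Kp u σ r₀ R₁ z.fst ≤ 3 / (2 * σ * r₀) *
      volume.real {z | z ∈ Om b ε \ A ∧ z.fst ∈ Wp u σ r₀ R₁} :=
    bd_int (fst_meas (Wp_meas u σ r₀ R₁)) hfD (fun z => Kp_nonneg u hσ r₀ R₁ z.fst)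
      (fun z => Kp_le hu hσ hr z.fst)
  have h6 : ∫ z in A, Km u σ r₀ R₁ z.fst ≤ 3 / (2 * σ * r₀) *
      volume.real {z | z ∈ A ∧ -z.fst ∈ Wp u σ r₀ R₁} :=
    bd_int (T := {z : W b | -z.fst ∈ Wp u σ r₀ R₁}) (fst_meas.neg (Wp_meas u σ r₀ R₁)) hfA
      (fun z => Km_nonneg u hσ r₀ R₁ z.fst)
      (fun z => Km_le hu hσ hr z.fst)
  rw [← h4, mul_add]
  linarith

end Pool.Agent.TH703.Cone
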