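import Pool.Agent.TH703.Cone.Core

set_option autoImplicit false

/-! # Transfer of the counterexample to `EuclideanSpace ℝ (Fin n)` -/

namespace Pool.Agent.TH703.Cone

open MeasureTheory Set Filter Topology Metric
open scoped ENNReal

namespace TransferL

section general

variable {E F : Type*} [NormedAddCommGroup E] [InnerProductSpace ℝ E] [FiniteDimensional ℝ E]
  [MeasurableSpace E] [BorelSpace E] [NormedAddCommGroup F] [InnerProductSpace ℝ F]
  [FiniteDimensional ℝ F] [MeasurableSpace F] [BorelSpace F]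

lemma dv_conj (e : E ≃ₗᵢ[ℝ] F) {ψ : E → E} (hψ : Differentiable ℝ ψ) (x : F) :
    dv (fun y => e (ψ (e.symm y))) x = dv ψ (e.symm x) := by
  unfold dv
  have h1 : HasFDerivAt (fun y => e (ψ (e.symm y)))
      ((e : E →L[ℝ] F).comp ((fderiv ℝ ψ (e.symm x)).comp (e.symm : F →L[ℝ] E))) x := by
    have h2 : HasFDerivAt (fun y : F => e.symm y) (e.symm : F →L[ℝ] E) x :=
      (e.symm : F →L[ℝ] E).hasFDerivAt
    have h3 := (hψ (e.symm x)).hasFDerivAt.comp x h2
    exact ((e : E →L[ℝ] F).hasFDerivAt).comp x h3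
  rw [h1.fderiv, ← LinearMap.trace_conj' (fderiv ℝ ψ (e.symm x)).toLinearMap e.toLinearEquiv]
  rfl

lemma tst_conj (e : E ≃ₗᵢ[ℝ] F) {Ω : Set E} {ψ : E → E} (h : Tst Ω ψ) :
    Tst (e.symm ⁻¹' Ω) (fun y => e (ψ (e.symm y))) := by
  refine ⟨?_, ?_, ?_, ?_⟩
  · exact e.contDiff.comp (h.c1.comp e.symm.contDiff)
  · have h1 : HasCompactSupport (fun y => ψ (e.symm y)) :=
      h.cs.comp_homeomorph e.symm.toHomeomorph
    exact h1.comp_left (map_zero e)
  · have h1 : tsupport (fun y => e (ψ (e.symm y))) ⊆ e.symm ⁻¹' tsupport ψ := by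
      refine closure_minimal ?_ ((isClosed_tsupport ψ).preimage e.symm.continuous)
      intro x hx
      apply subset_tsupport
      rw [Function.mem_support] at hx ⊢
      intro h0
      apply hx
      simp only [h0, map_zero]
    exact h1.trans (preimage_mono h.sub)
  · intro x
    rw [LinearIsometryEquiv.norm_map]
    exact h.le _

lemma int_conj (e : E ≃ₗᵢ[ℝ] F) {ψ : E → E} (hψ : Differentiable ℝ ψ) (S : Set E) :
    ∫ x in e.symm ⁻¹' S, dv (fun y => e (ψ (e.symm y))) x = ∫ x in S, dv ψ x := by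
  simp_rw [dv_conj e hψ]
  exact (e.symm.measurePreserving).setIntegral_preimage_emb
    e.symm.toHomeomorph.measurableEmbedding (fun x => dv ψ x) S

lemma vol_conj (e : E ≃ₗᵢ[ℝ] F) (S : Set E) : volume (e.symm ⁻¹' S) = volume S :=
  (e.symm.measurePreserving).measure_preimage_emb e.symm.toHomeomorph.measurableEmbedding S

end general

end TransferL

open TransferL Poin in
theorem transfer (hcore : ∀ c : ℝ, 0 < c →
    ∃ (b : ℕ) (ε : ℝ) (A : Set (W b)) (I : ℝ), 0 < ε ∧ MeasurableSet A ∧ A ⊆ Om b ε ∧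
      volume A = volume (Om b ε) / 2 ∧ PLE (Om b ε) A I ∧
      (∀ (F : Set (W b)) (Q : ℝ), MeasurableSet F → F ⊆ Om b ε → volume F = volume A →
        PLE (Om b ε) F Q → I ≤ Q) ∧
      ∀ Γ : ConvexCone ℝ (W b), volume ((Om b ε ∩ (Γ : Set (W b))) \ A) = 0 →
        volume ((Om b ε ∩ {x | -x ∈ Γ}) ∩ A) = 0 →
        ¬ (ENNReal.ofReal c * volume (Om b ε) ≤ volume (Om b ε ∩ (Γ : Set (W b))))) :
    ¬ (∃ c : ℝ, 0 < c ∧
      ∀ (n : ℕ) (Ω E : Set (EuclideanSpace ℝ (Fin n))),
        IsOpen Ω → Ω.Nonempty → Convex ℝ Ω → Bornology.IsBounded Ω →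
        (∀ x ∈ Ω, -x ∈ Ω) →
        MeasurableSet E → E ⊆ Ω →
        MeasureTheory.volume E = MeasureTheory.volume Ω / 2 →
        (∀ F : Set (EuclideanSpace ℝ (Fin n)), MeasurableSet F → F ⊆ Ω →
          MeasureTheory.volume F = MeasureTheory.volume E →
          ∀ φ : EuclideanSpace ℝ (Fin n) → EuclideanSpace ℝ (Fin n),
            ContDiff ℝ 1 φ → HasCompactSupport φ → tsupport φ ⊆ Ω →
            (∀ x, ‖φ x‖ ≤ 1) →
            ∀ ε : ℝ, 0 < ε →
              ∃ ψ : EuclideanSpace ℝ (Fin n) → EuclideanSpace ℝ (Fin n),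
                ContDiff ℝ 1 ψ ∧ HasCompactSupport ψ ∧ tsupport ψ ⊆ Ω ∧
                (∀ x, ‖ψ x‖ ≤ 1) ∧
                (∫ x in E, LinearMap.trace ℝ (EuclideanSpace ℝ (Fin n))
                    (fderiv ℝ φ x).toLinearMap) ≤
                  (∫ x in F, LinearMap.trace ℝ (EuclideanSpace ℝ (Fin n))
                    (fderiv ℝ ψ x).toLinearMap) + ε) →
        ∃ Γ : ConvexCone ℝ (EuclideanSpace ℝ (Fin n)),
          MeasureTheory.volume ((Ω ∩ (Γ : Set (EuclideanSpace ℝ (Fin n)))) \ E) = 0 ∧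
          MeasureTheory.volume ((Ω ∩ {x | -x ∈ Γ}) ∩ E) = 0 ∧
          ENNReal.ofReal c * MeasureTheory.volume Ω ≤
            MeasureTheory.volume (Ω ∩ (Γ : Set (EuclideanSpace ℝ (Fin n))))) := by
  rintro ⟨c, hc, H⟩
  obtain ⟨b, ε, A, I, hε, hAm, hAΩ, hAv, hAI, hmin, hΓ⟩ := hcore c hc
  let e : W b ≃ₗᵢ[ℝ] EuclideanSpace ℝ (Fin (Module.finrank ℝ (W b))) :=
    (stdOrthonormalBasis ℝ (W b)).repr
  have hem : Measurable e.symm := e.symm.continuous.measurable
  obtain ⟨Γ', hΓ1, hΓ2, hΓ3⟩ := H (Module.finrank ℝ (W b)) (e.symm ⁻¹' Om b ε) (e.symm ⁻¹' A)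
    (isOpen_Om.preimage e.symm.continuous)
    ⟨0, by rw [mem_preimage, map_zero]; exact zero_mem⟩
    ((convex_Om hε).linear_preimage e.symm.toLinearEquiv.toLinearMap)
    (by
      obtain ⟨R, hR⟩ := (isBounded_iff_subset_closedBall 0).1 (bounded_Om (b := b) hε)
      refine (isBounded_iff_subset_closedBall 0).2 ⟨R, fun x hx => ?_⟩
      have h1 := hR hx
      rw [mem_closedBall_zero_iff] at h1 ⊢
      rwa [LinearIsometryEquiv.norm_map] at h1)
    (by
      intro x hx
      rw [mem_preimage, map_neg]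
      exact neg_mem hx)
    (hem hAm) (preimage_mono hAΩ)
    (by rw [vol_conj, vol_conj, hAv])
    (by
      intro F hF hFΩ hFv φ hφ1 hφ2 hφ3 hφ4 δ hδ
      by_contra hcon
      push Not at hcon
      -- the field on `W b`
      have hT : Tst (e.symm.symm ⁻¹' (e.symm ⁻¹' Om b ε)) (fun y => e.symm (φ (e.symm.symm y))) :=
        tst_conj e.symm ⟨hφ1, hφ2, hφ3, hφ4⟩
      have hset : ∀ S : Set (W b), e.symm.symm ⁻¹' (e.symm ⁻¹' S) = S := by
        intro S
        ext x
        simp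
      rw [hset] at hT
      have hint := int_conj e.symm (hφ1.differentiable (by norm_num)) (e.symm ⁻¹' A)
      rw [hset] at hint
      have hφI := hAI _ hT
      rw [hint] at hφI
      have hF0 : MeasurableSet (e.symm.symm ⁻¹' F) := e.continuous.measurable hF
      have hFset : e.symm ⁻¹' (e.symm.symm ⁻¹' F) = F := by
        ext x
        simp
      have h1 := hmin (e.symm.symm ⁻¹' F) ((∫ x in e.symm ⁻¹' A, dv φ x) - δ) hF0 (by
          intro x hx
          have := hFΩ hx
          simpa using this) (by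
          rw [vol_conj e.symm F, hFv, vol_conj]) (by
          intro ψ hψ
          have hψT := tst_conj e hψ
          have h2 := hcon _ hψT.c1 hψT.cs hψT.sub hψT.le
          have h3 := int_conj e (hψ.c1.differentiable (by norm_num)) (e.symm.symm ⁻¹' F)
          rw [hFset] at h3
          unfold dv at h3
          rw [h3] at h2
          change (∫ x in e.symm ⁻¹' A, dv φ x) > (∫ x in e.symm.symm ⁻¹' F, dv ψ x) + δ at h2
          linarith)
      linarith)
  refine hΓ (Γ'.comap (e : W b →ₗ[ℝ] _)) ?_ ?_ ?_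
  · rw [← vol_conj e]
    rw [← hΓ1]
    congr 1
    ext x
    simp
  · rw [← vol_conj e]
    rw [← hΓ2]
    congr 1
    ext x
    simp
  · rw [vol_conj] at hΓ3
    refine hΓ3.trans (le_of_eq ?_)
    rw [← vol_conj e (Om b ε ∩ _)]
    congr 1
    ext x
    simp

end Pool.Agent.TH703.Cone
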