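import Pool.Agent.TH703.Cone.Stm

set_option autoImplicit false

/-! # Numerical facts -/

namespace Pool.Agent.TH703.Cone

open Set

namespace NumL

/-- the radius of the cylinder of half volume -/
lemma exists_radius (b : ℕ) : ∃ r : ℝ, 0 < r ∧ r < 1 ∧
    (1 - r) ^ (b + 1) * (1 + (b + 1) * r) = 1 / 2 := by
  have hc : ContinuousOn (fun r : ℝ => (1 - r) ^ (b + 1) * (1 + (b + 1) * r)) (Icc 0 1) := by
    fun_prop
  have h := intermediate_value_Icc' (zero_le_one' ℝ) hc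
  have h1 : (1 / 2 : ℝ) ∈ Icc ((1 - (1:ℝ)) ^ (b + 1) * (1 + (b + 1) * 1))
      ((1 - (0:ℝ)) ^ (b + 1) * (1 + (b + 1) * 0)) := by
    simp
    norm_num
  obtain ⟨r, hr, hr2⟩ := h h1
  simp only at hr2
  refine ⟨r, lt_of_le_of_ne hr.1 ?_, lt_of_le_of_ne hr.2 ?_, hr2⟩
  · rintro rfl
    norm_num at hr2
  · rintro rfl
    norm_num at hr2

lemma exp17 : (5.4 : ℝ) < Real.exp 1.7 := by
  have h1 : (5.4 : ℝ) ^ 10 < Real.exp 1.7 ^ 10 := by
    rw [← Real.exp_nat_mul]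
    have : ((10 : ℕ) : ℝ) * 1.7 = (17 : ℕ) * 1 := by norm_num
    rw [this, Real.exp_nat_mul]
    have h2 := Real.exp_one_gt_d9
    calc (5.4 : ℝ) ^ 10 < 2.7182818283 ^ 17 := by norm_num
      _ ≤ Real.exp 1 ^ 17 := by gcongr
  exact lt_of_pow_lt_pow_left₀ 10 (Real.exp_pos _).le h1

lemma exp8 : (2500 : ℝ) ≤ Real.exp 8 := by
  have : (8 : ℝ) = (8 : ℕ) * 1 := by norm_num
  rw [this, Real.exp_nat_mul]
  have h2 := Real.exp_one_gt_d9
  calc (2500 : ℝ) ≤ 2.7182818283 ^ 8 := by norm_num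
    _ ≤ Real.exp 1 ^ 8 := by gcongr

lemma radius_lt {b : ℕ} {r : ℝ} (h0 : 0 < r) (h1 : r < 1)
    (h : (1 - r) ^ (b + 1) * (1 + (b + 1) * r) = 1 / 2) : (b + 1) * r < 1.7 := by
  by_contra hcon
  push Not at hcon
  set s : ℝ := (b + 1) * r with hs
  have e1 : (1 - r) ^ (b + 1) ≤ Real.exp (-s) := by
    have : 1 - r ≤ Real.exp (-r) := by
      have := Real.add_one_le_exp (-r)
      linarith
    calc (1 - r) ^ (b + 1) ≤ Real.exp (-r) ^ (b + 1) := by
          gcongr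
      _ = Real.exp (-s) := by
          rw [← Real.exp_nat_mul, show ((b + 1 : ℕ) : ℝ) * -r = -s by push_cast; rw [hs]; ring]
  have e2 : 1 + s ≤ 2.7 * Real.exp (s - 1.7) := by
    have h2 : (s - 1.7) + 1 ≤ Real.exp (s - 1.7) := Real.add_one_le_exp _
    nlinarith
  have e3 : (1 - r) ^ (b + 1) * (1 + s) ≤ 2.7 * Real.exp (-1.7) := by
    calc (1 - r) ^ (b + 1) * (1 + s) ≤ Real.exp (-s) * (2.7 * Real.exp (s - 1.7)) := by
          gcongr
      _ = 2.7 * (Real.exp (-s) * Real.exp (s - 1.7)) := by ring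
      _ = 2.7 * Real.exp (-1.7) := by
          rw [← Real.exp_add, show -s + (s - 1.7) = -1.7 by ring]
  have e4 : 2.7 * Real.exp (-1.7) < 1 / 2 := by
    rw [Real.exp_neg]
    have := exp17
    rw [mul_inv_lt_iff₀ (Real.exp_pos _)]
    linarith
  linarith

/-- upper bound for the normalised perimeter of the cylinder -/
lemma upper {b : ℕ} (hb : 1000 ≤ b) {r : ℝ} (h0 : 0 < r) (h1 : r < 1)
    (h : (1 - r) ^ (b + 1) * (1 + (b + 1) * r) = 1 / 2) :
    2 * Real.pi * r * (1 - r) ^ b ≤ 1.9815 / (b + 1) := by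
  have hs := radius_lt h0 h1 h
  have hb' : (1000 : ℝ) ≤ b := by exact_mod_cast hb
  have hb1 : (0 : ℝ) < b + 1 := by linarith
  set s : ℝ := (b + 1) * r with hsd
  have hs0 : 0 < s := by positivity
  have hr : r = s / (b + 1) := by rw [hsd]; field_simp
  have hr2 : r ≤ 0.0017 := by
    rw [hr, div_le_iff₀ hb1]
    nlinarith
  have h1r : 0 < 1 - r := by linarith
  have e1 : (1 - r) ^ b = 1 / (2 * ((1 - r) * (1 + s))) := by
    rw [pow_succ] at h
    field_simp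
    linarith
  rw [e1]
  have hpi : Real.pi < 3.1416 := Real.pi_lt_d4
  have hpi0 := Real.pi_pos
  have e2 : 2 * Real.pi * r * (1 / (2 * ((1 - r) * (1 + s)))) =
      (Real.pi * s / ((1 - r) * (1 + s))) / (b + 1) := by
    rw [hr]
    have : (1 - s / ((b:ℝ) + 1)) ≠ 0 := by rw [← hr]; exact h1r.ne'
    field_simp
  rw [e2]
  gcongr
  rw [div_le_iff₀ (by positivity)]
  have e3 : Real.pi * s ≤ 3.1416 * s := by gcongr
  have e4 : (0.9983 : ℝ) * (1 + s) ≤ (1 - r) * (1 + s) := by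
    gcongr
    linarith
  nlinarith

/-- lower bound for the integral -/
lemma lower {b : ℕ} (hb : 1000 ≤ b) :
    1.9972 / ((b : ℝ) + 1) ≤
      2 * ∫ ρ in (1 / (1000 * ((b : ℝ) + 1)))..((9 - 1) / (b : ℝ)), (1 - ρ) ^ b := by
  have hb' : (1000 : ℝ) ≤ b := by exact_mod_cast hb
  have hb1 : (0 : ℝ) < b + 1 := by linarith
  have hb0 : (0 : ℝ) < b := by linarith
  have e1 : ∫ ρ in (1 / (1000 * ((b : ℝ) + 1)))..((9 - 1) / (b : ℝ)), (1 - ρ) ^ b =
      ((1 - 1 / (1000 * ((b : ℝ) + 1))) ^ (b + 1) - (1 - (9 - 1) / (b : ℝ)) ^ (b + 1)) /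
        (b + 1) := by
    rw [intervalIntegral.integral_comp_sub_left (fun x => x ^ b) 1, integral_pow]
  rw [e1]
  have e2 : (0.999 : ℝ) ≤ (1 - 1 / (1000 * ((b : ℝ) + 1))) ^ (b + 1) := by
    have h2 : (-2 : ℝ) ≤ -(1 / (1000 * ((b : ℝ) + 1))) := by
      have : 1 / (1000 * ((b : ℝ) + 1)) ≤ 1 := by
        rw [div_le_one (by positivity)]
        linarith
      linarith
    have h3 := one_add_mul_le_pow h2 (b + 1)
    have h4 : 1 + ((b + 1 : ℕ) : ℝ) * -(1 / (1000 * ((b : ℝ) + 1))) = 0.999 := by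
      push_cast
      field_simp
      norm_num
    rw [h4] at h3
    rw [sub_eq_add_neg]
    exact h3
  have e3 : (1 - (9 - 1) / (b : ℝ)) ^ (b + 1) ≤ 0.0004 := by
    have h0 : 0 ≤ 1 - (9 - 1) / (b : ℝ) := by
      rw [sub_nonneg, div_le_one hb0]
      linarith
    have h2 : 1 - (9 - 1) / (b : ℝ) ≤ Real.exp (-(8 / (b : ℝ))) := by
      have := Real.add_one_le_exp (-(8 / (b : ℝ)))
      have h5 : (9 - 1) / (b : ℝ) = 8 / b := by norm_num
      rw [h5]
      linarith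
    calc (1 - (9 - 1) / (b : ℝ)) ^ (b + 1) ≤ Real.exp (-(8 / (b : ℝ))) ^ (b + 1) := by gcongr
      _ = Real.exp (((b + 1 : ℕ) : ℝ) * (-(8 / (b : ℝ)))) := by rw [← Real.exp_nat_mul]
      _ ≤ Real.exp (-8) := by
          rw [Real.exp_le_exp]
          push_cast
          have : ((b : ℝ) + 1) * (8 / b) = 8 + 8 / b := by field_simp
          have h7 : 0 < 8 / (b : ℝ) := by positivity
          linarith
      _ ≤ 0.0004 := by
          rw [Real.exp_neg]
          have := exp8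
          rw [inv_le_comm₀ (Real.exp_pos _) (by norm_num)]
          linarith
  rw [mul_div_assoc', div_le_div_iff_of_pos_right hb1]
  linarith

end NumL

end Pool.Agent.TH703.Cone
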