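import Pool.Agent.TH703.Cone.Poin
import Pool.Agent.TH703.Cone.Num

set_option autoImplicit false

/-! # The core of the counterexample -/

namespace Pool.Agent.TH703.Cone

open MeasureTheory Set Filter Topology Metric
open scoped ENNReal Pointwise

namespace CoreL

open Poin

variable {b : ℕ}

lemma meas_vol_fib {A : Set (W b)} (hA : MeasurableSet A) :
    Measurable (fun x : ℂ => volume (fib A x)) :=
  measurable_measure_prodMk_left (meas_toLp hA)

lemma ae_le {S A : Set (W b)} (hS : MeasurableSet S) (hA : MeasurableSet A)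
    (h : volume (S \ A) = 0) : ∀ᵐ x : ℂ, volume (fib S x) ≤ volume (fib A x) := by
  rw [vol_W (hS.diff hA), lintegral_eq_zero_iff (meas_vol_fib (hS.diff hA))] at h
  filter_upwards [h] with x hx
  have h1 : fib S x ⊆ fib A x ∪ fib (S \ A) x := by
    intro y hy
    by_cases h2 : y ∈ fib A x
    · exact Or.inl h2
    · exact Or.inr ⟨hy, h2⟩
  calc volume (fib S x) ≤ volume (fib A x) + volume (fib (S \ A) x) :=
        (measure_mono h1).trans (measure_union_le _ _)
    _ = volume (fib A x) := by rw [hx]; simp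

lemma meas_Wp (u : ℂ) (σ r₀ R₁ : ℝ) : MeasurableSet (Wp u σ r₀ R₁) := by
  have e : Wp u σ r₀ R₁ = {x : ℂ | r₀ ≤ ‖x‖} ∩ ({x | ‖x‖ ≤ R₁} ∩ ({x | 0 < (x * u).re} ∩
      {x | |(x * u).im| ≤ σ * ‖x‖})) := rfl
  rw [e]
  refine (measurableSet_le measurable_const measurable_norm).inter
    ((measurableSet_le measurable_norm measurable_const).inter
      (MeasurableSet.inter ?_ ?_))
  · exact (isOpen_lt continuous_const
      (Complex.continuous_re.comp (continuous_id.mul continuous_const))).measurableSet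
  · exact (isClosed_le (Complex.continuous_im.comp (continuous_id.mul continuous_const)).abs
      (continuous_const.mul continuous_norm)).measurableSet

/-- volume of the part of `D` over a set of the plane on which the fibres of `A` are not small -/
lemma part {A D : Set (W b)} (hD : MeasurableSet D) {Z : Set ℂ}
    (hZ : MeasurableSet Z) {a : ℝ≥0∞} (h : ∀ᵐ x : ℂ, x ∈ Z → a ≤ volume (fib A x)) :
    a * volume {z | z ∈ D ∧ z.fst ∈ Z} ≤ ∫⁻ x : ℂ, volume (fib A x) * volume (fib D x) := by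
  have hm : MeasurableSet {z : W b | z ∈ D ∧ z.fst ∈ Z} :=
    hD.inter ((WithLp.continuous_fst 2 ℂ (B b)).measurable hZ)
  rw [vol_W hm, ← lintegral_const_mul _ (meas_vol_fib hm)]
  refine lintegral_mono_ae ?_
  filter_upwards [h] with x hx
  by_cases hxZ : x ∈ Z
  · have h1 : fib {z : W b | z ∈ D ∧ z.fst ∈ Z} x ⊆ fib D x := fun y hy => hy.1
    gcongr
    exact hx hxZ
  · have h1 : fib {z : W b | z ∈ D ∧ z.fst ∈ Z} x = ∅ := by
      rw [eq_empty_iff_forall_notMem]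
      exact fun y hy => hxZ hy.2
    rw [h1]
    simp

lemma interior_cone (Γ : ConvexCone ℝ (W b)) :
    (∀ z ∈ interior (Γ : Set (W b)), ∀ t : ℝ, 0 < t → t • z ∈ interior (Γ : Set (W b))) ∧
    (∀ z ∈ interior (Γ : Set (W b)), ∀ w ∈ interior (Γ : Set (W b)),
      z + w ∈ interior (Γ : Set (W b))) := by
  constructor
  · intro z hz t ht
    have h1 : t • interior (Γ : Set (W b)) ⊆ interior (Γ : Set (W b)) := by
      rw [← interior_smul₀ ht.ne']
      refine interior_mono ?_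
      rintro _ ⟨w, hw, rfl⟩
      exact Γ.smul_mem ht hw
    exact h1 (smul_mem_smul_set hz)
  · intro z hz w hw
    have h1 : (fun x => z + x) '' interior (Γ : Set (W b)) ⊆ interior (Γ : Set (W b)) := by
      refine interior_maximal ?_ ((Homeomorph.addLeft z).isOpenMap _ isOpen_interior)
      rintro _ ⟨x, hx, rfl⟩
      exact Γ.add_mem (interior_subset hz) (interior_subset hx)
    exact h1 ⟨w, hw, rfl⟩

lemma vol_interior (Γ : ConvexCone ℝ (W b)) (S : Set (W b)) :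
    volume (S ∩ (Γ : Set (W b))) ≤ volume (S ∩ interior (Γ : Set (W b))) := by
  have h0 : volume (frontier (Γ : Set (W b))) = 0 := Γ.convex.addHaar_frontier volume
  have h1 : S ∩ (Γ : Set (W b)) ⊆ (S ∩ interior (Γ : Set (W b))) ∪ frontier (Γ : Set (W b)) := by
    rintro x ⟨hx1, hx2⟩
    by_cases h : x ∈ interior (Γ : Set (W b))
    · exact Or.inl ⟨hx1, h⟩
    · exact Or.inr ⟨subset_closure hx2, h⟩
  calc volume (S ∩ (Γ : Set (W b))) ≤ volume (S ∩ interior (Γ : Set (W b))) +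
        volume (frontier (Γ : Set (W b))) := (measure_mono h1).trans (measure_union_le _ _)
    _ = _ := by rw [h0, add_zero]

lemma real_le {X Y : ℝ≥0∞} {a e : ℝ} (ha : 0 < a) (he : 0 ≤ e)
    (h : ENNReal.ofReal a * X ≤ Y) (hY : Y ≤ ENNReal.ofReal e) : X.toReal ≤ e / a := by
  have h1 := ENNReal.toReal_mono ENNReal.ofReal_ne_top (h.trans hY)
  rw [ENNReal.toReal_mul, ENNReal.toReal_ofReal ha.le, ENNReal.toReal_ofReal he] at h1
  rw [le_div_iff₀ ha]
  linarith

end CoreL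

open Poin CoreL NumL in
theorem core (h2 : ∀ b : ℕ, S_T2 (W b)) (h3 : S_T3) (h4 : S_T4) (h6 : S_T6) (h7 : S_T7b)
    (c : ℝ) (hc : 0 < c) :
    ∃ (b : ℕ) (ε : ℝ) (A : Set (W b)) (I : ℝ), 0 < ε ∧ MeasurableSet A ∧ A ⊆ Om b ε ∧
      volume A = volume (Om b ε) / 2 ∧ PLE (Om b ε) A I ∧
      (∀ (F : Set (W b)) (Q : ℝ), MeasurableSet F → F ⊆ Om b ε → volume F = volume A →
        PLE (Om b ε) F Q → I ≤ Q) ∧
      ∀ Γ : ConvexCone ℝ (W b), volume ((Om b ε ∩ (Γ : Set (W b))) \ A) = 0 →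
        volume ((Om b ε ∩ {x | -x ∈ Γ}) ∩ A) = 0 →
        ¬ (ENNReal.ofReal c * volume (Om b ε) ≤ volume (Om b ε ∩ (Γ : Set (W b)))) := by
  -- parameters
  set c' : ℝ := min c 1 with hc'
  have hc'0 : 0 < c' := lt_min hc one_pos
  have hc'1 : c' ≤ 1 := min_le_right _ _
  obtain ⟨b₀, hb₀⟩ := exists_nat_gt (24 * (9 : ℝ) ^ 2 / c' ^ 2)
  set b : ℕ := max b₀ 1000 with hbdef
  have hb1000 : 1000 ≤ b := le_max_right _ _
  have hb1 : 1 ≤ b := by omega
  have hbr : (1000 : ℝ) ≤ b := by exact_mod_cast hb1000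
  have hbK : 24 * (9 : ℝ) ^ 2 / c' ^ 2 < b :=
    hb₀.trans_le (by exact_mod_cast le_max_left _ _)
  have hbp : (0 : ℝ) < b + 1 := by linarith
  set r₀ : ℝ := 1 / (1000 * ((b : ℝ) + 1)) with hr₀
  have hr₀p : 0 < r₀ := by positivity
  obtain ⟨σ, η, hσ, hσ2, hη, hgeo⟩ := h6 b c' 9 r₀ hc'0 hc'1 (by norm_num) hbK hr₀p
  set ε : ℝ := σ * r₀ * η / (3000 * 2 ^ (b + 1)) with hεdef
  have hε : 0 < ε := by positivity
  obtain ⟨r, hr0, hr1, hr⟩ := exists_radius b
  -- the cylinder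
  set Cy : Set (W b) := {z | z ∈ Om b ε ∧ ‖z.fst‖ < r} with hCy
  have hCyP := h3 b ε r hb1 hε hr0 hr1
  have hvb : 0 < vb b ε := by
    unfold vb Measure.real
    exact ENNReal.toReal_pos (measure_ball_pos _ _ hε).ne' measure_ball_lt_top.ne
  have hvolOm : volume (Om b ε) = ENNReal.ofReal (vb b ε * (2 * Real.pi *
      (1 / (((b : ℝ) + 1) * (b + 2))))) := by
    have h := h7 b ε 1 hb1 hε zero_le_one le_rfl
    have e1 : {z : W b | z ∈ Om b ε ∧ ‖z.fst‖ < 1} = Om b ε := by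
      ext z
      exact ⟨fun h => h.1, fun h => ⟨h, fst_lt hε h⟩⟩
    rw [e1] at h
    rw [h]
    simp
  have hvolCy : volume Cy = volume (Om b ε) / 2 := by
    have h := h7 b ε r hb1 hε hr0.le hr1.le
    rw [hr] at h
    rw [hCy, h, hvolOm, ← ENNReal.ofReal_ofNat, ← ENNReal.ofReal_div_of_pos (by norm_num)]
    congr 1
    field_simp
    norm_num
  obtain ⟨A, I, hAm, hAΩ, hAv, hAI, hmin⟩ := h2 b (Om b ε) Cy _ isOpen_Om (convex_Om hε) zero_mem
    (bounded_Om hε)
    (isOpen_Om.measurableSet.inter ((WithLp.continuous_fst 2 ℂ (B b)).norm.measurable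
      measurableSet_Iio)) (fun z hz => hz.1) hCyP
  have hΩfin : volume (Om b ε) ≠ ⊤ := (bounded_Om hε).measure_lt_top.ne
  have hI0 : 0 ≤ I := by
    have h := hAI 0 ⟨contDiff_const, HasCompactSupport.zero,
      by rw [tsupport_eq_empty_iff.2 rfl]; exact empty_subset _, by simp⟩
    simpa [dv] using h
  have hIup : I ≤ vb b ε * (1.9815 / (b + 1)) := by
    refine (hmin Cy _ (isOpen_Om.measurableSet.inter
      ((WithLp.continuous_fst 2 ℂ (B b)).norm.measurable measurableSet_Iio)) (fun z hz => hz.1)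
      rfl hCyP).trans ?_
    gcongr
    exact upper hb1000 hr0 hr1 hr
  refine ⟨b, ε, A, I, hε, hAm, hAΩ, hAv.trans hvolCy, hAI, ?_, ?_⟩
  · intro F Q hF hFΩ hFv hFQ
    exact hmin F Q hF hFΩ (hFv.trans hAv) hFQ
  intro Γ hΓ1 hΓ2 hΓ3
  set G : Set (W b) := interior (Γ : Set (W b)) with hG
  have hGo : IsOpen G := isOpen_interior
  obtain ⟨hG1, hG2⟩ := interior_cone Γ
  have hG3 : ENNReal.ofReal c' * volume (Om b ε) ≤ volume (Om b ε ∩ G) := by
    refine le_trans ?_ (vol_interior Γ (Om b ε))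
    refine le_trans ?_ hΓ3
    gcongr
    exact min_le_left _ _
  obtain ⟨u, hu, hwedge⟩ := hgeo ε G hε hGo hG1 hG2 hG3
  set R₁ : ℝ := (9 - 1) / (b : ℝ) with hR₁
  set D : Set (W b) := Om b ε \ A with hD
  have hDm : MeasurableSet D := isOpen_Om.measurableSet.diff hAm
  have hSm : MeasurableSet (Om b ε ∩ G) := (isOpen_Om.inter hGo).measurableSet
  -- the fibres of `A` over the wedge
  have ha1 : ∀ᵐ x : ℂ, x ∈ Wp u σ r₀ R₁ → ENNReal.ofReal (η * vb b ε) ≤ volume (fib A x) := by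
    have h1 : volume ((Om b ε ∩ G) \ A) = 0 := by
      refine measure_mono_null ?_ hΓ1
      rintro z ⟨⟨hz1, hz2⟩, hz3⟩
      exact ⟨⟨hz1, interior_subset hz2⟩, hz3⟩
    filter_upwards [ae_le hSm hAm h1] with x hx hxW
    exact (hwedge x hxW).trans hx
  -- the fibres of `D` over the opposite wedge
  have ha2 : ∀ᵐ x : ℂ, x ∈ -Wp u σ r₀ R₁ → ENNReal.ofReal (η * vb b ε) ≤ volume (fib D x) := by
    set S' : Set (W b) := Om b ε ∩ {z | -z ∈ G} with hS'
    have hS'm : MeasurableSet S' :=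
      (isOpen_Om.inter (hGo.preimage continuous_neg)).measurableSet
    have h1 : volume (S' \ D) = 0 := by
      refine measure_mono_null ?_ hΓ2
      rintro z ⟨⟨hz1, hz2⟩, hz3⟩
      have hz4 : -z ∈ (Γ : Set (W b)) := interior_subset hz2
      refine ⟨⟨hz1, hz4⟩, ?_⟩
      by_contra h
      exact hz3 ⟨hz1, h⟩
    filter_upwards [ae_le hS'm hDm h1] with x hx hxW
    have h2 : fib S' x = -fib (Om b ε ∩ G) (-x) := by
      ext y
      simp only [fib, hS', mem_ofPred_eq, mem_inter_iff, Set.mem_neg]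
      have e1 : (WithLp.toLp 2 (-x, -y) : W b) = -WithLp.toLp 2 (x, y) := by
        rw [← WithLp.toLp_neg]; rfl
      rw [e1]
      constructor
      · rintro ⟨h3, h4⟩
        exact ⟨neg_mem h3, h4⟩
      · rintro ⟨h3, h4⟩
        refine ⟨?_, h4⟩
        have := neg_mem h3
        rwa [neg_neg] at this
    have h3 : volume (fib S' x) = volume (fib (Om b ε ∩ G) (-x)) := by
      rw [h2, Measure.measure_neg]
    rw [h3] at hx
    exact (hwedge (-x) hxW).trans hx
  have hT5 := t5 b ε I A hb1 hε hAm hAΩ hI0 hAI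
  have hηv : 0 < η * vb b ε := by positivity
  have hDfin : volume D ≠ ⊤ := ne_top_of_le_ne_top hΩfin (measure_mono sdiff_subset)
  have hAfin : volume A ≠ ⊤ := ne_top_of_le_ne_top hΩfin (measure_mono hAΩ)
  have hV1 : volume.real {z | z ∈ D ∧ z.fst ∈ Wp u σ r₀ R₁} ≤
      2 ^ (b + 1) * ε * vb b ε * I / (η * vb b ε) :=
    real_le hηv (by positivity)
      (part hDm (meas_Wp u σ r₀ R₁) ha1) hT5
  have hV2 : volume.real {z | z ∈ A ∧ -z.fst ∈ Wp u σ r₀ R₁} ≤
      2 ^ (b + 1) * ε * vb b ε * I / (η * vb b ε) := by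
    refine real_le hηv (by positivity)
      (part hAm (meas_Wp u σ r₀ R₁).neg ha2) ?_
    simp_rw [mul_comm (volume (fib D _))]
    exact hT5
  have hfin := h4 b ε I A u σ r₀ R₁ hb1 hε hAm hAΩ hAI hu hσ hσ2 hr₀p (by
      rw [hr₀, hR₁, div_lt_div_iff₀ (by positivity) (by linarith)]
      linarith) (by
      rw [hR₁, div_lt_one (by linarith)]
      linarith)
  have hlow := lower hb1000
  have e1 : 3 / (2 * σ * r₀) * (volume.real {z | z ∈ D ∧ z.fst ∈ Wp u σ r₀ R₁} +
      volume.real {z | z ∈ A ∧ -z.fst ∈ Wp u σ r₀ R₁}) ≤ I / 1000 := by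
    calc 3 / (2 * σ * r₀) * (volume.real {z | z ∈ D ∧ z.fst ∈ Wp u σ r₀ R₁} +
        volume.real {z | z ∈ A ∧ -z.fst ∈ Wp u σ r₀ R₁}) ≤
        3 / (2 * σ * r₀) * (2 ^ (b + 1) * ε * vb b ε * I / (η * vb b ε) +
          2 ^ (b + 1) * ε * vb b ε * I / (η * vb b ε)) := by gcongr
      _ = (3 * 2 ^ (b + 1) / (σ * r₀ * η)) * ε * I := by
          field_simp
          ring
      _ = I / 1000 := by
          rw [hεdef]
          field_simp
          ring
  have e2 : vb b ε * (1.9972 / ((b : ℝ) + 1)) ≤ I + I / 1000 := by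
    calc vb b ε * (1.9972 / ((b : ℝ) + 1)) ≤ vb b ε * (2 * ∫ ρ in r₀..R₁, (1 - ρ) ^ b) := by
          gcongr
      _ ≤ I + 3 / (2 * σ * r₀) * (volume.real {z | z ∈ D ∧ z.fst ∈ Wp u σ r₀ R₁} +
          volume.real {z | z ∈ A ∧ -z.fst ∈ Wp u σ r₀ R₁}) := hfin
      _ ≤ I + I / 1000 := by gcongr
  have e3 : vb b ε * (1.9972 / ((b : ℝ) + 1)) ≤ vb b ε * (1.9815 / (b + 1)) * 1.001 := by
    linarith
  have e4 : 0 < vb b ε / (b + 1) := by positivity
  have e5 : vb b ε * (1.9972 / ((b : ℝ) + 1)) = 1.9972 * (vb b ε / (b + 1)) := by ring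
  have e6 : vb b ε * (1.9815 / ((b : ℝ) + 1)) * 1.001 = 1.9834815 * (vb b ε / (b + 1)) := by ring
  rw [e5, e6] at e3
  nlinarith

end Pool.Agent.TH703.Cone
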