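import Pool.Agent.TH703.Cone.Trans

set_option autoImplicit false

/-! # T5: the fibres of a set of bounded relative perimeter are almost full or almost empty -/

namespace Pool.Agent.TH703.Cone

open MeasureTheory Set Filter Topology Metric
open scoped ENNReal

namespace Poin

variable {b : ℕ}

lemma meas_toLp : Measurable (fun p : ℂ × B b => (WithLp.toLp 2 p : W b)) :=
  (WithLp.prod_continuous_toLp 2 ℂ (B b)).measurable

/-- Fubini in `W b` -/
lemma lint_W {F : W b → ℝ≥0∞} (hF : Measurable F) :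
    ∫⁻ z, F z = ∫⁻ x : ℂ, ∫⁻ y : B b, F (WithLp.toLp 2 (x, y)) := by
  have h := WithLp.volume_preserving_ofLp ℂ (B b)
  have h1 := h.lintegral_comp (f := fun p => F (WithLp.toLp 2 p)) (hF.comp meas_toLp)
  simp only [WithLp.toLp_ofLp] at h1
  rw [h1, Measure.volume_eq_prod]
  exact lintegral_prod _ (hF.comp meas_toLp).aemeasurable

lemma meas_fib {A : Set (W b)} (hA : MeasurableSet A) (x : ℂ) : MeasurableSet (fib A x) :=
  (meas_toLp.comp (measurable_prodMk_left (x := x))) hA

lemma vol_W {A : Set (W b)} (hA : MeasurableSet A) : volume A = ∫⁻ x : ℂ, volume (fib A x) := by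
  rw [← lintegral_indicator_one hA, lint_W (measurable_one.indicator hA)]
  refine lintegral_congr fun x => ?_
  rw [← lintegral_indicator_one (meas_fib hA x)]
  rfl

lemma continuous_fs (ε : ℝ) : Continuous (fun z : W b => ‖z.fst‖ + ‖z.snd‖ / ε) :=
  (WithLp.continuous_fst 2 ℂ (B b)).norm.add ((WithLp.continuous_snd 2 ℂ (B b)).norm.div_const ε)

lemma isOpen_Om {ε : ℝ} : IsOpen (Om b ε) := isOpen_lt (continuous_fs ε) continuous_const

lemma convex_Om {ε : ℝ} (hε : 0 < ε) : Convex ℝ (Om b ε) := by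
  intro z hz w hw s t hs ht hst
  simp only [Om, mem_ofPred_eq, WithLp.add_fst, WithLp.smul_fst, WithLp.add_snd,
    WithLp.smul_snd] at hz hw ⊢
  have h1 : ‖s • z.fst + t • w.fst‖ ≤ s * ‖z.fst‖ + t * ‖w.fst‖ := by
    refine (norm_add_le _ _).trans ?_
    rw [norm_smul, norm_smul, Real.norm_of_nonneg hs, Real.norm_of_nonneg ht]
  have h2 : ‖s • z.snd + t • w.snd‖ ≤ s * ‖z.snd‖ + t * ‖w.snd‖ := by
    refine (norm_add_le _ _).trans ?_
    rw [norm_smul, norm_smul, Real.norm_of_nonneg hs, Real.norm_of_nonneg ht]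
  have h3 : ‖s • z.snd + t • w.snd‖ / ε ≤ (s * ‖z.snd‖ + t * ‖w.snd‖) / ε := by gcongr
  have h4 : (s * ‖z.snd‖ + t * ‖w.snd‖) / ε = s * (‖z.snd‖ / ε) + t * (‖w.snd‖ / ε) := by ring
  rcases hs.eq_or_lt with rfl | hs'
  · have ht1 : t = 1 := by linarith
    subst ht1
    linarith
  · nlinarith

lemma fst_lt {ε : ℝ} (hε : 0 < ε) {z : W b} (hz : z ∈ Om b ε) : ‖z.fst‖ < 1 := by
  have h1 : ‖z.fst‖ + ‖z.snd‖ / ε < 1 := hz
  have : 0 ≤ ‖z.snd‖ / ε := by positivity
  linarith

lemma snd_lt {ε : ℝ} (hε : 0 < ε) {z : W b} (hz : z ∈ Om b ε) : ‖z.snd‖ < ε := by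
  have h1 : ‖z.fst‖ + ‖z.snd‖ / ε < 1 := hz
  have h2 : ‖z.snd‖ / ε < 1 := by
    have : 0 ≤ ‖z.fst‖ := norm_nonneg _
    linarith
  rwa [div_lt_one hε] at h2

lemma bounded_Om {ε : ℝ} (hε : 0 < ε) : Bornology.IsBounded (Om b ε) := by
  refine (isBounded_iff_subset_closedBall 0).2 ⟨1 + ε, fun z hz => ?_⟩
  rw [mem_closedBall_zero_iff]
  have h1 := fst_lt hε hz
  have h2 := snd_lt hε hz
  have h3 := WithLp.prod_norm_sq_eq_of_L2 z
  have h4 : ‖z‖ ^ 2 ≤ (1 + ε) ^ 2 := by
    rw [h3]
    nlinarith [norm_nonneg z.fst, norm_nonneg z.snd]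
  exact le_of_sq_le_sq h4 (by positivity)

lemma zero_mem {ε : ℝ} : (0 : W b) ∈ Om b ε := by
  simp [Om]

lemma neg_mem {ε : ℝ} {z : W b} (hz : z ∈ Om b ε) : -z ∈ Om b ε := by
  simpa [Om] using hz

end Poin

open Poin in
theorem t5 : S_T5 := by
  intro b ε P A hb hε hA hAΩ hP h
  set D : Set (W b) := Om b ε \ A with hD
  have hDm : MeasurableSet D := isOpen_Om.measurableSet.diff hA
  -- the integrand
  let g : ℂ → B b → B b → ℝ≥0∞ := fun x y k =>
    A.indicator 1 (WithLp.toLp 2 (x, y)) * D.indicator 1 (WithLp.toLp 2 (x, y + k))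
  have hg : Measurable (fun p : ℂ × B b × B b => g p.1 p.2.1 p.2.2) := by
    refine Measurable.mul ?_ ?_
    · exact (measurable_one.indicator hA).comp (meas_toLp.comp (by fun_prop))
    · exact (measurable_one.indicator hDm).comp (meas_toLp.comp (by fun_prop))
  have e1 : ∀ x : ℂ, volume (fib A x) * volume (fib D x) = ∫⁻ k : B b, ∫⁻ y : B b, g x y k := by
    intro x
    have e2 : volume (fib A x) * volume (fib D x) = ∫⁻ y : B b, ∫⁻ k : B b, g x y k := by
      rw [← lintegral_indicator_one (meas_fib hA x), ← lintegral_mul_const _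
        (measurable_one.indicator (meas_fib hA x))]
      refine lintegral_congr fun y => ?_
      have hm : Measurable fun k : B b => D.indicator (1 : W b → ℝ≥0∞) (WithLp.toLp 2 (x, y + k)) :=
        (measurable_one.indicator hDm).comp (meas_toLp.comp (by fun_prop))
      have e3 : volume (fib D x) = ∫⁻ k : B b, D.indicator 1 (WithLp.toLp 2 (x, y + k)) := by
        rw [lintegral_add_left_eq_self (μ := volume)
          (fun k : B b => D.indicator (1 : W b → ℝ≥0∞) (WithLp.toLp 2 (x, k))) y,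
          ← lintegral_indicator_one (meas_fib hDm x)]
        rfl
      rw [e3, ← lintegral_const_mul _ hm]
      rfl
    rw [e2]
    refine lintegral_lintegral_swap ?_
    have h3 : Measurable (fun p : B b × B b => (x, p.1, p.2)) := by fun_prop
    have : Measurable (fun p : B b × B b => g x p.1 p.2) := hg.comp h3
    exact this.aemeasurable
  have e4 : ∫⁻ x : ℂ, volume (fib A x) * volume (fib D x) =
      ∫⁻ k : B b, ∫⁻ x : ℂ, ∫⁻ y : B b, g x y k := by
    simp_rw [e1]
    refine lintegral_lintegral_swap ?_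
    have h3 : Measurable (fun q : (ℂ × B b) × B b => (q.1.1, q.2, q.1.2)) := by fun_prop
    have h2 : Measurable (fun q : (ℂ × B b) × B b => g q.1.1 q.2 q.1.2) := hg.comp h3
    exact (h2.lintegral_prod_right').aemeasurable
  have e5 : ∀ k : B b, ∫⁻ x : ℂ, ∫⁻ y : B b, g x y k =
      volume {z : W b | z ∈ A ∧ z + WithLp.toLp 2 (0, k) ∈ D} := by
    intro k
    have hm : MeasurableSet {z : W b | z ∈ A ∧ z + WithLp.toLp 2 (0, k) ∈ D} :=
      hA.inter ((measurable_id.add_const _) hDm)
    rw [← lintegral_indicator_one hm, lint_W (measurable_one.indicator hm)]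
    refine lintegral_congr fun x => lintegral_congr fun y => ?_
    simp only [g]
    have e6 : (WithLp.toLp 2 (x, y) : W b) + WithLp.toLp 2 (0, k) = WithLp.toLp 2 (x, y + k) := by
      rw [← WithLp.toLp_add, Prod.mk_add_mk, add_zero]
    by_cases h1 : (WithLp.toLp 2 (x, y) : W b) ∈ A
    · by_cases h2 : (WithLp.toLp 2 (x, y + k) : W b) ∈ D
      · rw [indicator_of_mem h1, indicator_of_mem h2, indicator_of_mem
          (show (WithLp.toLp 2 (x, y) : W b) ∈
            {z : W b | z ∈ A ∧ z + WithLp.toLp 2 (0, k) ∈ D} from ⟨h1, by rw [e6]; exact h2⟩)]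
        simp
      · rw [indicator_of_notMem h2, mul_zero]
        symm
        apply indicator_of_notMem
        rintro ⟨-, h3⟩
        rw [e6] at h3
        exact h2 h3
    · rw [indicator_of_notMem h1, zero_mul]
      symm
      apply indicator_of_notMem
      rintro ⟨h3, -⟩
      exact h1 h3
  have e7 : ∀ k : B b, ∫⁻ x : ℂ, ∫⁻ y : B b, g x y k ≤
      (ball (0 : B b) (2 * ε)).indicator (fun _ => ENNReal.ofReal (2 * ε * P)) k := by
    intro k
    rw [e5]
    by_cases hk : k ∈ ball (0 : B b) (2 * ε)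
    · rw [indicator_of_mem hk]
      refine (t1 (W b) (Om b ε) A P _ isOpen_Om (convex_Om hε) (bounded_Om hε) hA hAΩ hP h).trans ?_
      refine ENNReal.ofReal_le_ofReal ?_
      rw [mem_ball_zero_iff] at hk
      have : ‖(WithLp.toLp 2 ((0 : ℂ), k) : W b)‖ = ‖k‖ := by
        simp
      rw [this]
      gcongr
    · rw [indicator_of_notMem hk, nonpos_iff_eq_zero]
      convert measure_empty (μ := (volume : Measure (W b)))
      rw [eq_empty_iff_forall_notMem]
      rintro z ⟨hz1, hz2⟩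
      apply hk
      rw [mem_ball_zero_iff]
      have h1 := snd_lt hε (hAΩ hz1)
      have h2 := snd_lt hε hz2.1
      have h3 : k = (z + WithLp.toLp 2 (0, k)).snd - z.snd := by simp
      calc ‖k‖ = ‖(z + WithLp.toLp 2 (0, k)).snd - z.snd‖ := by rw [← h3]
        _ ≤ ‖(z + WithLp.toLp 2 (0, k)).snd‖ + ‖z.snd‖ := norm_sub_le _ _
        _ < 2 * ε := by linarith
  rw [e4]
  refine (lintegral_mono e7).trans ?_
  rw [lintegral_indicator measurableSet_ball, setLIntegral_const,
    Measure.addHaar_ball_mul_of_pos volume (0 : B b) (by norm_num : (0:ℝ) < 2) ε]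
  have hfr : Module.finrank ℝ (B b) = b := by simp
  rw [hfr, vb]
  have hfin : volume (ball (0 : B b) ε) ≠ ⊤ := measure_ball_lt_top.ne
  rw [← ENNReal.ofReal_toReal hfin, ← ENNReal.ofReal_mul (by positivity),
    ← ENNReal.ofReal_mul (by positivity)]
  refine ENNReal.ofReal_le_ofReal (le_of_eq ?_)
  unfold Measure.real
  ring

end Pool.Agent.TH703.Cone
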