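import Mathlib

set_option autoImplicit false

/-!
# MP_65ff7c_an (S04892): definitions and the statements of the parts

`Om b ε = {(x, y) ∈ ℂ × ℝ^b : |x| + |y| / ε < 1}`. For large `b` and small `ε` the cylinder
`{|x| < r}` of half volume has a smaller relative perimeter than every half-volume set which is
trapped by a convex cone of volume at least `c |Om b ε|`.
-/

namespace Pool.Agent.TH703.Cone

open MeasureTheory Set Metric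
open scoped ENNReal

section general

variable {E : Type*} [NormedAddCommGroup E] [InnerProductSpace ℝ E]

/-- divergence -/
noncomputable def dv (φ : E → E) (x : E) : ℝ :=
  LinearMap.trace ℝ E (fderiv ℝ φ x).toLinearMap

/-- test fields for the relative perimeter -/
structure Tst (Ω : Set E) (φ : E → E) : Prop where
  c1 : ContDiff ℝ 1 φ
  cs : HasCompactSupport φ
  sub : tsupport φ ⊆ Ω
  le : ∀ x, ‖φ x‖ ≤ 1

variable [FiniteDimensional ℝ E] [MeasurableSpace E] [BorelSpace E]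

/-- the relative perimeter of `A` in `Ω` is at most `P` -/
def PLE (Ω A : Set E) (P : ℝ) : Prop := ∀ φ : E → E, Tst Ω φ → ∫ x in A, dv φ x ≤ P

variable (E) in
/-- **T1.** translation estimate -/
def S_T1 : Prop := ∀ (Ω A : Set E) (P : ℝ) (v : E), IsOpen Ω → Convex ℝ Ω →
    Bornology.IsBounded Ω → MeasurableSet A → A ⊆ Ω → 0 ≤ P → PLE Ω A P →
    volume {x | x ∈ A ∧ x + v ∈ Ω \ A} ≤ ENNReal.ofReal (‖v‖ * P)

variable (E) in
/-- **T2.** existence of minimizers; the number `I` is the infimum of the relative perimeter -/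
def S_T2 : Prop := ∀ (Ω A₀ : Set E) (P₀ : ℝ), IsOpen Ω → Convex ℝ Ω → (0 : E) ∈ Ω →
    Bornology.IsBounded Ω → MeasurableSet A₀ → A₀ ⊆ Ω → PLE Ω A₀ P₀ →
    ∃ (A : Set E) (I : ℝ), MeasurableSet A ∧ A ⊆ Ω ∧ volume A = volume A₀ ∧ PLE Ω A I ∧
      ∀ (F : Set E) (Q : ℝ), MeasurableSet F → F ⊆ Ω → volume F = volume A₀ → PLE Ω F Q → I ≤ Q

end general

/-- the space of fibres -/
abbrev B (b : ℕ) := EuclideanSpace ℝ (Fin b)

/-- the ambient space -/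
abbrev W (b : ℕ) := WithLp 2 (ℂ × B b)

/-- the convex body -/
def Om (b : ℕ) (ε : ℝ) : Set (W b) := {z | ‖z.fst‖ + ‖z.snd‖ / ε < 1}

/-- volume of the fibre over the origin -/
noncomputable def vb (b : ℕ) (ε : ℝ) : ℝ := volume.real (ball (0 : B b) ε)

/-- fibre -/
def fib {b : ℕ} (A : Set (W b)) (x : ℂ) : Set (B b) := {y | (WithLp.toLp 2 (x, y) : W b) ∈ A}

/-- a truncated wedge in the plane around the direction `conj u` -/
def Wp (u : ℂ) (σ r₀ R₁ : ℝ) : Set ℂ :=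
  {x | r₀ ≤ ‖x‖ ∧ ‖x‖ ≤ R₁ ∧ 0 < (x * u).re ∧ |(x * u).im| ≤ σ * ‖x‖}

/-- **T7a.** Fubini -/
def S_T7a : Prop := ∀ (b : ℕ) (ε : ℝ), 1 ≤ b → 0 < ε → ∀ f : ℂ → ℝ≥0∞, Measurable f →
    ∫⁻ z in Om b ε, f z.fst =
      ENNReal.ofReal (vb b ε) * ∫⁻ x in ball (0 : ℂ) 1, f x * ENNReal.ofReal ((1 - ‖x‖) ^ b)

/-- **T7b.** volumes -/
def S_T7b : Prop := ∀ (b : ℕ) (ε r : ℝ), 1 ≤ b → 0 < ε → 0 ≤ r → r ≤ 1 →
    volume {z | z ∈ Om b ε ∧ ‖z.fst‖ < r} = ENNReal.ofReal (vb b ε * (2 * Real.pi *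
      ((1 - (1 - r) ^ (b + 1) * (1 + (b + 1) * r)) / ((b + 1) * (b + 2)))))

/-- **T3.** perimeter of the cylinders -/
def S_T3 : Prop := ∀ (b : ℕ) (ε r : ℝ), 1 ≤ b → 0 < ε → 0 < r → r < 1 →
    PLE (Om b ε) {z | z ∈ Om b ε ∧ ‖z.fst‖ < r} (vb b ε * (2 * Real.pi * r * (1 - r) ^ b))

/-- **T4.** lower bound by the rotational field -/
def S_T4 : Prop := ∀ (b : ℕ) (ε P : ℝ) (A : Set (W b)) (u : ℂ) (σ r₀ R₁ : ℝ),
    1 ≤ b → 0 < ε → MeasurableSet A → A ⊆ Om b ε → PLE (Om b ε) A P → ‖u‖ = 1 →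
    0 < σ → σ ≤ 1 / 2 → 0 < r₀ → r₀ < R₁ → R₁ < 1 →
    vb b ε * (2 * ∫ ρ in r₀..R₁, (1 - ρ) ^ b) ≤ P + 3 / (2 * σ * r₀) *
      (volume.real {z | z ∈ Om b ε \ A ∧ z.fst ∈ Wp u σ r₀ R₁} +
        volume.real {z | z ∈ A ∧ -z.fst ∈ Wp u σ r₀ R₁})

/-- **T5.** the fibres are almost full or almost empty -/
def S_T5 : Prop := ∀ (b : ℕ) (ε P : ℝ) (A : Set (W b)), 1 ≤ b → 0 < ε → MeasurableSet A →
    A ⊆ Om b ε → 0 ≤ P → PLE (Om b ε) A P →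
    ∫⁻ x : ℂ, volume (fib A x) * volume (fib (Om b ε \ A) x) ≤
      ENNReal.ofReal (2 ^ (b + 1) * ε * vb b ε * P)

/-- **T6.** geometry of cones of volume at least `c |Om b ε|` -/
def S_T6 : Prop := ∀ (b : ℕ) (c K r₀ : ℝ), 0 < c → c ≤ 1 → 2 ≤ K → 24 * K ^ 2 / c ^ 2 < b →
    0 < r₀ → ∃ σ η : ℝ, 0 < σ ∧ σ ≤ 1 / 2 ∧ 0 < η ∧ ∀ (ε : ℝ) (G : Set (W b)), 0 < ε →
      IsOpen G → (∀ z ∈ G, ∀ t : ℝ, 0 < t → t • z ∈ G) → (∀ z ∈ G, ∀ w ∈ G, z + w ∈ G) →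
      ENNReal.ofReal c * volume (Om b ε) ≤ volume (Om b ε ∩ G) →
      ∃ u : ℂ, ‖u‖ = 1 ∧ ∀ x ∈ Wp u σ r₀ ((K - 1) / b),
        ENNReal.ofReal (η * vb b ε) ≤ volume (fib (Om b ε ∩ G) x)

end Pool.Agent.TH703.Cone
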